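import Mathlib

set_option autoImplicit false

/-!
# The real analysis of the bootstrap
-/

namespace Pool.Agent.TH489.PL

noncomputable section

lemma exists_kappa {θ : ℝ} (h0 : 0 < θ) (h1 : θ < 1) :
    ∃ κ : ℝ, 2 ≤ κ ∧ 2 / (1 - θ) * (4 * (12 * κ) ^ (1 / (1 + θ))) ^ (1 - θ) ≤ κ / 12 := by
  set e : ℝ := (1 - θ) / (1 + θ) with he
  have he1 : e < 1 := by rw [he, div_lt_one (by linarith)]; linarith
  have he0 : 0 < e := div_pos (by linarith) (by linarith)
  set c : ℝ := 2 / (1 - θ) * (4 ^ (1 - θ) * 12 ^ e) with hc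
  have hc0 : 0 < c := by
    rw [hc]
    have : 0 < 2 / (1 - θ) := div_pos (by norm_num) (by linarith)
    positivity
  refine ⟨max 2 ((12 * c) ^ (1 / (1 - e))), le_max_left _ _, ?_⟩
  set κ : ℝ := max 2 ((12 * c) ^ (1 / (1 - e))) with hκ
  have hκ0 : 0 < κ := lt_of_lt_of_le (by norm_num) (le_max_left _ _)
  have h12 : 0 < 12 * κ := by positivity
  have e1 : (4 * (12 * κ) ^ (1 / (1 + θ))) ^ (1 - θ) = 4 ^ (1 - θ) * 12 ^ e * κ ^ e := by
    rw [Real.mul_rpow (by norm_num) (Real.rpow_nonneg h12.le _), ← Real.rpow_mul h12.le]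
    have : 1 / (1 + θ) * (1 - θ) = e := by rw [he]; ring
    rw [this, Real.mul_rpow (by norm_num) hκ0.le]
    ring
  rw [e1]
  have e2 : 12 * c ≤ κ ^ (1 - e) := by
    calc 12 * c = ((12 * c) ^ (1 / (1 - e))) ^ (1 - e) := by
          rw [← Real.rpow_mul (by positivity), one_div_mul_cancel (by linarith), Real.rpow_one]
      _ ≤ κ ^ (1 - e) := by
          refine Real.rpow_le_rpow (by positivity) (le_max_right _ _) (by linarith)
  have e3 : κ ^ (1 - e) * κ ^ e = κ := by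
    rw [← Real.rpow_add hκ0]
    simp
  have e4 : 0 < κ ^ e := Real.rpow_pos_of_pos hκ0 _
  calc 2 / (1 - θ) * (4 ^ (1 - θ) * 12 ^ e * κ ^ e) = c * κ ^ e := by rw [hc]; ring
    _ = (12 * c) * κ ^ e / 12 := by ring
    _ ≤ κ ^ (1 - e) * κ ^ e / 12 := by gcongr
    _ = κ / 12 := by rw [e3]

theorem boot_real {s θ b C2 C3 : ℝ} (hs1 : 1 < s) (hs2 : s < 2) (hθ : θ = (2 - s) / (2 + s))
    (hb : 0 ≤ b) (hC2 : 0 ≤ C2) (hC3 : 0 ≤ C3) :
    ∃ A0 : ℝ, 1 ≤ A0 ∧ ∀ A : ℝ, A0 ≤ A → ∀ N : ℕ, 1 ≤ N →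
      1 ≤ A / 2 * (N : ℝ) ^ (-θ) ∨ ∃ R M : ℕ, 1 ≤ R ∧ 1 ≤ M ∧
        3 * R * (A * (M : ℝ) ^ (-θ)) / M ≤ 1 / 2 ∧
        2 * (A * ((2 * M : ℕ) : ℝ) ^ (1 - θ) / (1 - θ)) +
          ((2 * R : ℕ) : ℝ) ^ s * C2 * (C3 * Real.sqrt A *
            (1 / N + Real.sqrt (b * (R : ℝ) ^ (1 - s)) * (N : ℝ) ^ (-((1 + θ) / 2)))) ≤
          R * (A / 2 * (N : ℝ) ^ (-θ)) ^ 2 := by
  have hs2' : 0 < 2 + s := by linarith
  have hθ0 : 0 < θ := by rw [hθ]; exact div_pos (by linarith) hs2'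
  have hθ1 : θ < 1 := by rw [hθ, div_lt_one hs2']; linarith
  have i1 : (1 + θ) * (s - 1) = 1 - 3 * θ := by rw [hθ]; field_simp; ring
  have i2 : (1 + θ) * ((s - 1) / 2) + -((1 + θ) / 2) = -(2 * θ) := by rw [hθ]; field_simp; ring
  obtain ⟨κ, hκ2, hκ⟩ := exists_kappa hθ0 hθ1
  have hκ0 : 0 < κ := by linarith
  set c2 : ℝ := 2 ^ s * C2 * C3 with hc2
  have hc20 : 0 ≤ c2 := by positivity
  refine ⟨max 1 (max (12 * (c2 * (2 * κ) ^ (s - 1)))
    (12 * (c2 * Real.sqrt b * (2 * κ) ^ ((s - 1) / 2)))), le_max_left _ _, ?_⟩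
  intro A hA N hN
  have hA1 : 1 ≤ A := (le_max_left _ _).trans hA
  have hA2 : 12 * (c2 * (2 * κ) ^ (s - 1)) ≤ A :=
    ((le_max_left _ _).trans (le_max_right _ _)).trans hA
  have hA3 : 12 * (c2 * Real.sqrt b * (2 * κ) ^ ((s - 1) / 2)) ≤ A :=
    ((le_max_right _ _).trans (le_max_right _ _)).trans hA
  have hA0 : 0 < A := by linarith
  have hN1 : (1 : ℝ) ≤ N := by exact_mod_cast hN
  have hN0 : (0 : ℝ) < N := by linarith
  set x : ℝ := κ * (N : ℝ) ^ (1 + θ) / A with hx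
  have hx0 : 0 < x := by positivity
  by_cases hx1 : x < 1
  · left
    rw [hx, div_lt_one hA0] at hx1
    have h1 : (N : ℝ) ^ θ ≤ (N : ℝ) ^ (1 + θ) :=
      Real.rpow_le_rpow_of_exponent_le hN1 (by linarith)
    have h2 : 0 < (N : ℝ) ^ θ := Real.rpow_pos_of_pos hN0 _
    have h3 : 2 * (N : ℝ) ^ θ ≤ A :=
      (mul_le_mul hκ2 h1 h2.le hκ0.le).trans hx1.le
    rw [Real.rpow_neg hN0.le, ← div_eq_mul_inv, le_div_iff₀ h2]
    linarith
  · right
    push Not at hx1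
    set R : ℕ := ⌈x⌉₊ with hR
    have hR1 : x ≤ R := Nat.le_ceil x
    have hR2 : (R : ℝ) ≤ 2 * x := by
      have := Nat.ceil_lt_add_one hx0.le
      linarith
    have hR0 : (0 : ℝ) < R := by linarith
    have hRn : 1 ≤ R := by exact_mod_cast Nat.pos_of_ne_zero (by
      intro h; rw [h] at hR0; simp at hR0)
    set y : ℝ := (6 * R * A) ^ (1 / (1 + θ)) with hy
    have h6 : 1 ≤ 6 * R * A := by
      have h : (1 : ℝ) ≤ R := by linarith
      have h' : (1 : ℝ) * 1 ≤ R * A := mul_le_mul h hA1 zero_le_one (by linarith)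
      linarith
    have hy1 : 1 ≤ y := Real.one_le_rpow h6 (by positivity)
    set M : ℕ := ⌈y⌉₊ with hM
    have hM1 : y ≤ M := Nat.le_ceil y
    have hM2 : (M : ℝ) ≤ 2 * y := by
      have := Nat.ceil_lt_add_one (show 0 ≤ y by linarith)
      linarith
    have hM0 : (0 : ℝ) < M := by linarith
    have hMn : 1 ≤ M := by exact_mod_cast Nat.pos_of_ne_zero (by
      intro h; rw [h] at hM0; simp at hM0)
    refine ⟨R, M, hRn, hMn, ?_, ?_⟩
    · have h1 : 6 * R * A ≤ (M : ℝ) ^ (1 + θ) := by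
        calc 6 * R * A = y ^ (1 + θ) := by
              rw [hy, ← Real.rpow_mul (by linarith), one_div_mul_cancel (by linarith),
                Real.rpow_one]
          _ ≤ _ := Real.rpow_le_rpow (by linarith) hM1 (by linarith)
      have h2 : 3 * R * (A * (M : ℝ) ^ (-θ)) / M = 3 * R * A / (M : ℝ) ^ (1 + θ) := by
        rw [Real.rpow_add hM0, Real.rpow_one, Real.rpow_neg hM0.le]
        field_simp
      rw [h2, div_le_iff₀ (by positivity)]
      linarith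
    · -- the three terms
      have hNt : 0 < (N : ℝ) ^ (-θ) := Real.rpow_pos_of_pos hN0 _
      have hrhs : R * (A / 2 * (N : ℝ) ^ (-θ)) ^ 2 = 3 * (R * (A ^ 2 * (N : ℝ) ^ (-(2 * θ))) / 12) := by
        have : ((N : ℝ) ^ (-θ)) ^ 2 = (N : ℝ) ^ (-(2 * θ)) := by
          rw [← Real.rpow_natCast, ← Real.rpow_mul hN0.le]
          congr 1
          push_cast
          ring
        rw [mul_pow, this]
        ring
      have t1 : 2 * (A * ((2 * M : ℕ) : ℝ) ^ (1 - θ) / (1 - θ)) ≤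
          R * (A ^ 2 * (N : ℝ) ^ (-(2 * θ))) / 12 := by
        have hyN : y ≤ (12 * κ) ^ (1 / (1 + θ)) * N := by
          have h1 : 6 * R * A ≤ 12 * κ * (N : ℝ) ^ (1 + θ) := by
            have : x * A = κ * (N : ℝ) ^ (1 + θ) := by rw [hx]; field_simp
            have h' : R * A ≤ 2 * x * A := mul_le_mul_of_nonneg_right hR2 hA0.le
            linarith
          calc y ≤ (12 * κ * (N : ℝ) ^ (1 + θ)) ^ (1 / (1 + θ)) :=
                Real.rpow_le_rpow (by linarith) h1 (by positivity)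
            _ = (12 * κ) ^ (1 / (1 + θ)) * N := by
                rw [Real.mul_rpow (by positivity) (by positivity), ← Real.rpow_mul hN0.le,
                  mul_one_div_cancel (by linarith), Real.rpow_one]
        have h2M : ((2 * M : ℕ) : ℝ) ≤ 4 * (12 * κ) ^ (1 / (1 + θ)) * N := by
          push_cast
          linarith
        calc 2 * (A * ((2 * M : ℕ) : ℝ) ^ (1 - θ) / (1 - θ))
            = A * (2 / (1 - θ) * ((2 * M : ℕ) : ℝ) ^ (1 - θ)) := by ring
          _ ≤ A * (2 / (1 - θ) * (4 * (12 * κ) ^ (1 / (1 + θ)) * N) ^ (1 - θ)) := by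
              have : 0 < 2 / (1 - θ) := div_pos (by norm_num) (by linarith)
              gcongr
          _ = A * ((2 / (1 - θ) * (4 * (12 * κ) ^ (1 / (1 + θ))) ^ (1 - θ)) * (N : ℝ) ^ (1 - θ)) := by
              rw [Real.mul_rpow (by positivity) hN0.le]
              ring
          _ ≤ A * ((κ / 12) * (N : ℝ) ^ (1 - θ)) := by gcongr
          _ = x * (A ^ 2 * (N : ℝ) ^ (-(2 * θ))) / 12 := by
              have h1 : (N : ℝ) ^ (1 + θ) * (N : ℝ) ^ (-(2 * θ)) = (N : ℝ) ^ (1 - θ) := by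
                rw [← Real.rpow_add hN0]
                congr 1
                ring
              rw [← h1, hx]
              field_simp
          _ ≤ R * (A ^ 2 * (N : ℝ) ^ (-(2 * θ))) / 12 := by gcongr
      have hR2N : (R : ℝ) ≤ 2 * κ * (N : ℝ) ^ (1 + θ) := by
        have h1 : x ≤ κ * (N : ℝ) ^ (1 + θ) := by
          rw [hx]
          exact div_le_self (by positivity) hA1
        linarith
      have hsA : Real.sqrt A ≤ A := by
        rw [Real.sqrt_le_left hA0.le, sq]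
        exact le_mul_of_one_le_left hA0.le hA1
      have h2R : ((2 * R : ℕ) : ℝ) ^ s = 2 ^ s * (R * (R : ℝ) ^ (s - 1)) := by
        push_cast
        rw [Real.mul_rpow (by norm_num) hR0.le, Real.rpow_sub_one hR0.ne']
        field_simp
      have t2 : ((2 * R : ℕ) : ℝ) ^ s * C2 * (C3 * Real.sqrt A * (1 / N)) ≤
          R * (A ^ 2 * (N : ℝ) ^ (-(2 * θ))) / 12 := by
        rw [h2R]
        have h1 : (R : ℝ) ^ (s - 1) ≤ (2 * κ) ^ (s - 1) * (N : ℝ) ^ (1 - 3 * θ) := by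
          calc (R : ℝ) ^ (s - 1) ≤ (2 * κ * (N : ℝ) ^ (1 + θ)) ^ (s - 1) :=
                Real.rpow_le_rpow hR0.le hR2N (by linarith)
            _ = _ := by
                rw [Real.mul_rpow (by positivity) (by positivity), ← Real.rpow_mul hN0.le, i1]
        have h2 : (N : ℝ) ^ (1 - 3 * θ) * (1 / N) ≤ (N : ℝ) ^ (-(2 * θ)) := by
          have : (N : ℝ) ^ (1 - 3 * θ) * (1 / N) = (N : ℝ) ^ (-(3 * θ)) := by
            rw [show (1 : ℝ) - 3 * θ = 1 + -(3 * θ) by ring, Real.rpow_add hN0, Real.rpow_one]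
            field_simp
          rw [this]
          exact Real.rpow_le_rpow_of_exponent_le hN1 (by linarith)
        calc 2 ^ s * (R * (R : ℝ) ^ (s - 1)) * C2 * (C3 * Real.sqrt A * (1 / N))
            = R * (c2 * Real.sqrt A * ((R : ℝ) ^ (s - 1) * (1 / N))) := by rw [hc2]; ring
          _ ≤ R * (c2 * A * (((2 * κ) ^ (s - 1) * (N : ℝ) ^ (1 - 3 * θ)) * (1 / N))) := by gcongr
          _ = R * (c2 * (2 * κ) ^ (s - 1) * A * ((N : ℝ) ^ (1 - 3 * θ) * (1 / N))) := by ring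
          _ ≤ R * (c2 * (2 * κ) ^ (s - 1) * A * (N : ℝ) ^ (-(2 * θ))) := by gcongr
          _ ≤ R * ((A / 12) * A * (N : ℝ) ^ (-(2 * θ))) := by
              gcongr
              linarith
          _ = _ := by ring
      have t3 : ((2 * R : ℕ) : ℝ) ^ s * C2 * (C3 * Real.sqrt A *
          (Real.sqrt (b * (R : ℝ) ^ (1 - s)) * (N : ℝ) ^ (-((1 + θ) / 2)))) ≤
          R * (A ^ 2 * (N : ℝ) ^ (-(2 * θ))) / 12 := by
        rw [h2R, Real.sqrt_mul hb]
        have h0 : (R : ℝ) ^ (s - 1) * Real.sqrt ((R : ℝ) ^ (1 - s)) = (R : ℝ) ^ ((s - 1) / 2) := by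
          rw [Real.sqrt_eq_rpow, ← Real.rpow_mul hR0.le, ← Real.rpow_add hR0]
          congr 1
          ring
        have h1 : (R : ℝ) ^ ((s - 1) / 2) ≤ (2 * κ) ^ ((s - 1) / 2) *
            (N : ℝ) ^ ((1 + θ) * ((s - 1) / 2)) := by
          calc (R : ℝ) ^ ((s - 1) / 2) ≤ (2 * κ * (N : ℝ) ^ (1 + θ)) ^ ((s - 1) / 2) :=
                Real.rpow_le_rpow hR0.le hR2N (by linarith)
            _ = _ := by
                rw [Real.mul_rpow (by positivity) (by positivity), ← Real.rpow_mul hN0.le]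
        have h2 : (N : ℝ) ^ ((1 + θ) * ((s - 1) / 2)) * (N : ℝ) ^ (-((1 + θ) / 2)) =
            (N : ℝ) ^ (-(2 * θ)) := by
          rw [← Real.rpow_add hN0, i2]
        have hsb : 0 ≤ Real.sqrt b := Real.sqrt_nonneg _
        calc 2 ^ s * (R * (R : ℝ) ^ (s - 1)) * C2 * (C3 * Real.sqrt A *
              (Real.sqrt b * Real.sqrt ((R : ℝ) ^ (1 - s)) * (N : ℝ) ^ (-((1 + θ) / 2))))
            = R * (c2 * Real.sqrt b * Real.sqrt A *
              (((R : ℝ) ^ (s - 1) * Real.sqrt ((R : ℝ) ^ (1 - s))) *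
              (N : ℝ) ^ (-((1 + θ) / 2)))) := by rw [hc2]; ring
          _ = R * (c2 * Real.sqrt b * Real.sqrt A * ((R : ℝ) ^ ((s - 1) / 2) *
              (N : ℝ) ^ (-((1 + θ) / 2)))) := by rw [h0]
          _ ≤ R * (c2 * Real.sqrt b * A * (((2 * κ) ^ ((s - 1) / 2) *
              (N : ℝ) ^ ((1 + θ) * ((s - 1) / 2))) * (N : ℝ) ^ (-((1 + θ) / 2)))) := by gcongr
          _ = R * (c2 * Real.sqrt b * (2 * κ) ^ ((s - 1) / 2) * A *
              ((N : ℝ) ^ ((1 + θ) * ((s - 1) / 2)) * (N : ℝ) ^ (-((1 + θ) / 2)))) := by ring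
          _ = R * (c2 * Real.sqrt b * (2 * κ) ^ ((s - 1) / 2) * A * (N : ℝ) ^ (-(2 * θ))) := by
              rw [h2]
          _ ≤ R * ((A / 12) * A * (N : ℝ) ^ (-(2 * θ))) := by
              gcongr
              linarith
          _ = _ := by ring
      rw [hrhs]
      calc 2 * (A * ((2 * M : ℕ) : ℝ) ^ (1 - θ) / (1 - θ)) +
          ((2 * R : ℕ) : ℝ) ^ s * C2 * (C3 * Real.sqrt A *
            (1 / N + Real.sqrt (b * (R : ℝ) ^ (1 - s)) * (N : ℝ) ^ (-((1 + θ) / 2))))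
          = 2 * (A * ((2 * M : ℕ) : ℝ) ^ (1 - θ) / (1 - θ)) +
            ((2 * R : ℕ) : ℝ) ^ s * C2 * (C3 * Real.sqrt A * (1 / N)) +
            ((2 * R : ℕ) : ℝ) ^ s * C2 * (C3 * Real.sqrt A *
              (Real.sqrt (b * (R : ℝ) ^ (1 - s)) * (N : ℝ) ^ (-((1 + θ) / 2)))) := by ring
        _ ≤ _ := by linarith

end

end Pool.Agent.TH489.PL
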