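import Pool.Agent.TH489.PL.Boot

set_option autoImplicit false

/-!
# The real analysis of the bootstrap, general exponents
-/

namespace Pool.Agent.TH489.PL

noncomputable section

/-- The contribution of the pairs of large clusters. -/
lemma boot_terms {s θ η b C2 C3 κ ρ A : ℝ} {N R : ℕ} (hs1 : 1 < s) (hθ0 : 0 < θ)
    (hη1 : η ≤ 1) (hρ : ρ * (s - 1) ≤ 1 - 2 * θ * (2 - η))
    (hb : 0 ≤ b) (hC2 : 0 ≤ C2) (hC3 : 0 ≤ C3) (hκ0 : 0 < κ) (hN : 1 ≤ N) (hRn : 1 ≤ R)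
    (hA1 : 1 ≤ A) (hRN : (R : ℝ) ≤ 2 * κ * (N : ℝ) ^ ρ)
    (hA2 : 12 * (2 ^ s * C2 * C3 * (2 * κ) ^ (s - 1)) ≤ A)
    (hA3 : 12 * (2 ^ s * C2 * C3 * Real.sqrt b * (2 * κ) ^ ((s - 1) / 2)) ≤ A) :
    ((2 * R : ℕ) : ℝ) ^ s * C2 * (C3 * A ^ η *
      (1 / N + Real.sqrt (b * (R : ℝ) ^ (1 - s)) * (N : ℝ) ^ (-(1 / 2 + θ * η)))) ≤
      2 * (R * (A ^ 2 * (N : ℝ) ^ (-(2 * θ))) / 12) := by
  set c2 : ℝ := 2 ^ s * C2 * C3 with hc2
  have hc20 : 0 ≤ c2 := by positivity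
  have hA0 : 0 < A := by linarith
  have hN1 : (1 : ℝ) ≤ N := by exact_mod_cast hN
  have hN0 : (0 : ℝ) < N := by linarith
  have hR0 : (0 : ℝ) < R := by exact_mod_cast hRn
  have hsA : A ^ η ≤ A := by
    calc A ^ η ≤ A ^ (1 : ℝ) := Real.rpow_le_rpow_of_exponent_le hA1 hη1
      _ = A := Real.rpow_one _
  have h2R : ((2 * R : ℕ) : ℝ) ^ s = 2 ^ s * (R * (R : ℝ) ^ (s - 1)) := by
    push_cast
    rw [Real.mul_rpow (by norm_num) hR0.le, Real.rpow_sub_one hR0.ne']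
    field_simp
  have hp : ∀ e : ℝ, 0 ≤ e → (R : ℝ) ^ e ≤ (2 * κ) ^ e * (N : ℝ) ^ (ρ * e) := by
    intro e he
    calc (R : ℝ) ^ e ≤ (2 * κ * (N : ℝ) ^ ρ) ^ e := Real.rpow_le_rpow hR0.le hRN he
      _ = _ := by
          rw [Real.mul_rpow (by positivity) (by positivity), ← Real.rpow_mul hN0.le]
  have t2 : ((2 * R : ℕ) : ℝ) ^ s * C2 * (C3 * A ^ η * (1 / N)) ≤
      R * (A ^ 2 * (N : ℝ) ^ (-(2 * θ))) / 12 := by
    rw [h2R]
    have h1 := hp (s - 1) (by linarith)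
    have h2 : (N : ℝ) ^ (ρ * (s - 1)) * (1 / N) ≤ (N : ℝ) ^ (-(2 * θ)) := by
      rw [mul_one_div, ← Real.rpow_sub_one hN0.ne']
      refine Real.rpow_le_rpow_of_exponent_le hN1 ?_
      nlinarith
    calc 2 ^ s * (R * (R : ℝ) ^ (s - 1)) * C2 * (C3 * A ^ η * (1 / N))
        = R * (c2 * A ^ η * ((R : ℝ) ^ (s - 1) * (1 / N))) := by rw [hc2]; ring
      _ ≤ R * (c2 * A * (((2 * κ) ^ (s - 1) * (N : ℝ) ^ (ρ * (s - 1))) * (1 / N))) := by gcongr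
      _ = R * (c2 * (2 * κ) ^ (s - 1) * A * ((N : ℝ) ^ (ρ * (s - 1)) * (1 / N))) := by ring
      _ ≤ R * (c2 * (2 * κ) ^ (s - 1) * A * (N : ℝ) ^ (-(2 * θ))) := by gcongr
      _ ≤ R * ((A / 12) * A * (N : ℝ) ^ (-(2 * θ))) := by
          gcongr
          linarith
      _ = _ := by ring
  have t3 : ((2 * R : ℕ) : ℝ) ^ s * C2 * (C3 * A ^ η *
      (Real.sqrt (b * (R : ℝ) ^ (1 - s)) * (N : ℝ) ^ (-(1 / 2 + θ * η)))) ≤
      R * (A ^ 2 * (N : ℝ) ^ (-(2 * θ))) / 12 := by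
    rw [h2R, Real.sqrt_mul hb]
    have h0 : (R : ℝ) ^ (s - 1) * Real.sqrt ((R : ℝ) ^ (1 - s)) = (R : ℝ) ^ ((s - 1) / 2) := by
      rw [Real.sqrt_eq_rpow, ← Real.rpow_mul hR0.le, ← Real.rpow_add hR0]
      congr 1
      ring
    have h1 := hp ((s - 1) / 2) (by linarith)
    have h2 : (N : ℝ) ^ (ρ * ((s - 1) / 2)) * (N : ℝ) ^ (-(1 / 2 + θ * η)) ≤
        (N : ℝ) ^ (-(2 * θ)) := by
      rw [← Real.rpow_add hN0]
      refine Real.rpow_le_rpow_of_exponent_le hN1 ?_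
      nlinarith
    have hsb : 0 ≤ Real.sqrt b := Real.sqrt_nonneg _
    calc 2 ^ s * (R * (R : ℝ) ^ (s - 1)) * C2 * (C3 * A ^ η *
          (Real.sqrt b * Real.sqrt ((R : ℝ) ^ (1 - s)) * (N : ℝ) ^ (-(1 / 2 + θ * η))))
        = R * (c2 * Real.sqrt b * A ^ η *
          (((R : ℝ) ^ (s - 1) * Real.sqrt ((R : ℝ) ^ (1 - s))) *
          (N : ℝ) ^ (-(1 / 2 + θ * η)))) := by rw [hc2]; ring
      _ = R * (c2 * Real.sqrt b * A ^ η * ((R : ℝ) ^ ((s - 1) / 2) *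
          (N : ℝ) ^ (-(1 / 2 + θ * η)))) := by rw [h0]
      _ ≤ R * (c2 * Real.sqrt b * A * (((2 * κ) ^ ((s - 1) / 2) *
          (N : ℝ) ^ (ρ * ((s - 1) / 2))) * (N : ℝ) ^ (-(1 / 2 + θ * η)))) := by gcongr
      _ = R * (c2 * Real.sqrt b * (2 * κ) ^ ((s - 1) / 2) * A *
          ((N : ℝ) ^ (ρ * ((s - 1) / 2)) * (N : ℝ) ^ (-(1 / 2 + θ * η)))) := by ring
      _ ≤ R * (c2 * Real.sqrt b * (2 * κ) ^ ((s - 1) / 2) * A * (N : ℝ) ^ (-(2 * θ))) := by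
          gcongr
      _ ≤ R * ((A / 12) * A * (N : ℝ) ^ (-(2 * θ))) := by
          gcongr
          linarith
      _ = _ := by ring
  calc ((2 * R : ℕ) : ℝ) ^ s * C2 * (C3 * A ^ η *
        (1 / N + Real.sqrt (b * (R : ℝ) ^ (1 - s)) * (N : ℝ) ^ (-(1 / 2 + θ * η))))
      = ((2 * R : ℕ) : ℝ) ^ s * C2 * (C3 * A ^ η * (1 / N)) +
        ((2 * R : ℕ) : ℝ) ^ s * C2 * (C3 * A ^ η *
          (Real.sqrt (b * (R : ℝ) ^ (1 - s)) * (N : ℝ) ^ (-(1 / 2 + θ * η)))) := by ring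
    _ ≤ _ := by linarith

/-- `R (A/2 N^(-θ))² = 3 R A² N^(-2θ) / 12`. -/
lemma rhs_eq {θ A R : ℝ} {N : ℕ} (hN0 : (0 : ℝ) < N) :
    R * (A / 2 * (N : ℝ) ^ (-θ)) ^ 2 = 3 * (R * (A ^ 2 * (N : ℝ) ^ (-(2 * θ))) / 12) := by
  have : ((N : ℝ) ^ (-θ)) ^ 2 = (N : ℝ) ^ (-(2 * θ)) := by
    rw [← Real.rpow_natCast, ← Real.rpow_mul hN0.le]
    congr 1
    push_cast
    ring
  rw [mul_pow, this]
  ring

/-- Bond percolation. -/
theorem boot_real_q {s θ η b C2 C3 : ℝ} (hs1 : 1 < s) (hθ0 : 0 < θ) (hθ1 : θ < 1)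
    (hη1 : η ≤ 1) (hρ : (1 + θ) * (s - 1) ≤ 1 - 2 * θ * (2 - η))
    (hb : 0 ≤ b) (hC2 : 0 ≤ C2) (hC3 : 0 ≤ C3) :
    ∃ A0 : ℝ, 1 ≤ A0 ∧ ∀ A : ℝ, A0 ≤ A → ∀ N : ℕ, 1 ≤ N →
      1 ≤ A / 2 * (N : ℝ) ^ (-θ) ∨ ∃ R M : ℕ, 1 ≤ R ∧ 1 ≤ M ∧
        3 * R * (A * (M : ℝ) ^ (-θ)) / M ≤ 1 / 2 ∧
        2 * (A * ((2 * M : ℕ) : ℝ) ^ (1 - θ) / (1 - θ)) +
          ((2 * R : ℕ) : ℝ) ^ s * C2 * (C3 * A ^ η *
            (1 / N + Real.sqrt (b * (R : ℝ) ^ (1 - s)) * (N : ℝ) ^ (-(1 / 2 + θ * η)))) ≤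
          R * (A / 2 * (N : ℝ) ^ (-θ)) ^ 2 := by
  obtain ⟨κ, hκ2, hκ⟩ := exists_kappa hθ0 hθ1
  have hκ0 : 0 < κ := by linarith
  refine ⟨max 1 (max (12 * (2 ^ s * C2 * C3 * (2 * κ) ^ (s - 1)))
    (12 * (2 ^ s * C2 * C3 * Real.sqrt b * (2 * κ) ^ ((s - 1) / 2)))), le_max_left _ _, ?_⟩
  intro A hA N hN
  have hA1 : 1 ≤ A := (le_max_left _ _).trans hA
  have hA2 := ((le_max_left _ _).trans (le_max_right _ _)).trans hA
  have hA3 := ((le_max_right _ _).trans (le_max_right _ _)).trans hA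
  have hA0 : 0 < A := by linarith
  have hN1 : (1 : ℝ) ≤ N := by exact_mod_cast hN
  have hN0 : (0 : ℝ) < N := by linarith
  set x : ℝ := κ * (N : ℝ) ^ (1 + θ) / A with hx
  have hx0 : 0 < x := by positivity
  by_cases hx1 : x < 1
  · left
    rw [hx, div_lt_one hA0] at hx1
    have h1 : (N : ℝ) ^ θ ≤ (N : ℝ) ^ (1 + θ) :=
      Real.rpow_le_rpow_of_exponent_le hN1 (by linarith)
    have h2 : 0 < (N : ℝ) ^ θ := Real.rpow_pos_of_pos hN0 _
    have h3 : 2 * (N : ℝ) ^ θ ≤ A :=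
      (mul_le_mul hκ2 h1 h2.le hκ0.le).trans hx1.le
    rw [Real.rpow_neg hN0.le, ← div_eq_mul_inv, le_div_iff₀ h2]
    linarith
  · right
    push Not at hx1
    set R : ℕ := ⌈x⌉₊ with hR
    have hR1 : x ≤ R := Nat.le_ceil x
    have hR2 : (R : ℝ) ≤ 2 * x := by
      have := Nat.ceil_lt_add_one hx0.le
      linarith
    have hR0 : (0 : ℝ) < R := by linarith
    have hRn : 1 ≤ R := by exact_mod_cast Nat.pos_of_ne_zero (by
      intro h; rw [h] at hR0; simp at hR0)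
    set y : ℝ := (6 * R * A) ^ (1 / (1 + θ)) with hy
    have h6 : 1 ≤ 6 * R * A := by
      have h : (1 : ℝ) ≤ R := by linarith
      have h' : (1 : ℝ) * 1 ≤ R * A := mul_le_mul h hA1 zero_le_one (by linarith)
      linarith
    have hy1 : 1 ≤ y := Real.one_le_rpow h6 (by positivity)
    set M : ℕ := ⌈y⌉₊ with hM
    have hM1 : y ≤ M := Nat.le_ceil y
    have hM2 : (M : ℝ) ≤ 2 * y := by
      have := Nat.ceil_lt_add_one (show 0 ≤ y by linarith)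
      linarith
    have hM0 : (0 : ℝ) < M := by linarith
    have hMn : 1 ≤ M := by exact_mod_cast Nat.pos_of_ne_zero (by
      intro h; rw [h] at hM0; simp at hM0)
    refine ⟨R, M, hRn, hMn, ?_, ?_⟩
    · have h1 : 6 * R * A ≤ (M : ℝ) ^ (1 + θ) := by
        calc 6 * R * A = y ^ (1 + θ) := by
              rw [hy, ← Real.rpow_mul (by linarith), one_div_mul_cancel (by linarith),
                Real.rpow_one]
          _ ≤ _ := Real.rpow_le_rpow (by linarith) hM1 (by linarith)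
      have h2 : 3 * R * (A * (M : ℝ) ^ (-θ)) / M = 3 * R * A / (M : ℝ) ^ (1 + θ) := by
        rw [Real.rpow_add hM0, Real.rpow_one, Real.rpow_neg hM0.le]
        field_simp
      rw [h2, div_le_iff₀ (by positivity)]
      linarith
    · -- the terms
      have t1 : 2 * (A * ((2 * M : ℕ) : ℝ) ^ (1 - θ) / (1 - θ)) ≤
          R * (A ^ 2 * (N : ℝ) ^ (-(2 * θ))) / 12 := by
        have hyN : y ≤ (12 * κ) ^ (1 / (1 + θ)) * N := by
          have h1 : 6 * R * A ≤ 12 * κ * (N : ℝ) ^ (1 + θ) := by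
            have : x * A = κ * (N : ℝ) ^ (1 + θ) := by rw [hx]; field_simp
            have h' : R * A ≤ 2 * x * A := mul_le_mul_of_nonneg_right hR2 hA0.le
            linarith
          calc y ≤ (12 * κ * (N : ℝ) ^ (1 + θ)) ^ (1 / (1 + θ)) :=
                Real.rpow_le_rpow (by linarith) h1 (by positivity)
            _ = (12 * κ) ^ (1 / (1 + θ)) * N := by
                rw [Real.mul_rpow (by positivity) (by positivity), ← Real.rpow_mul hN0.le,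
                  mul_one_div_cancel (by linarith), Real.rpow_one]
        have h2M : ((2 * M : ℕ) : ℝ) ≤ 4 * (12 * κ) ^ (1 / (1 + θ)) * N := by
          push_cast
          linarith
        calc 2 * (A * ((2 * M : ℕ) : ℝ) ^ (1 - θ) / (1 - θ))
            = A * (2 / (1 - θ) * ((2 * M : ℕ) : ℝ) ^ (1 - θ)) := by ring
          _ ≤ A * (2 / (1 - θ) * (4 * (12 * κ) ^ (1 / (1 + θ)) * N) ^ (1 - θ)) := by
              have : 0 < 2 / (1 - θ) := div_pos (by norm_num) (by linarith)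
              gcongr
          _ = A * ((2 / (1 - θ) * (4 * (12 * κ) ^ (1 / (1 + θ))) ^ (1 - θ)) * (N : ℝ) ^ (1 - θ)) := by
              rw [Real.mul_rpow (by positivity) hN0.le]
              ring
          _ ≤ A * ((κ / 12) * (N : ℝ) ^ (1 - θ)) := by gcongr
          _ = x * (A ^ 2 * (N : ℝ) ^ (-(2 * θ))) / 12 := by
              have h1 : (N : ℝ) ^ (1 + θ) * (N : ℝ) ^ (-(2 * θ)) = (N : ℝ) ^ (1 - θ) := by
                rw [← Real.rpow_add hN0]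
                congr 1
                ring
              rw [← h1, hx]
              field_simp
          _ ≤ R * (A ^ 2 * (N : ℝ) ^ (-(2 * θ))) / 12 := by gcongr
      have hR2N : (R : ℝ) ≤ 2 * κ * (N : ℝ) ^ (1 + θ) := by
        have h1 : x ≤ κ * (N : ℝ) ^ (1 + θ) := by
          rw [hx]
          exact div_le_self (by positivity) hA1
        linarith
      rw [rhs_eq hN0]
      have h23 := boot_terms hs1 hθ0 hη1 hρ hb hC2 hC3 hκ0 hN hRn hA1 hR2N hA2 hA3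
      linarith

/-- Site percolation. -/
theorem boot_realS_q {s θ η b C2 C3 : ℝ} (hs1 : 1 < s) (hθ0 : 0 < θ) (hθ1 : θ < 1)
    (hη1 : η ≤ 1) (hρ : 2 * (s - 1) ≤ 1 - 2 * θ * (2 - η))
    (hb : 0 ≤ b) (hC2 : 0 ≤ C2) (hC3 : 0 ≤ C3) :
    ∃ A0 : ℝ, 1 ≤ A0 ∧ ∀ A : ℝ, A0 ≤ A → ∀ N : ℕ, 1 ≤ N →
      1 ≤ A / 2 * (N : ℝ) ^ (-θ) ∨ ∃ R : ℕ, 1 ≤ R ∧
        A * ((3 * R : ℕ) : ℝ) ^ (1 - θ) / (1 - θ) +
          ((2 * R : ℕ) : ℝ) ^ s * C2 * (C3 * A ^ η *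
            (1 / N + Real.sqrt (b * (R : ℝ) ^ (1 - s)) * (N : ℝ) ^ (-(1 / 2 + θ * η)))) ≤
          R * (A / 2 * (N : ℝ) ^ (-θ)) ^ 2 := by
  have h1θ : 0 < 1 - θ := by linarith
  set κ : ℝ := (36 / (1 - θ)) ^ (1 / θ) with hκ
  have h36 : 36 ≤ 36 / (1 - θ) := by
    rw [le_div_iff₀ h1θ]
    linarith
  have hκ1 : 1 ≤ κ := Real.one_le_rpow (by linarith) (by positivity)
  have hκ0 : 0 < κ := by linarith
  have hκθ : κ ^ θ = 36 / (1 - θ) := by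
    rw [hκ, ← Real.rpow_mul (by linarith), one_div_mul_cancel hθ0.ne', Real.rpow_one]
  refine ⟨max 1 (max (12 * (2 ^ s * C2 * C3 * (2 * κ) ^ (s - 1)))
    (12 * (2 ^ s * C2 * C3 * Real.sqrt b * (2 * κ) ^ ((s - 1) / 2)))), le_max_left _ _, ?_⟩
  intro A hA N hN
  have hA1 : 1 ≤ A := (le_max_left _ _).trans hA
  have hA2 := ((le_max_left _ _).trans (le_max_right _ _)).trans hA
  have hA3 := ((le_max_right _ _).trans (le_max_right _ _)).trans hA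
  have hA0 : 0 < A := by linarith
  have hN1 : (1 : ℝ) ≤ N := by exact_mod_cast hN
  have hN0 : (0 : ℝ) < N := by linarith
  have hAp : 0 < A ^ (1 / θ) := Real.rpow_pos_of_pos hA0 _
  have hAp1 : 1 ≤ A ^ (1 / θ) := Real.one_le_rpow hA1 (by positivity)
  have hApθ : (A ^ (1 / θ)) ^ θ = A := by
    rw [← Real.rpow_mul hA0.le, one_div_mul_cancel hθ0.ne', Real.rpow_one]
  have hN2 : ((N : ℝ) ^ 2) ^ θ = (N : ℝ) ^ (2 * θ) := by
    rw [← Real.rpow_natCast, ← Real.rpow_mul hN0.le]; push_cast; rfl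
  set x : ℝ := κ * (N : ℝ) ^ 2 / A ^ (1 / θ) with hx
  have hx0 : 0 < x := by positivity
  by_cases hx1 : x < 1
  · left
    rw [hx, div_lt_one hAp] at hx1
    have h0 : (κ * (N : ℝ) ^ 2) ^ θ ≤ (A ^ (1 / θ)) ^ θ :=
      Real.rpow_le_rpow (by positivity) hx1.le hθ0.le
    rw [hApθ, Real.mul_rpow hκ0.le (by positivity), hκθ, hN2] at h0
    have h1 : (N : ℝ) ^ θ ≤ (N : ℝ) ^ (2 * θ) :=
      Real.rpow_le_rpow_of_exponent_le hN1 (by linarith)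
    have h2 : 0 < (N : ℝ) ^ θ := Real.rpow_pos_of_pos hN0 _
    have h3 : 36 * (N : ℝ) ^ θ ≤ A :=
      (mul_le_mul h36 h1 h2.le (by linarith)).trans h0
    rw [Real.rpow_neg hN0.le, ← div_eq_mul_inv, le_div_iff₀ h2]
    linarith
  · right
    push Not at hx1
    set R : ℕ := ⌈x⌉₊ with hR
    have hR1 : x ≤ R := Nat.le_ceil x
    have hR2 : (R : ℝ) ≤ 2 * x := by
      have := Nat.ceil_lt_add_one hx0.le
      linarith
    have hR0 : (0 : ℝ) < R := by linarith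
    have hRn : 1 ≤ R := by exact_mod_cast Nat.pos_of_ne_zero (by
      intro h; rw [h] at hR0; simp at hR0)
    refine ⟨R, hRn, ?_⟩
    have t1 : A * ((3 * R : ℕ) : ℝ) ^ (1 - θ) / (1 - θ) ≤
        R * (A ^ 2 * (N : ℝ) ^ (-(2 * θ))) / 12 := by
      have e1 : ((3 * R : ℕ) : ℝ) ^ (1 - θ) ≤ 3 * (R * (R : ℝ) ^ (-θ)) := by
        push_cast
        rw [Real.mul_rpow (by norm_num) hR0.le, show (1 : ℝ) - θ = 1 + -θ by ring,
          Real.rpow_add hR0, Real.rpow_one]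
        have : (3 : ℝ) ^ (1 + -θ) ≤ 3 := by
          calc (3 : ℝ) ^ (1 + -θ) ≤ 3 ^ (1 : ℝ) :=
                Real.rpow_le_rpow_of_exponent_le (by norm_num) (by linarith)
            _ = 3 := Real.rpow_one _
        exact mul_le_mul_of_nonneg_right this (by positivity)
      have e2 : (R : ℝ) ^ (-θ) ≤ (1 - θ) / 36 * A * (N : ℝ) ^ (-(2 * θ)) := by
        calc (R : ℝ) ^ (-θ) ≤ x ^ (-θ) := Real.rpow_le_rpow_of_nonpos hx0 hR1 (by linarith)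
          _ = (x ^ θ)⁻¹ := Real.rpow_neg hx0.le _
          _ = _ := by
              rw [hx, Real.div_rpow (by positivity) hAp.le, hApθ,
                Real.mul_rpow hκ0.le (by positivity), hκθ, hN2, Real.rpow_neg hN0.le]
              field_simp
      calc A * ((3 * R : ℕ) : ℝ) ^ (1 - θ) / (1 - θ)
          ≤ A * (3 * (R * ((1 - θ) / 36 * A * (N : ℝ) ^ (-(2 * θ))))) / (1 - θ) := by
            gcongr
            exact e1.trans (by gcongr)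
        _ = R * (A ^ 2 * (N : ℝ) ^ (-(2 * θ))) / 12 := by
            field_simp
            ring
    have hR2N : (R : ℝ) ≤ 2 * κ * (N : ℝ) ^ (2 : ℝ) := by
      have h1 : x ≤ κ * (N : ℝ) ^ 2 := by
        rw [hx]
        exact div_le_self (by positivity) hAp1
      have h2 : (N : ℝ) ^ (2 : ℝ) = (N : ℝ) ^ 2 := by
        rw [← Real.rpow_natCast]; push_cast; rfl
      rw [h2]
      linarith
    rw [rhs_eq hN0]
    have h23 := boot_terms hs1 hθ0 hη1 hρ hb hC2 hC3 hκ0 hN hRn hA1 hR2N hA2 hA3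
    linarith

end

end Pool.Agent.TH489.PL
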