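import Mathlib

set_option autoImplicit false

/-!
# The real analysis of the bootstrap, site percolation
-/

namespace Pool.Agent.TH489.PL

noncomputable section

theorem boot_realS {s θ b C2 C3 : ℝ} (hs1 : 1 < s) (hs2 : s < 3 / 2) (hθ : θ = (3 - 2 * s) / 3)
    (hb : 0 ≤ b) (hC2 : 0 ≤ C2) (hC3 : 0 ≤ C3) :
    ∃ A0 : ℝ, 1 ≤ A0 ∧ ∀ A : ℝ, A0 ≤ A → ∀ N : ℕ, 1 ≤ N →
      1 ≤ A / 2 * (N : ℝ) ^ (-θ) ∨ ∃ R : ℕ, 1 ≤ R ∧
        A * ((3 * R : ℕ) : ℝ) ^ (1 - θ) / (1 - θ) +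
          ((2 * R : ℕ) : ℝ) ^ s * C2 * (C3 * Real.sqrt A *
            (1 / N + Real.sqrt (b * (R : ℝ) ^ (1 - s)) * (N : ℝ) ^ (-((1 + θ) / 2)))) ≤
          R * (A / 2 * (N : ℝ) ^ (-θ)) ^ 2 := by
  have hθ0 : 0 < θ := by rw [hθ]; linarith
  have hθ1 : θ < 1 := by rw [hθ]; linarith
  have h1θ : 0 < 1 - θ := by linarith
  have i1 : 2 * (s - 1) = 1 - 3 * θ := by rw [hθ]; ring
  have i2 : 2 * ((s - 1) / 2) + -((1 + θ) / 2) = -(2 * θ) := by rw [hθ]; ring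
  set κ : ℝ := (36 / (1 - θ)) ^ (1 / θ) with hκ
  have h36 : 36 ≤ 36 / (1 - θ) := by
    rw [le_div_iff₀ h1θ]
    linarith
  have hκ1 : 1 ≤ κ := Real.one_le_rpow (by linarith) (by positivity)
  have hκ0 : 0 < κ := by linarith
  have hκθ : κ ^ θ = 36 / (1 - θ) := by
    rw [hκ, ← Real.rpow_mul (by linarith), one_div_mul_cancel hθ0.ne', Real.rpow_one]
  set c2 : ℝ := 2 ^ s * C2 * C3 with hc2
  have hc20 : 0 ≤ c2 := by positivity
  refine ⟨max 1 (max (12 * (c2 * (2 * κ) ^ (s - 1)))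
    (12 * (c2 * Real.sqrt b * (2 * κ) ^ ((s - 1) / 2)))), le_max_left _ _, ?_⟩
  intro A hA N hN
  have hA1 : 1 ≤ A := (le_max_left _ _).trans hA
  have hA2 : 12 * (c2 * (2 * κ) ^ (s - 1)) ≤ A :=
    ((le_max_left _ _).trans (le_max_right _ _)).trans hA
  have hA3 : 12 * (c2 * Real.sqrt b * (2 * κ) ^ ((s - 1) / 2)) ≤ A :=
    ((le_max_right _ _).trans (le_max_right _ _)).trans hA
  have hA0 : 0 < A := by linarith
  have hN1 : (1 : ℝ) ≤ N := by exact_mod_cast hN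
  have hN0 : (0 : ℝ) < N := by linarith
  have hAp : 0 < A ^ (1 / θ) := Real.rpow_pos_of_pos hA0 _
  have hAp1 : 1 ≤ A ^ (1 / θ) := Real.one_le_rpow hA1 (by positivity)
  have hApθ : (A ^ (1 / θ)) ^ θ = A := by
    rw [← Real.rpow_mul hA0.le, one_div_mul_cancel hθ0.ne', Real.rpow_one]
  have hN2 : ((N : ℝ) ^ 2) ^ θ = (N : ℝ) ^ (2 * θ) := by
    rw [← Real.rpow_natCast, ← Real.rpow_mul hN0.le]; push_cast; rfl
  set x : ℝ := κ * (N : ℝ) ^ 2 / A ^ (1 / θ) with hx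
  have hx0 : 0 < x := by positivity
  by_cases hx1 : x < 1
  · left
    rw [hx, div_lt_one hAp] at hx1
    have h0 : (κ * (N : ℝ) ^ 2) ^ θ ≤ (A ^ (1 / θ)) ^ θ :=
      Real.rpow_le_rpow (by positivity) hx1.le hθ0.le
    rw [hApθ, Real.mul_rpow hκ0.le (by positivity), hκθ, hN2] at h0
    have h1 : (N : ℝ) ^ θ ≤ (N : ℝ) ^ (2 * θ) :=
      Real.rpow_le_rpow_of_exponent_le hN1 (by linarith)
    have h2 : 0 < (N : ℝ) ^ θ := Real.rpow_pos_of_pos hN0 _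
    have h3 : 36 * (N : ℝ) ^ θ ≤ A :=
      (mul_le_mul h36 h1 h2.le (by linarith)).trans h0
    rw [Real.rpow_neg hN0.le, ← div_eq_mul_inv, le_div_iff₀ h2]
    linarith
  · right
    push Not at hx1
    set R : ℕ := ⌈x⌉₊ with hR
    have hR1 : x ≤ R := Nat.le_ceil x
    have hR2 : (R : ℝ) ≤ 2 * x := by
      have := Nat.ceil_lt_add_one hx0.le
      linarith
    have hR0 : (0 : ℝ) < R := by linarith
    have hRn : 1 ≤ R := by exact_mod_cast Nat.pos_of_ne_zero (by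
      intro h; rw [h] at hR0; simp at hR0)
    refine ⟨R, hRn, ?_⟩
    have hNt : 0 < (N : ℝ) ^ (-θ) := Real.rpow_pos_of_pos hN0 _
    have hrhs : R * (A / 2 * (N : ℝ) ^ (-θ)) ^ 2 = 3 * (R * (A ^ 2 * (N : ℝ) ^ (-(2 * θ))) / 12) := by
      have : ((N : ℝ) ^ (-θ)) ^ 2 = (N : ℝ) ^ (-(2 * θ)) := by
        rw [← Real.rpow_natCast, ← Real.rpow_mul hN0.le]
        congr 1
        push_cast
        ring
      rw [mul_pow, this]
      ring
    have t1 : A * ((3 * R : ℕ) : ℝ) ^ (1 - θ) / (1 - θ) ≤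
        R * (A ^ 2 * (N : ℝ) ^ (-(2 * θ))) / 12 := by
      have e1 : ((3 * R : ℕ) : ℝ) ^ (1 - θ) ≤ 3 * (R * (R : ℝ) ^ (-θ)) := by
        push_cast
        rw [Real.mul_rpow (by norm_num) hR0.le, show (1 : ℝ) - θ = 1 + -θ by ring,
          Real.rpow_add hR0, Real.rpow_one]
        have : (3 : ℝ) ^ (1 + -θ) ≤ 3 := by
          calc (3 : ℝ) ^ (1 + -θ) ≤ 3 ^ (1 : ℝ) :=
                Real.rpow_le_rpow_of_exponent_le (by norm_num) (by linarith)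
            _ = 3 := Real.rpow_one _
        exact mul_le_mul_of_nonneg_right this (by positivity)
      have e2 : (R : ℝ) ^ (-θ) ≤ (1 - θ) / 36 * A * (N : ℝ) ^ (-(2 * θ)) := by
        calc (R : ℝ) ^ (-θ) ≤ x ^ (-θ) := Real.rpow_le_rpow_of_nonpos hx0 hR1 (by linarith)
          _ = (x ^ θ)⁻¹ := Real.rpow_neg hx0.le _
          _ = _ := by
              rw [hx, Real.div_rpow (by positivity) hAp.le, hApθ,
                Real.mul_rpow hκ0.le (by positivity), hκθ, hN2, Real.rpow_neg hN0.le]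
              field_simp
      calc A * ((3 * R : ℕ) : ℝ) ^ (1 - θ) / (1 - θ)
          ≤ A * (3 * (R * ((1 - θ) / 36 * A * (N : ℝ) ^ (-(2 * θ))))) / (1 - θ) := by
            gcongr
            exact e1.trans (by gcongr)
        _ = R * (A ^ 2 * (N : ℝ) ^ (-(2 * θ))) / 12 := by
            field_simp
            ring
    have hR2N : (R : ℝ) ≤ 2 * κ * (N : ℝ) ^ (2 : ℝ) := by
      have h1 : x ≤ κ * (N : ℝ) ^ 2 := by
        rw [hx]
        exact div_le_self (by positivity) hAp1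
      have h2 : (N : ℝ) ^ (2 : ℝ) = (N : ℝ) ^ 2 := by
        rw [← Real.rpow_natCast]; push_cast; rfl
      rw [h2]
      linarith
    have hsA : Real.sqrt A ≤ A := by
      rw [Real.sqrt_le_left hA0.le, sq]
      exact le_mul_of_one_le_left hA0.le hA1
    have h2R : ((2 * R : ℕ) : ℝ) ^ s = 2 ^ s * (R * (R : ℝ) ^ (s - 1)) := by
      push_cast
      rw [Real.mul_rpow (by norm_num) hR0.le, Real.rpow_sub_one hR0.ne']
      field_simp
    have t2 : ((2 * R : ℕ) : ℝ) ^ s * C2 * (C3 * Real.sqrt A * (1 / N)) ≤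
        R * (A ^ 2 * (N : ℝ) ^ (-(2 * θ))) / 12 := by
      rw [h2R]
      have h1 : (R : ℝ) ^ (s - 1) ≤ (2 * κ) ^ (s - 1) * (N : ℝ) ^ (1 - 3 * θ) := by
        calc (R : ℝ) ^ (s - 1) ≤ (2 * κ * (N : ℝ) ^ (2 : ℝ)) ^ (s - 1) :=
              Real.rpow_le_rpow hR0.le hR2N (by linarith)
          _ = _ := by
              rw [Real.mul_rpow (by positivity) (by positivity), ← Real.rpow_mul hN0.le, i1]
      have h2 : (N : ℝ) ^ (1 - 3 * θ) * (1 / N) ≤ (N : ℝ) ^ (-(2 * θ)) := by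
        have : (N : ℝ) ^ (1 - 3 * θ) * (1 / N) = (N : ℝ) ^ (-(3 * θ)) := by
          rw [show (1 : ℝ) - 3 * θ = 1 + -(3 * θ) by ring, Real.rpow_add hN0, Real.rpow_one]
          field_simp
        rw [this]
        exact Real.rpow_le_rpow_of_exponent_le hN1 (by linarith)
      calc 2 ^ s * (R * (R : ℝ) ^ (s - 1)) * C2 * (C3 * Real.sqrt A * (1 / N))
          = R * (c2 * Real.sqrt A * ((R : ℝ) ^ (s - 1) * (1 / N))) := by rw [hc2]; ring
        _ ≤ R * (c2 * A * (((2 * κ) ^ (s - 1) * (N : ℝ) ^ (1 - 3 * θ)) * (1 / N))) := by gcongr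
        _ = R * (c2 * (2 * κ) ^ (s - 1) * A * ((N : ℝ) ^ (1 - 3 * θ) * (1 / N))) := by ring
        _ ≤ R * (c2 * (2 * κ) ^ (s - 1) * A * (N : ℝ) ^ (-(2 * θ))) := by gcongr
        _ ≤ R * ((A / 12) * A * (N : ℝ) ^ (-(2 * θ))) := by
            gcongr
            linarith
        _ = _ := by ring
    have t3 : ((2 * R : ℕ) : ℝ) ^ s * C2 * (C3 * Real.sqrt A *
        (Real.sqrt (b * (R : ℝ) ^ (1 - s)) * (N : ℝ) ^ (-((1 + θ) / 2)))) ≤
        R * (A ^ 2 * (N : ℝ) ^ (-(2 * θ))) / 12 := by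
      rw [h2R, Real.sqrt_mul hb]
      have h0 : (R : ℝ) ^ (s - 1) * Real.sqrt ((R : ℝ) ^ (1 - s)) = (R : ℝ) ^ ((s - 1) / 2) := by
        rw [Real.sqrt_eq_rpow, ← Real.rpow_mul hR0.le, ← Real.rpow_add hR0]
        congr 1
        ring
      have h1 : (R : ℝ) ^ ((s - 1) / 2) ≤ (2 * κ) ^ ((s - 1) / 2) *
          (N : ℝ) ^ (2 * ((s - 1) / 2)) := by
        calc (R : ℝ) ^ ((s - 1) / 2) ≤ (2 * κ * (N : ℝ) ^ (2 : ℝ)) ^ ((s - 1) / 2) :=
              Real.rpow_le_rpow hR0.le hR2N (by linarith)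
          _ = _ := by
              rw [Real.mul_rpow (by positivity) (by positivity), ← Real.rpow_mul hN0.le]
      have h2 : (N : ℝ) ^ (2 * ((s - 1) / 2)) * (N : ℝ) ^ (-((1 + θ) / 2)) =
          (N : ℝ) ^ (-(2 * θ)) := by
        rw [← Real.rpow_add hN0, i2]
      have hsb : 0 ≤ Real.sqrt b := Real.sqrt_nonneg _
      calc 2 ^ s * (R * (R : ℝ) ^ (s - 1)) * C2 * (C3 * Real.sqrt A *
            (Real.sqrt b * Real.sqrt ((R : ℝ) ^ (1 - s)) * (N : ℝ) ^ (-((1 + θ) / 2))))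
          = R * (c2 * Real.sqrt b * Real.sqrt A *
            (((R : ℝ) ^ (s - 1) * Real.sqrt ((R : ℝ) ^ (1 - s))) *
            (N : ℝ) ^ (-((1 + θ) / 2)))) := by rw [hc2]; ring
        _ = R * (c2 * Real.sqrt b * Real.sqrt A * ((R : ℝ) ^ ((s - 1) / 2) *
            (N : ℝ) ^ (-((1 + θ) / 2)))) := by rw [h0]
        _ ≤ R * (c2 * Real.sqrt b * A * (((2 * κ) ^ ((s - 1) / 2) *
            (N : ℝ) ^ (2 * ((s - 1) / 2))) * (N : ℝ) ^ (-((1 + θ) / 2)))) := by gcongr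
        _ = R * (c2 * Real.sqrt b * (2 * κ) ^ ((s - 1) / 2) * A *
            ((N : ℝ) ^ (2 * ((s - 1) / 2)) * (N : ℝ) ^ (-((1 + θ) / 2)))) := by ring
        _ = R * (c2 * Real.sqrt b * (2 * κ) ^ ((s - 1) / 2) * A * (N : ℝ) ^ (-(2 * θ))) := by
            rw [h2]
        _ ≤ R * ((A / 12) * A * (N : ℝ) ^ (-(2 * θ))) := by
            gcongr
            linarith
        _ = _ := by ring
    rw [hrhs]
    calc A * ((3 * R : ℕ) : ℝ) ^ (1 - θ) / (1 - θ) +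
        ((2 * R : ℕ) : ℝ) ^ s * C2 * (C3 * Real.sqrt A *
          (1 / N + Real.sqrt (b * (R : ℝ) ^ (1 - s)) * (N : ℝ) ^ (-((1 + θ) / 2))))
        = A * ((3 * R : ℕ) : ℝ) ^ (1 - θ) / (1 - θ) +
          ((2 * R : ℕ) : ℝ) ^ s * C2 * (C3 * Real.sqrt A * (1 / N)) +
          ((2 * R : ℕ) : ℝ) ^ s * C2 * (C3 * Real.sqrt A *
            (Real.sqrt (b * (R : ℝ) ^ (1 - s)) * (N : ℝ) ^ (-((1 + θ) / 2)))) := by ring
      _ ≤ _ := by linarith

end

end Pool.Agent.TH489.PL
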