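import Pool.Agent.TH489.PL.XB
import Pool.Agent.W333.PC.Harris

set_option autoImplicit false

open MeasureTheory Set
open scoped ENNReal NNReal

/-!
# Harris inequality for large clusters, average connection probabilities
-/

namespace Pool.Agent.TH489.PL

open Pool.Agent.W783.PC

noncomputable section

variable {n : ℕ}

open scoped Classical in
/-- The cluster of `x` inside the finite region `R` has at least `N` vertices. -/
def BigR (x : V n) (N : ℕ) (R : Finset (V n)) : Set (Cfg n) :=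
  {ω | N ≤ (R.filter (fun y => (G (EdI 1) ω (R : Set (V n))).Reachable x y)).card}

lemma Rch_iff_exists {ω : Cfg n} {x y : V n} :
    Rch ω x y ↔ ∃ R : Finset (V n), (G (EdI 1) ω (R : Set (V n))).Reachable x y := by
  constructor
  · intro h; exact Pool.Agent.W402.PC.reach_univ h
  · rintro ⟨R, hR⟩; exact Pool.Agent.W402.PC.reach_mono (subset_univ _) hR

lemma BigR_mono (x : V n) (N : ℕ) {R R' : Finset (V n)} (h : R ⊆ R') :
    BigR x N R ⊆ BigR x N R' := by
  classical
  intro ω hω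
  refine le_trans (show N ≤ _ from hω) (Finset.card_le_card ?_)
  intro y hy
  rw [Finset.mem_filter] at hy ⊢
  exact ⟨h hy.1, Pool.Agent.W402.PC.reach_mono (by exact_mod_cast h) hy.2⟩

lemma BigR_union (x : V n) (N : ℕ) :
    {ω : Cfg n | (N : ℝ≥0∞) ≤ cN ω x} = ⋃ R : Finset (V n), BigR x N R := by
  classical
  ext ω
  rw [mem_iUnion]
  constructor
  · intro h
    have hT : ∃ T : Finset (V n), N ≤ T.card ∧ ∀ y ∈ T, Rch ω x y := by
      by_contra hno
      push Not at hno
      have hfin : {y : V n | Rch ω x y}.Finite := by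
        by_contra hinf
        obtain ⟨t, ht, hc⟩ := Set.Infinite.exists_subset_card_eq hinf N
        obtain ⟨y, hy, hy'⟩ := hno t hc.ge
        exact hy' (ht hy)
      have hc : cN ω x = hfin.toFinset.card := cN_fin fun y => by simp
      have h' : (N : ℝ≥0∞) ≤ hfin.toFinset.card := by rw [← hc]; exact h
      obtain ⟨y, hy, hy'⟩ := hno hfin.toFinset (by exact_mod_cast h')
      exact hy' (by simpa using hy)
    obtain ⟨T, hTc, hT⟩ := hT
    have : ∀ y, ∃ R : Finset (V n), y ∈ T → (G (EdI 1) ω (R : Set (V n))).Reachable x y := by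
      intro y
      by_cases hy : y ∈ T
      · obtain ⟨R, hR⟩ := Rch_iff_exists.1 (hT y hy)
        exact ⟨R, fun _ => hR⟩
      · exact ⟨∅, fun h => absurd h hy⟩
    choose R hR using this
    refine ⟨T ∪ T.biUnion R, ?_⟩
    refine hTc.trans (Finset.card_le_card ?_)
    intro y hy
    rw [Finset.mem_filter]
    refine ⟨Finset.mem_union_left _ hy, Pool.Agent.W402.PC.reach_mono ?_ (hR y hy)⟩
    intro v hv
    rw [Finset.mem_coe]
    exact Finset.mem_union_right _ (Finset.mem_biUnion.2 ⟨y, hy, hv⟩)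
  · rintro ⟨R, hR⟩
    show (N : ℝ≥0∞) ≤ cN ω x
    calc (N : ℝ≥0∞) ≤ ((R.filter (fun y => (G (EdI 1) ω (R : Set (V n))).Reachable x y)).card :
          ℝ≥0∞) := by exact_mod_cast hR
      _ = ∑ y ∈ R.filter (fun y => (G (EdI 1) ω (R : Set (V n))).Reachable x y), iR ω x y := by
          rw [Finset.sum_congr rfl (g := fun _ => (1 : ℝ≥0∞)) (fun y hy => iR_one
            (Rch_iff_exists.2 ⟨R, (Finset.mem_filter.1 hy).2⟩))]
          simp
      _ ≤ cN ω x := ENNReal.sum_le_tsum _

lemma BigR_dep (x : V n) (N : ℕ) (R : Finset (V n)) :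
    DepOn (BigR x N R) (Int' (R : Set (V n))) := by
  classical
  intro ω ω' h
  have key : ∀ y, (G (EdI 1) ω (R : Set (V n))).Reachable x y ↔
      (G (EdI 1) ω' (R : Set (V n))).Reachable x y := fun y =>
    Pool.Agent.W975.PC.s_reach_dep n (EdI 1) R x y ω ω' (fun c hc => h c hc.1)
  unfold BigR
  simp only [mem_ofPred_eq, key]

lemma BigR_inc (x : V n) (N : ℕ) (R : Finset (V n)) : Inc (BigR x N R) := by
  classical
  intro ω ω' h hω
  refine le_trans (show N ≤ _ from hω) (Finset.card_le_card ?_)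
  intro y hy
  rw [Finset.mem_filter] at hy ⊢
  refine ⟨hy.1, SimpleGraph.Reachable.mono ?_ hy.2⟩
  intro u v huv
  obtain ⟨h1, h2, h3, h4, h5, h6, h7⟩ := huv
  exact ⟨h1, h2, h3, h4, h _ h5, h _ h6, h _ h7⟩

/-- the coordinates inside a finite region -/
def IF (R : Finset (V n)) : Finset (Ix n) :=
  (Pool.Agent.W975.PC.s_int_fin n (R : Set (V n)) R.finite_toSet).toFinset

lemma coe_IF (R : Finset (V n)) : (IF R : Set (Ix n)) = Int' (R : Set (V n)) := by
  unfold IF; exact Set.Finite.coe_toFinset _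

lemma BigR_dep' (x : V n) (N : ℕ) (R : Finset (V n)) : DepOn (BigR x N R) (IF R : Set (Ix n)) := by
  rw [coe_IF]; exact BigR_dep x N R

lemma IF_mono {R R' : Finset (V n)} (h : R ⊆ R') : (IF R : Set (Ix n)) ⊆ IF R' := by
  rw [coe_IF, coe_IF]
  rintro c (⟨x, hx, rfl⟩ | ⟨e, he, rfl⟩)
  · exact Or.inl ⟨x, h hx, rfl⟩
  · exact Or.inr ⟨e, fun x hx => h (he x hx), rfl⟩

lemma meas_Big (x : V n) (N : ℕ) : MeasurableSet {ω : Cfg n | (N : ℝ≥0∞) ≤ cN ω x} :=
  measurableSet_le measurable_const (measurable_cN _)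

lemma big_iSup (r : Ix n → unitInterval) (x : V n) (N : ℕ) :
    pm r {ω | (N : ℝ≥0∞) ≤ cN ω x} = ⨆ R : Finset (V n), pm r (BigR x N R) := by
  classical
  rw [BigR_union, Directed.measure_iUnion]
  intro R R'
  exact ⟨R ∪ R', BigR_mono x N Finset.subset_union_left, BigR_mono x N Finset.subset_union_right⟩

/-- Positive correlation of large clusters. -/
lemma harris_big (r : Ix n → unitInterval) (x y : V n) (N : ℕ) :
    (pm r).real {ω | (N : ℝ≥0∞) ≤ cN ω x} * (pm r).real {ω | (N : ℝ≥0∞) ≤ cN ω y} ≤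
      (pm r).real {ω | (N : ℝ≥0∞) ≤ cN ω x ∧ (N : ℝ≥0∞) ≤ cN ω y} := by
  classical
  have key : pm r {ω | (N : ℝ≥0∞) ≤ cN ω x} * pm r {ω | (N : ℝ≥0∞) ≤ cN ω y} ≤
      pm r {ω | (N : ℝ≥0∞) ≤ cN ω x ∧ (N : ℝ≥0∞) ≤ cN ω y} := by
    rw [big_iSup r x N, big_iSup r y N, ENNReal.iSup_mul]
    refine iSup_le fun R => ?_
    rw [ENNReal.mul_iSup]
    refine iSup_le fun R' => ?_
    have h := Pool.Agent.W333.PC.s_harris (Ix n) r (IF (R ∪ R')) (BigR x N R) (BigR y N R')
      (fun ω ω' hω => BigR_dep' x N R ω ω' fun c hc => hω c (IF_mono Finset.subset_union_left hc))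
      (fun ω ω' hω => BigR_dep' y N R' ω ω' fun c hc => hω c (IF_mono Finset.subset_union_right hc))
      (BigR_inc x N R) (BigR_inc y N R')
    have h' : pm r (BigR x N R) * pm r (BigR y N R') ≤ pm r (BigR x N R ∩ BigR y N R') := by
      rw [← ofReal_measureReal (μ := pm r) (s := BigR x N R),
        ← ofReal_measureReal (μ := pm r) (s := BigR y N R'),
        ← ofReal_measureReal (μ := pm r) (s := BigR x N R ∩ BigR y N R'),
        ← ENNReal.ofReal_mul measureReal_nonneg]
      exact ENNReal.ofReal_le_ofReal h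
    refine h'.trans (measure_mono ?_)
    rintro ω ⟨h1, h2⟩
    have e1 : ω ∈ {ω : Cfg n | (N : ℝ≥0∞) ≤ cN ω x} := by
      rw [BigR_union]; exact mem_iUnion.2 ⟨R, h1⟩
    have e2 : ω ∈ {ω : Cfg n | (N : ℝ≥0∞) ≤ cN ω y} := by
      rw [BigR_union]; exact mem_iUnion.2 ⟨R', h2⟩
    exact ⟨e1, e2⟩
  unfold Measure.real
  rw [← ENNReal.toReal_mul]
  exact ENNReal.toReal_mono (measure_ne_top _ _) key

/-- translation invariance of the size of the clusters -/
lemma QQ_tr (a p : unitInterval) (β : NNReal) (s : ℝ) (N : ℕ) (x : V n) :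
    (pm (prob (n := n) a p β s 1)).real {ω | (N : ℝ≥0∞) ≤ cN ω x} =
      QQ (pm (prob (n := n) a p β s 1)) N := by
  unfold QQ Measure.real
  congr 1
  have h := (mp_tr (n := n) a p β s x).measure_preimage (meas_Big 0 N).nullMeasurableSet
  rw [← h]
  congr 1
  ext ω
  simp only [mem_preimage, mem_ofPred_eq, cN_tr, zero_add]

lemma Rch_inv (a p : unitInterval) (β : NNReal) (s : ℝ) (x y z : V n) :
    (pm (prob (n := n) a p β s 1)).real {ω | Rch ω (x + z) (y + z)} =
      (pm (prob (n := n) a p β s 1)).real {ω | Rch ω x y} := by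
  unfold Measure.real
  congr 1
  have h := (mp_tr (n := n) a p β s z).measure_preimage (meas_Rch x y).nullMeasurableSet
  rw [← h]
  congr 1
  ext ω
  simp only [mem_preimage, mem_ofPred_eq, Rch_tr]

/-- First step: two large clusters are connected or not. -/
lemma step1 (a p : unitInterval) (β : NNReal) (s : ℝ) (N k : ℕ) :
    QQ (pm (prob (n := n) a p β s 1)) N ^ 2 ≤
      (pm (prob (n := n) a p β s 1)).real {ω | Rch ω 0 (kv n k)} +
      (pm (prob (n := n) a p β s 1)).real (Dk n N k) := by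
  set μ := pm (prob (n := n) a p β s 1) with hμ
  have h := harris_big (prob (n := n) a p β s 1) 0 (kv n k) N
  rw [← hμ] at h
  rw [QQ_tr, QQ_tr, ← sq] at h
  refine h.trans (le_trans ?_ (measureReal_union_le _ _))
  refine measureReal_mono ?_ (measure_ne_top _ _)
  rintro ω ⟨h1, h2⟩
  by_cases hr : Rch ω 0 (kv n k)
  · exact Or.inl hr
  · exact Or.inr ⟨hr, h1, h2⟩

open scoped Classical in
/-- The number of vertices of `I` in the cluster of `x`. -/
def kk (I : Finset (V n)) (x : V n) (ω : Cfg n) : ℕ := (I.filter (fun y => Rch ω x y)).card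

lemma kk_le_cN (I : Finset (V n)) (x : V n) (ω : Cfg n) : (kk I x ω : ℝ≥0∞) ≤ cN ω x := by
  classical
  unfold kk
  calc ((I.filter (fun y => Rch ω x y)).card : ℝ≥0∞)
      = ∑ y ∈ I.filter (fun y => Rch ω x y), iR ω x y := by
        rw [Finset.sum_congr rfl (g := fun _ => (1 : ℝ≥0∞)) (fun y hy => iR_one
          (Finset.mem_filter.1 hy).2)]
        simp
    _ ≤ cN ω x := ENNReal.sum_le_tsum _

lemma kk_congr (I : Finset (V n)) {x y : V n} {ω : Cfg n} (h : Rch ω x y) :
    kk I x ω = kk I y ω := by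
  classical
  unfold kk
  congr 1
  apply Finset.filter_congr
  intro z _
  exact ⟨fun h' => h.symm.trans h', fun h' => h.trans h'⟩

lemma measurable_kk (I : Finset (V n)) (x : V n) : Measurable (kk I x) := by
  classical
  have : kk I x = fun ω : Cfg n => ∑ y ∈ I, if Rch ω x y then 1 else 0 := by
    funext ω
    unfold kk
    rw [Finset.card_filter]
  rw [this]
  exact Finset.measurable_sum _ fun y _ => Measurable.ite (meas_Rch x y) measurable_const
    measurable_const

/-- Expected number of points of `I` connected to `x`. -/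
lemma sum_Rch (r : Ix n → unitInterval) (I : Finset (V n)) (x : V n) :
    ∑ y ∈ I, (pm r).real {ω | Rch ω x y} =
      ∑ j ∈ Finset.Ioc 0 I.card, (pm r).real {ω | j ≤ kk I x ω} := by
  classical
  have e1 : ∀ y, (pm r).real {ω | Rch ω x y} =
      ∫ ω, ({ω | Rch ω x y}.indicator (fun _ => (1 : ℝ)) ω) ∂(pm r) := fun y => by
    rw [integral_indicator_const _ (meas_Rch x y)]; simp
  have mj : ∀ j : ℕ, MeasurableSet {ω : Cfg n | j ≤ kk I x ω} := fun j =>
    measurableSet_le measurable_const (measurable_kk I x)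
  have e2 : ∀ j : ℕ, (pm r).real {ω | j ≤ kk I x ω} =
      ∫ ω, ({ω : Cfg n | j ≤ kk I x ω}.indicator (fun _ => (1 : ℝ)) ω) ∂(pm r) := fun j => by
    rw [integral_indicator_const _ (mj j)]; simp
  rw [Finset.sum_congr rfl (fun y _ => e1 y), Finset.sum_congr rfl (fun j _ => e2 j),
    ← integral_finsetSum, ← integral_finsetSum]
  · congr 1
    funext ω
    have h1 : ∑ y ∈ I, ({ω | Rch ω x y}.indicator (fun _ => (1 : ℝ)) ω) = kk I x ω := by
      unfold kk
      rw [Finset.card_filter]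
      push_cast
      refine Finset.sum_congr rfl fun y _ => ?_
      by_cases h : Rch ω x y
      · rw [Set.indicator_of_mem (show ω ∈ {ω | Rch ω x y} from h), if_pos h]
      · rw [Set.indicator_of_notMem (show ω ∉ {ω | Rch ω x y} from h), if_neg h]
    have hle : kk I x ω ≤ I.card := by
      unfold kk; exact Finset.card_filter_le _ _
    have h2 : ∑ j ∈ Finset.Ioc 0 I.card,
        ({ω : Cfg n | j ≤ kk I x ω}.indicator (fun _ => (1 : ℝ)) ω) = kk I x ω := by
      have : ∀ j : ℕ, ({ω : Cfg n | j ≤ kk I x ω}.indicator (fun _ => (1 : ℝ)) ω) =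
          if j ≤ kk I x ω then 1 else 0 := by
        intro j
        by_cases h : j ≤ kk I x ω
        · rw [Set.indicator_of_mem (show ω ∈ {ω : Cfg n | j ≤ kk I x ω} from h), if_pos h]
        · rw [Set.indicator_of_notMem (show ω ∉ {ω : Cfg n | j ≤ kk I x ω} from h), if_neg h]
      rw [Finset.sum_congr rfl fun j _ => this j, ← Finset.sum_filter]
      have hf : (Finset.Ioc 0 I.card).filter (fun j => j ≤ kk I x ω) = Finset.Ioc 0 (kk I x ω) := by
        ext j
        rw [Finset.mem_filter, Finset.mem_Ioc, Finset.mem_Ioc]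
        omega
      rw [hf]
      simp
    rw [h1, h2]
  · intro j _
    exact (integrable_const 1).indicator (mj j)
  · intro y _
    exact (integrable_const 1).indicator (meas_Rch x y)

/-- `P(some cluster contains at least M points of I) ≤ |I| Q(M) / M`. -/
lemma max_bound (a p : unitInterval) (β : NNReal) (s : ℝ) (I : Finset (V n)) {M : ℕ} (hM : 1 ≤ M) :
    (pm (prob (n := n) a p β s 1)).real {ω | ∃ v ∈ I, M ≤ kk I v ω} ≤
      I.card * QQ (pm (prob (n := n) a p β s 1)) M / M := by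
  classical
  set μ := pm (prob (n := n) a p β s 1) with hμ
  have hMR : (0 : ℝ) < M := by exact_mod_cast hM
  have mj : ∀ v, MeasurableSet {ω : Cfg n | M ≤ kk I v ω} := fun v =>
    measurableSet_le measurable_const (measurable_kk I v)
  have mU : MeasurableSet {ω : Cfg n | ∃ v ∈ I, M ≤ kk I v ω} := by
    have : {ω : Cfg n | ∃ v ∈ I, M ≤ kk I v ω} = ⋃ v ∈ I, {ω : Cfg n | M ≤ kk I v ω} := by
      ext ω; simp
    rw [this]
    exact Finset.measurableSet_biUnion I fun v _ => mj v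
  rw [le_div_iff₀ hMR]
  have h1 : ∑ v ∈ I, μ.real {ω | M ≤ kk I v ω} ≤ I.card * QQ μ M := by
    rw [← nsmul_eq_mul, ← Finset.sum_const]
    refine Finset.sum_le_sum fun v _ => ?_
    rw [← QQ_tr a p β s M v]
    refine measureReal_mono ?_ (measure_ne_top _ _)
    intro ω hω
    have hω' : M ≤ kk I v ω := hω
    show (M : ℝ≥0∞) ≤ cN ω v
    exact le_trans (by exact_mod_cast hω') (kk_le_cN I v ω)
  refine le_trans ?_ h1
  have e0 : μ.real {ω | ∃ v ∈ I, M ≤ kk I v ω} * M =
      ∫ ω, ({ω : Cfg n | ∃ v ∈ I, M ≤ kk I v ω}.indicator (fun _ => (M : ℝ)) ω) ∂μ := by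
    rw [integral_indicator_const _ mU]; simp
  have e1 : ∀ v, μ.real {ω | M ≤ kk I v ω} =
      ∫ ω, ({ω : Cfg n | M ≤ kk I v ω}.indicator (fun _ => (1 : ℝ)) ω) ∂μ := fun v => by
    rw [integral_indicator_const _ (mj v)]; simp
  rw [e0, Finset.sum_congr rfl (fun v _ => e1 v), ← integral_finsetSum]
  · refine integral_mono ((integrable_const _).indicator mU)
      (integrable_finsetSum _ fun v _ => (integrable_const 1).indicator (mj v)) ?_
    intro ω
    show ({ω : Cfg n | ∃ v ∈ I, M ≤ kk I v ω}.indicator (fun _ => (M : ℝ)) ω) ≤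
      ∑ v ∈ I, ({ω : Cfg n | M ≤ kk I v ω}.indicator (fun _ => (1 : ℝ)) ω)
    have hnn : ∀ v, (0 : ℝ) ≤ ({ω : Cfg n | M ≤ kk I v ω}.indicator (fun _ => (1 : ℝ)) ω) :=
      fun v => Set.indicator_nonneg (fun _ _ => zero_le_one) _
    by_cases h : ∃ v ∈ I, M ≤ kk I v ω
    · rw [Set.indicator_of_mem (show ω ∈ {ω : Cfg n | ∃ v ∈ I, M ≤ kk I v ω} from h)]
      obtain ⟨v, hv, hk⟩ := h
      have hsub : I.filter (fun y => Rch ω v y) ⊆ I := Finset.filter_subset _ _
      refine le_trans ?_ (Finset.sum_le_sum_of_subset_of_nonneg hsub fun y _ _ => hnn y)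
      rw [Finset.sum_congr rfl (g := fun _ => (1 : ℝ))]
      · rw [Finset.sum_const, nsmul_eq_mul, mul_one]
        exact_mod_cast hk
      · intro y hy
        have hy' := (Finset.mem_filter.1 hy).2
        rw [Set.indicator_of_mem]
        show M ≤ kk I y ω
        rw [← kk_congr I hy']
        exact hk
    · rw [Set.indicator_of_notMem (show ω ∉ {ω : Cfg n | ∃ v ∈ I, M ≤ kk I v ω} from h)]
      exact Finset.sum_nonneg fun v _ => hnn v
  · intro v _
    exact (integrable_const 1).indicator (mj v)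

/-- Sums with a halving property. -/
lemma half_sum {f : ℕ → ℝ} (f0 : ∀ j, 0 ≤ f j) {M L : ℕ}
    (h : ∀ j, f (j + 2 * M) ≤ f j * (1 / 2)) :
    ∑ j ∈ Finset.Ioc 0 L, f j ≤ 2 * ∑ j ∈ Finset.Ioc 0 (2 * M), f j := by
  have h1 : ∑ j ∈ Finset.Ioc 0 L, f j ≤ ∑ j ∈ Finset.Ioc 0 (L + 2 * M), f j :=
    Finset.sum_le_sum_of_subset_of_nonneg (Finset.Ioc_subset_Ioc_right (by omega))
      fun j _ _ => f0 j
  have h2 : ∑ j ∈ Finset.Ioc 0 (L + 2 * M), f j = ∑ j ∈ Finset.Ioc 0 (2 * M), f j +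
      ∑ j ∈ Finset.Ioc (2 * M) (L + 2 * M), f j := by
    rw [Finset.sum_Ioc_consecutive f (by omega) (by omega)]
  have h3 : ∑ j ∈ Finset.Ioc (2 * M) (L + 2 * M), f j = ∑ j ∈ Finset.Ioc 0 L, f (j + 2 * M) := by
    have := Finset.sum_image (s := Finset.Ioc 0 L) (g := fun j => j + 2 * M) (f := f)
      (by intro a _ b _ h; simpa using h)
    rw [← this]
    congr 1
    ext j
    rw [Finset.mem_image, Finset.mem_Ioc]
    constructor
    · intro hj
      exact ⟨j - 2 * M, by rw [Finset.mem_Ioc]; omega, by omega⟩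
    · rintro ⟨i, hi, rfl⟩
      rw [Finset.mem_Ioc] at hi
      omega
  have h4 : ∑ j ∈ Finset.Ioc 0 L, f (j + 2 * M) ≤ ∑ j ∈ Finset.Ioc 0 L, f j * (1 / 2) :=
    Finset.sum_le_sum fun j _ => h j
  rw [← Finset.sum_mul] at h4
  linarith

/-- sums of powers -/
lemma sum_rpow_le {θ : ℝ} (h0 : 0 ≤ θ) (h1 : θ < 1) (L : ℕ) :
    ∑ j ∈ Finset.Ioc 0 L, (j : ℝ) ^ (-θ) ≤ (L : ℝ) ^ (1 - θ) / (1 - θ) := by
  have hpos : 0 < 1 - θ := by linarith
  induction L with
  | zero =>
    simp only [Finset.Ioc_self, Finset.sum_empty, Nat.cast_zero]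
    rw [Real.zero_rpow hpos.ne']
    simp
  | succ L ih =>
    rw [Finset.sum_Ioc_succ_top (by omega)]
    have key : (L : ℝ) ^ (1 - θ) / (1 - θ) + ((L + 1 : ℕ) : ℝ) ^ (-θ) ≤
        ((L + 1 : ℕ) : ℝ) ^ (1 - θ) / (1 - θ) := by
      have hL1 : (0 : ℝ) < (L + 1 : ℕ) := by exact_mod_cast Nat.succ_pos L
      set y : ℝ := ((L + 1 : ℕ) : ℝ) with hy
      have hLy : (L : ℝ) = y * (1 - 1 / y) := by
        have : y * (1 - 1 / y) = y - 1 := by field_simp
        rw [this, hy]
        push_cast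
        ring
      have hy1 : 1 ≤ y := by rw [hy]; exact_mod_cast Nat.succ_le_succ (Nat.zero_le L)
      have h2 : 0 ≤ 1 - 1 / y := by
        rw [sub_nonneg, div_le_one hL1]; exact hy1
      have hb : (1 - 1 / y) ^ (1 - θ) ≤ 1 + (1 - θ) * (-(1 / y)) := by
        have := _root_.rpow_one_add_le_one_add_mul_self (s := -(1 / y)) (p := 1 - θ) (by linarith)
          hpos.le (by linarith)
        rwa [← sub_eq_add_neg] at this
      rw [hLy, Real.mul_rpow hL1.le h2]
      have h3 : y ^ (1 - θ) = y * y ^ (-θ) := by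
        rw [show (1 : ℝ) - θ = 1 + -θ by ring, Real.rpow_add hL1, Real.rpow_one]
      rw [div_add' _ _ _ hpos.ne', div_le_div_iff_of_pos_right hpos]
      have h4 : 0 < y ^ (1 - θ) := Real.rpow_pos_of_pos hL1 _
      have h5 : y ^ (1 - θ) * (1 - 1 / y) ^ (1 - θ) ≤
          y ^ (1 - θ) * (1 + (1 - θ) * (-(1 / y))) := by gcongr
      have h6 : y ^ (1 - θ) * (1 + (1 - θ) * (-(1 / y))) + y ^ (-θ) * (1 - θ) = y ^ (1 - θ) := by
        rw [h3]
        field_simp
        ring
      linarith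
    linarith

end

end Pool.Agent.TH489.PL
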