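import Pool.Agent.TH489.PL.CT

set_option autoImplicit false

open MeasureTheory Set
open scoped ENNReal NNReal

/-!
# Finite susceptibility from `phi < 1`
-/

namespace Pool.Agent.TH489.PL

open Pool.Agent.W783.PC

noncomputable section

variable {n : ℕ}

lemma coe_map_add (S : Finset (V n)) (x : V n) :
    ((S.map (addRightEmbedding x) : Finset (V n)) : Set (V n)) = {v | v - x ∈ (S : Set (V n))} := by
  ext v
  simp only [Finset.coe_map, addRightEmbedding_apply, mem_image, mem_ofPred_eq]
  constructor
  · rintro ⟨y, hy, rfl⟩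
    simpa using hy
  · intro h
    exact ⟨v - x, h, by simp⟩

lemma reach_tr (S : Finset (V n)) (x y : V n) (ω : Cfg n) :
    (G (EdI 1) (tr x ω) (S : Set (V n))).Reachable 0 y ↔
      (G (EdI 1) ω ((S.map (addRightEmbedding x) : Finset (V n)) : Set (V n))).Reachable x (y + x) := by
  have h := Pool.Agent.W599.PC.Gr2.s_shift_G n (EdI 1) x
    (fun x' y => (Pool.Agent.W599.PC.Gr2.s_shift_E n 1 0 x (by simp) x' y).2) ω S 0 y
  rw [← coe_map_add, zero_add] at h
  exact h

/-- invariance of `phi` -/
lemma phi_tr (p : unitInterval) (β : NNReal) (s : ℝ) (S : Finset (V n)) (x : V n) :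
    phi p β s 1 (S.map (addRightEmbedding x)) x = phi p β s 1 S 0 := by
  classical
  unfold phi
  rw [Finset.sum_map]
  refine Finset.sum_congr rfl fun y _ => ?_
  congr 1
  · unfold Measure.real
    congr 1
    have h := (mp_tr (n := n) 1 p β s x).measure_preimage
      (s := {ω : Cfg n | (G (EdI 1) ω (S : Set (V n))).Reachable 0 y})
      (Pool.Agent.W975.PC.s_reach_meas n _ _ _ _).nullMeasurableSet
    rw [← h]
    congr 1
    ext ω
    simp only [mem_preimage, mem_ofPred_eq, addRightEmbedding_apply]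
    exact (reach_tr S x y ω).symm
  · rw [← (Equiv.addRight x).tsum_eq]
    refine tsum_congr fun z => ?_
    have h1 : (Equiv.addRight x) z ∈ S.map (addRightEmbedding x) ↔ z ∈ S := by
      rw [Finset.mem_map]
      constructor
      · rintro ⟨w, hw, h⟩
        have : w = z := by simpa using h
        rwa [← this]
      · intro h
        exact ⟨z, h, rfl⟩
    refine if_congr h1 rfl ?_
    have h2 := Pool.Agent.W599.PC.Gr2.prob_shift (n := n) 1 p β s 1 x (by simp) (Sum.inr s(y, z))
    have h3 : sh x (Sum.inr s(y, z) : Ix n) = Sum.inr s(y + x, z + x) := rfl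
    rw [h3] at h2
    rw [← h2]
    rfl

/-- Finite susceptibility. -/
lemma chi_fin (p : unitInterval) (β : NNReal) {s : ℝ} (hs : 1 < s) (S : Finset (V n)) (h0 : 0 ∈ S)
    (hphi : phi p β s 1 S 0 < 1) :
    ∃ K : ℝ, 0 ≤ K ∧ ∫⁻ ω, cN ω 0 ∂(pm (prob (n := n) 1 p β s 1)) ≤ ENNReal.ofReal K := by
  classical
  set r : Ix n → unitInterval := prob 1 p β s 1 with hr
  set ρ := phi p β s 1 S 0 with hρ
  have hphi' : ∀ x : V n, phi p β s 1 (S.map (addRightEmbedding x)) x ≤ ρ := fun x =>
    (phi_tr p β s S x).le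
  set K : ℝ := S.card / (1 - ρ) with hK
  refine ⟨K, div_nonneg (Nat.cast_nonneg _) (by linarith), ?_⟩
  have hfin : ∀ F : Finset (V n), ∑ w ∈ F,
      pm r {ω | (G (EdI 1) (Pool.Agent.W402.PC.op ω) univ).Reachable 0 w} ≤ ENNReal.ofReal K := by
    intro F
    have e1 : ∀ w, pm r {ω | (G (EdI 1) (Pool.Agent.W402.PC.op ω) univ).Reachable 0 w} =
        ⨆ R : Finset (V n), pm r {ω | (G (EdI 1) (Pool.Agent.W402.PC.op ω) (R : Set (V n))).Reachable 0 w} := by
      intro w
      rw [← Directed.measure_iUnion]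
      · congr 1
        ext ω
        simp only [mem_iUnion]
        constructor
        · intro h
          exact Pool.Agent.W402.PC.reach_univ h
        · rintro ⟨R, hR⟩
          exact Pool.Agent.W402.PC.reach_mono (subset_univ _) hR
      · intro R R'
        refine ⟨R ∪ R', ?_, ?_⟩
        · intro ω hω
          exact Pool.Agent.W402.PC.reach_mono (by simp) hω
        · intro ω hω
          exact Pool.Agent.W402.PC.reach_mono (by simp) hω
    simp_rw [e1]
    rw [ENNReal.finsetSum_iSup_of_monotone]
    · apply iSup_le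
      intro R
      set R' : Finset (V n) := R ∪ F ∪ {0} with hR'
      calc ∑ w ∈ F, pm r {ω | (G (EdI 1) (Pool.Agent.W402.PC.op ω) (R : Set (V n))).Reachable 0 w}
          ≤ ∑ w ∈ R', pm r {ω | (G (EdI 1) (Pool.Agent.W402.PC.op ω) (R' : Set (V n))).Reachable 0 w} := by
            refine le_trans (Finset.sum_le_sum (g := fun w =>
              pm r {ω | (G (EdI 1) (Pool.Agent.W402.PC.op ω) (R' : Set (V n))).Reachable 0 w}) ?_) ?_
            · intro w _
              apply measure_mono
              intro ω hω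
              refine Pool.Agent.W402.PC.reach_mono ?_ hω
              rw [hR']
              intro v hv
              simp only [Finset.coe_union, mem_union]
              exact Or.inl (Or.inl hv)
            · apply Finset.sum_le_sum_of_subset
              rw [hR']
              intro v hv
              simp [hv]
        _ = ENNReal.ofReal (∑ w ∈ R', Pool.Agent.W402.PC.Pr r (EdI 1) (R' : Set (V n)) 0 w) := by
            rw [ENNReal.ofReal_sum_of_nonneg (fun w _ => Pool.Agent.W402.PC.Pr_nonneg _ _ _ _ _)]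
            apply Finset.sum_congr rfl
            intro w _
            rw [Pool.Agent.W402.PC.Pr, ofReal_measureReal]
        _ ≤ ENNReal.ofReal K := by
            apply ENNReal.ofReal_le_ofReal
            exact Pool.Agent.W402.PC.region_bound Pool.Agent.W45.PC.s_indep
              Pool.Agent.W45.PC.s_depmeas p β s hs S ρ h0 hphi hphi' R' 0 (by simp [hR'])
    · intro w R R' hRR'
      apply measure_mono
      intro ω hω
      exact Pool.Agent.W402.PC.reach_mono (by exact_mod_cast hRR') hω
  have hop : ∀ w, pm r {ω | (G (EdI 1) (Pool.Agent.W402.PC.op ω) univ).Reachable 0 w} =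
      pm r {ω | Rch ω 0 w} := fun w => by
    rw [Pool.Agent.W402.PC.pm_op r (fun v => rfl) {ω | Rch ω 0 w}]
    rfl
  unfold cN
  rw [lintegral_tsum (f := fun y ω => iR ω 0 y) (fun y => (measurable_iR 0 y).aemeasurable)]
  have hi : ∀ y, ∫⁻ ω, iR ω 0 y ∂(pm r) = pm r {ω | Rch ω 0 y} := by
    intro y
    rw [← lintegral_indicator_one (meas_Rch 0 y)]
    refine lintegral_congr fun ω => ?_
    by_cases h : Rch ω 0 y
    · rw [iR_one h, Set.indicator_of_mem (show ω ∈ {ω | Rch ω 0 y} from h)]; rfl
    · rw [iR_zero h, Set.indicator_of_notMem (show ω ∉ {ω | Rch ω 0 y} from h)]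
  rw [tsum_congr hi, ENNReal.tsum_eq_iSup_sum]
  refine iSup_le fun F => ?_
  rw [Finset.sum_congr rfl (fun w _ => (hop w).symm)]
  exact hfin F

/-- Consequences of finite susceptibility. -/
lemma chi_tail {a p : unitInterval} {β : NNReal} {s : ℝ} {K : ℝ} (hK : 0 ≤ K)
    (h : ∫⁻ ω, cN ω 0 ∂(pm (prob (n := n) a p β s 1)) ≤ ENNReal.ofReal K) :
    Fin0 (pm (prob (n := n) a p β s 1)) ∧
    ∀ N : ℕ, 1 ≤ N → QQ (pm (prob (n := n) a p β s 1)) N ≤ K / N := by
  set μ := pm (prob (n := n) a p β s 1) with hμ
  constructor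
  · unfold Fin0
    rw [ae_all_iff]
    intro x
    have h1 : ∀ᵐ ω ∂μ, cN ω (0 : V n) ≠ ∞ := by
      have := ae_lt_top (measurable_cN (0 : V n)) (ne_top_of_le_ne_top ENNReal.ofReal_ne_top h)
      filter_upwards [this] with ω hω using hω.ne
    have h2 := (mp_tr (n := n) a p β s x).quasiMeasurePreserving.ae h1
    filter_upwards [h2] with ω hω
    rwa [cN_tr, zero_add] at hω
  · intro N hN
    have hN0 : (0 : ℝ) < N := by exact_mod_cast hN
    have h1 := mul_meas_ge_le_lintegral₀ (μ := μ) (measurable_cN (0 : V n)).aemeasurable (N : ℝ≥0∞)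
    have h2 := h1.trans h
    unfold QQ Measure.real
    rw [le_div_iff₀ hN0, mul_comm]
    have h3 := ENNReal.toReal_mono ENNReal.ofReal_ne_top h2
    rw [ENNReal.toReal_mul, ENNReal.toReal_natCast, ENNReal.toReal_ofReal hK] at h3
    exact h3

end

end Pool.Agent.TH489.PL
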