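import Pool.Agent.TH489.PL.Chi
import Pool.Agent.W376.PC.SimonS

set_option autoImplicit false

open MeasureTheory Set
open scoped ENNReal NNReal

/-!
# Finite susceptibility from `phiS < 1`, site percolation
-/

namespace Pool.Agent.TH489.PL

open Pool.Agent.W783.PC
open Pool.Agent.W376.PC.SimonS (QE Q Q_nonneg region_bound)

noncomputable section

variable {n : ℕ}

/-- invariance of `phiS` -/
lemma phiS_tr (a : unitInterval) (β : NNReal) (s : ℝ) (S : Finset (V n)) (x : V n) :
    phiS a β s 1 (S.map (addRightEmbedding x)) x = phiS a β s 1 S 0 := by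
  classical
  unfold phiS
  rw [Finset.sum_map]
  refine Finset.sum_congr rfl fun y _ => ?_
  congr 1
  · unfold Measure.real
    congr 1
    have hm : MeasurableSet {ω : Cfg n | ω (Sum.inl 0) = true ∧
        (G (EdI 1) ω (S : Set (V n))).Reachable 0 y} :=
      (Pool.Agent.W424.PC.meas_coord _ true).inter (Pool.Agent.W975.PC.s_reach_meas n _ _ _ _)
    have h := (mp_tr (n := n) a 1 β s x).measure_preimage hm.nullMeasurableSet
    rw [← h]
    congr 1
    ext ω
    simp only [mem_preimage, mem_ofPred_eq, addRightEmbedding_apply]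
    have e : tr x ω (Sum.inl 0) = ω (Sum.inl x) := by
      show ω (Sum.inl (0 + x)) = _
      rw [zero_add]
    rw [e]
    exact and_congr Iff.rfl (reach_tr S x y ω).symm
  · rw [← (Equiv.addRight x).tsum_eq]
    refine tsum_congr fun z => ?_
    have h1 : (Equiv.addRight x) z ∈ S.map (addRightEmbedding x) ↔ z ∈ S := by
      rw [Finset.mem_map]
      constructor
      · rintro ⟨w, hw, h⟩
        have : w = z := by simpa using h
        rwa [← this]
      · intro h
        exact ⟨z, h, rfl⟩
    refine if_congr h1 rfl ?_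
    have h2 := Pool.Agent.W599.PC.Gr2.prob_shift (n := n) a 1 β s 1 x (by simp) (Sum.inr s(y, z))
    have h3 : sh x (Sum.inr s(y, z) : Ix n) = Sum.inr s(y + x, z + x) := rfl
    rw [h3] at h2
    rw [← h2]
    rfl

/-- Finite susceptibility, site percolation. -/
lemma chi_finS (a : unitInterval) (β : NNReal) {s : ℝ} (hs : 1 < s) (S : Finset (V n)) (h0 : 0 ∈ S)
    (hphi : phiS a β s 1 S 0 < 1) :
    ∃ K : ℝ, 0 ≤ K ∧ ∫⁻ ω, cN ω 0 ∂(pm (prob (n := n) a 1 β s 1)) ≤ ENNReal.ofReal K := by
  classical
  set r : Ix n → unitInterval := prob a 1 β s 1 with hr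
  set ρ := phiS a β s 1 S 0 with hρ
  have hphi' : ∀ x : V n, phiS a β s 1 (S.map (addRightEmbedding x)) x ≤ ρ := fun x =>
    (phiS_tr a β s S x).le
  set K : ℝ := S.card / (1 - ρ) with hK
  have hK0 : 0 ≤ K := div_nonneg (Nat.cast_nonneg _) (by linarith)
  refine ⟨K + 1, by linarith, ?_⟩
  have hfin : ∀ F : Finset (V n), ∑ w ∈ F,
      pm r (QE (EdI 1) univ 0 w) ≤ ENNReal.ofReal K := by
    intro F
    have e1 : ∀ w, pm r (QE (EdI 1) univ 0 w) =
        ⨆ R : Finset (V n), pm r (QE (EdI 1) (R : Set (V n)) 0 w) := by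
      intro w
      rw [← Directed.measure_iUnion]
      · congr 1
        ext ω
        simp only [mem_iUnion]
        constructor
        · intro h
          obtain ⟨R, hR⟩ := Pool.Agent.W402.PC.reach_univ h.2
          exact ⟨R, h.1, hR⟩
        · rintro ⟨R, hR⟩
          exact ⟨hR.1, Pool.Agent.W402.PC.reach_mono (subset_univ _) hR.2⟩
      · intro R R'
        refine ⟨R ∪ R', ?_, ?_⟩
        · intro ω hω
          exact ⟨hω.1, Pool.Agent.W402.PC.reach_mono (by simp) hω.2⟩
        · intro ω hω
          exact ⟨hω.1, Pool.Agent.W402.PC.reach_mono (by simp) hω.2⟩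
    simp_rw [e1]
    rw [ENNReal.finsetSum_iSup_of_monotone]
    · apply iSup_le
      intro R
      set R' : Finset (V n) := R ∪ F ∪ {0} with hR'
      calc ∑ w ∈ F, pm r (QE (EdI 1) (R : Set (V n)) 0 w)
          ≤ ∑ w ∈ R', pm r (QE (EdI 1) (R' : Set (V n)) 0 w) := by
            refine le_trans (Finset.sum_le_sum (g := fun w =>
              pm r (QE (EdI 1) (R' : Set (V n)) 0 w)) ?_) ?_
            · intro w _
              apply measure_mono
              intro ω hω
              refine ⟨hω.1, Pool.Agent.W402.PC.reach_mono ?_ hω.2⟩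
              rw [hR']
              intro v hv
              simp only [Finset.coe_union, mem_union]
              exact Or.inl (Or.inl hv)
            · apply Finset.sum_le_sum_of_subset
              rw [hR']
              intro v hv
              simp [hv]
        _ = ENNReal.ofReal (∑ w ∈ R', Q r (EdI 1) (R' : Set (V n)) 0 w) := by
            rw [ENNReal.ofReal_sum_of_nonneg (fun w _ => Q_nonneg _ _ _ _ _)]
            apply Finset.sum_congr rfl
            intro w _
            rw [Q, ofReal_measureReal]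
        _ ≤ ENNReal.ofReal K := by
            apply ENNReal.ofReal_le_ofReal
            exact region_bound Pool.Agent.W45.PC.s_indep Pool.Agent.W45.PC.s_depmeas
              Pool.Agent.W333.PC.s_harris a β s hs S ρ h0 hphi hphi' R' 0 (by simp [hR'])
    · intro w R R' hRR'
      apply measure_mono
      intro ω hω
      exact ⟨hω.1, Pool.Agent.W402.PC.reach_mono (by exact_mod_cast hRR') hω.2⟩
  unfold cN
  rw [lintegral_tsum (f := fun y ω => iR ω 0 y) (fun y => (measurable_iR 0 y).aemeasurable)]
  have hi : ∀ y, ∫⁻ ω, iR ω 0 y ∂(pm r) = pm r {ω | Rch ω 0 y} := by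
    intro y
    rw [← lintegral_indicator_one (meas_Rch 0 y)]
    refine lintegral_congr fun ω => ?_
    by_cases h : Rch ω 0 y
    · rw [iR_one h, Set.indicator_of_mem (show ω ∈ {ω | Rch ω 0 y} from h)]; rfl
    · rw [iR_zero h, Set.indicator_of_notMem (show ω ∉ {ω | Rch ω 0 y} from h)]
  have hle : ∀ y : V n, ∫⁻ ω, iR ω 0 y ∂(pm r) ≤
      pm r (QE (EdI 1) univ 0 y) + (if y = 0 then 1 else 0) := by
    intro y
    rw [hi]
    by_cases hy : y = 0
    · rw [if_pos hy]
      exact le_add_left prob_le_one
    · rw [if_neg hy, add_zero]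
      refine measure_mono fun ω hω => ?_
      refine ⟨?_, hω⟩
      by_contra hx
      have hx' : ω (Sum.inl 0) = false := by simpa using hx
      exact hy ((Rch_closed hx').1 hω)
  refine (ENNReal.tsum_le_tsum hle).trans ?_
  rw [ENNReal.tsum_add, ENNReal.ofReal_add hK0 zero_le_one, tsum_ite_eq, ENNReal.ofReal_one]
  gcongr
  rw [ENNReal.tsum_eq_iSup_sum]
  exact iSup_le hfin

end

end Pool.Agent.TH489.PL
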