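import Pool.Agent.W783.Perc.Stmts

set_option autoImplicit false

open MeasureTheory Set

/-!
# Project PL: power law for critical clusters

Percolation on `Z^(n+1)` with weak long-range bonds parallel to the first axis (all lines, `m = 1`):
definitions and statements of the parts.
-/

namespace Pool.Agent.TH489.PL

open Pool.Agent.W783.PC

noncomputable section

/-- The parameter `1 - (1 - p) ^ t`. -/
def pt (p : unitInterval) (t : NNReal) : unitInterval :=
  ⟨1 - (1 - (p : ℝ)) ^ (t : ℝ), by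
    have h1 : 0 ≤ 1 - (p : ℝ) := sub_nonneg.2 p.2.2
    have h2 : 1 - (p : ℝ) ≤ 1 := by linarith [p.2.1]
    constructor
    · rw [sub_nonneg]; exact Real.rpow_le_one h1 h2 t.2
    · linarith [Real.rpow_nonneg h1 (t : ℝ)]⟩

/-- The vertex `(k, 0)`. -/
def kv (n k : ℕ) : V n := ((k : ℤ), 0)

/-- The bond from `z` to `z + (k, 0)`. -/
def bd {n : ℕ} (k : ℕ) (z : V n) : Ix n := Sum.inr s(z, z + kv n k)

open scoped Classical in
/-- The left end points of the bonds of length `k` touching `B`. -/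
def nb {n : ℕ} (k : ℕ) (B : Finset (V n)) : Finset (V n) := B ∪ B.image (fun z => z - kv n k)

/-- Centred sum of the long bonds with lengths in `(R, 2R]` touching `B`. -/
def SS {n : ℕ} (β : NNReal) (s : ℝ) (R : ℕ) (B : Finset (V n)) (ω : Cfg n) : ℝ :=
  ∑ k ∈ Finset.Ioc R (2 * R), ∑ z ∈ nb k B, ((lrp β s k : ℝ) - if ω (bd k z) = true then 1 else 0)

/-- Expected number of open bonds with lengths in `(R, 2R]` to the right of a vertex. -/
def sg (β : NNReal) (s : ℝ) (R : ℕ) : ℝ := ∑ k ∈ Finset.Ioc R (2 * R), (lrp β s k : ℝ)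

/-- DCT: sharpness along rays. If there is no percolation at `(p, β)` then `phi < 1` for some finite
set at the parameters `(1 - (1 - p) ^ t, t β)`, `t < 1`. -/
def S_dctL : Prop := ∀ (n : ℕ) (s : ℝ) (p : unitInterval) (β t : NNReal), 1 < s → t < 1 →
  (p : ℝ) < 1 → (pm (prob (n := n) 1 p β s 1)).real (Perc (EdI 1) 0) = 0 →
  ∃ S : Finset (V n), 0 ∈ S ∧ phi (pt p t) (t * β) s 1 S 0 < 1

open scoped Classical in
/-- BK: universal tightness. -/
def S_bkT : Prop := ∀ (n : ℕ) (r : Ix n → unitInterval), (∀ v, r (Sum.inl v) = 1) →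
  ∀ (E : Set (Sym2 (V n))) (I : Finset (V n)) (x : V n) (M k : ℕ), 1 ≤ M →
  (pm r).real {ω | k + 2 * M ≤ (I.filter (fun y => (G E ω univ).Reachable x y)).card} ≤
    (pm r).real {ω | k ≤ (I.filter (fun y => (G E ω univ).Reachable x y)).card} *
    (pm r).real {ω | ∃ v ∈ I, M ≤ (I.filter (fun y => (G E ω univ).Reachable v y)).card}

/-- TILT: second moments of `SS` on small clusters. -/
def S_tilt : Prop := ∀ (n : ℕ) (a p : unitInterval) (β : NNReal) (s : ℝ) (R m : ℕ), 1 ≤ R →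
  ∀ 𝓑 : Finset (Finset (V n)), (∀ B ∈ 𝓑, B.card ≤ m) →
  ∑ B ∈ 𝓑, ∫ ω in {ω | cl (EdI 1) ω univ (0 : V n) = (B : Set (V n))}, (SS β s R B ω) ^ 2
    ∂(pm (prob (n := n) a p β s 1)) ≤ 15 * (1 + m * sg β s R)

end

end Pool.Agent.TH489.PL
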