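import Pool.Agent.TH489.PL.Defs
import Pool.Agent.W783.Perc.Stmts2

set_option autoImplicit false

open MeasureTheory Set

/-!
# Project PL, site percolation: statement of sharpness
-/

namespace Pool.Agent.TH489.PL

open Pool.Agent.W783.PC

noncomputable section

/-- The parameter `min (t a) 1`. -/
def ta (a : unitInterval) (t : NNReal) : unitInterval :=
  ⟨min ((t : ℝ) * a) 1, le_min (mul_nonneg t.2 a.2.1) zero_le_one, min_le_right _ _⟩

/-- DCT for site percolation with long bonds: sharpness along rays. If there is no percolation at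
`(a, β)` (all nearest-neighbour bonds open) then `phiS < 1` for some finite set at the parameters
`(t a, t β)`, `t < 1`. -/
def S_dctSL : Prop := ∀ (n : ℕ) (s : ℝ) (a : unitInterval) (β t : NNReal), 1 < s → t < 1 →
  (pm (prob (n := n) a 1 β s 1)).real (Perc (EdI 1) 0) = 0 →
  ∃ S : Finset (V n), 0 ∈ S ∧ phiS (ta a t) (t * β) s 1 S 0 < 1

end

end Pool.Agent.TH489.PL
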