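import Pool.Agent.TH489.PL.MainQ
import Pool.Agent.TH263.PL1908
import Pool.Agent.TH914.PL1909
import Pool.Agent.W783.Perc.Fin

set_option autoImplicit false

open MeasureTheory Set Filter
open scoped ENNReal NNReal Topology

/-!
# Power law for the critical cluster, bond percolation: final form
-/

namespace Pool.Agent.TH489.PL

open Pool.Agent.W783.PC

noncomputable section

variable {n : ℕ}

lemma cN_encard (ω : Cfg n) (x : V n) (N : ℕ) :
    (N : ℝ≥0∞) ≤ cN ω x ↔ (N : ℕ∞) ≤ (cl (EdI 1) ω univ x).encard := by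
  classical
  constructor
  · intro h
    have h' : ω ∈ {ω : Cfg n | (N : ℝ≥0∞) ≤ cN ω x} := h
    rw [BigR_union, mem_iUnion] at h'
    obtain ⟨R, hR⟩ := h'
    have h1 : ((R.filter (fun y => (G (EdI 1) ω (R : Set (V n))).Reachable x y) : Finset (V n)) :
        Set (V n)) ⊆ cl (EdI 1) ω univ x := by
      intro y hy
      rw [Finset.mem_coe, Finset.mem_filter] at hy
      exact Rch_iff_exists.2 ⟨R, hy.2⟩
    refine le_trans ?_ (Set.encard_le_encard h1)
    rw [Set.encard_coe_eq_coe_finsetCard]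
    exact_mod_cast hR
  · intro h
    obtain ⟨t, ht, hc⟩ := Set.exists_subset_encard_eq h
    have hfin : t.Finite := by
      rw [← Set.encard_lt_top_iff, hc]
      exact WithTop.coe_lt_top N
    have hcard : hfin.toFinset.card = N := by
      have h1 : ((hfin.toFinset.card : ℕ) : ℕ∞) = N := by
        rw [← Set.encard_coe_eq_coe_finsetCard, Set.Finite.coe_toFinset, hc]
      exact_mod_cast h1
    calc (N : ℝ≥0∞) = ∑ y ∈ hfin.toFinset, iR ω x y := by
          rw [Finset.sum_congr rfl (g := fun _ => (1 : ℝ≥0∞)) (fun y hy => iR_one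
            (ht (by simpa using hy)))]
          simp [hcard]
      _ ≤ cN ω x := ENNReal.sum_le_tsum _

/-- Bond percolation: the size of the cluster of the origin has a power law tail at every parameter
without percolation, the critical point included. -/
theorem bond_final {s x : ℝ} (hs1 : 1 < s) (hs2 : s < 2) (hx : x < (2 - s) / (1 + s))
    {β : NNReal} (hβ : 0 < β) :
    ∃ C : ℝ, ∀ n : ℕ, 1 ≤ n → ∀ p : unitInterval, theta n 1 p β s 1 = 0 →
      ∀ N : ℕ, 1 ≤ N → (pm (prob (n := n) 1 p β s 1)).real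
        {ω | (N : ℕ∞) ≤ (cl (EdI 1) ω univ (0 : V n)).encard} ≤ C * (N : ℝ) ^ (-x) := by
  have hpos : 0 < (2 - s) / (1 + s) := div_pos (by linarith) (by linarith)
  obtain ⟨y, hy0, hy1⟩ := exists_between (max_lt hx hpos)
  have hy0' : 0 < y := (le_max_right _ _).trans_lt hy0
  have hyx : x < y := (le_max_left _ _).trans_lt hy0
  obtain ⟨C, hC⟩ := bond_tail_q Pool.Agent.TH263.PL.s_dctL Pool.Agent.TH914.PLB.s_bkT hs1 hy0' hy1 hβ
  refine ⟨C, fun n hn p hp N hN => ?_⟩
  have hp1 : (p : ℝ) < 1 := lt_of_le_of_lt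
    (le_crit (f := fun p => theta n 1 p β s 1) hp) (pcB_lt_one hn 1 s β)
  have h := hC n p hp1 hp N hN
  have hC0 : 0 ≤ C := by
    have h1 := hC n p hp1 hp 1 le_rfl
    rw [Nat.cast_one, Real.one_rpow, mul_one] at h1
    exact le_trans measureReal_nonneg h1
  have hN1 : (1 : ℝ) ≤ N := by exact_mod_cast hN
  have e : {ω : Cfg n | (N : ℕ∞) ≤ (cl (EdI 1) ω univ (0 : V n)).encard} =
      {ω | (N : ℝ≥0∞) ≤ cN ω 0} := by
    ext ω; exact (cN_encard ω 0 N).symm
  rw [e]
  refine h.trans (mul_le_mul_of_nonneg_left ?_ hC0)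
  exact Real.rpow_le_rpow_of_exponent_le hN1 (by linarith)

end

end Pool.Agent.TH489.PL
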