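import Pool.Agent.TH489.PL.Defs
import Pool.Agent.W400.PC.PT
import Pool.Agent.W45.PC.PT1
import Pool.Agent.W975.PC.GR1
import Pool.Agent.W599.PC.Gr2
import Pool.Agent.W424.PC.Russo
import Pool.Agent.W402.PC.Simon

set_option autoImplicit false

open MeasureTheory Set
open scoped ENNReal NNReal

/-!
# Mass transport for the long-range model
-/

namespace Pool.Agent.TH489.PL

open Pool.Agent.W783.PC
open Pool.Agent.W424.PC (upd upd_self upd_ne upd_of measurable_upd pm_split)

noncomputable section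

variable {n : ℕ}

/-- Connection in the full model. -/
def Rch (ω : Cfg n) (x y : V n) : Prop := (G (EdI 1) ω univ).Reachable x y

lemma Rch_refl (ω : Cfg n) (x : V n) : Rch ω x x := SimpleGraph.Reachable.refl _
lemma Rch.symm {ω : Cfg n} {x y : V n} (h : Rch ω x y) : Rch ω y x := SimpleGraph.Reachable.symm h
lemma Rch.trans {ω : Cfg n} {x y z : V n} (h : Rch ω x y) (h' : Rch ω y z) : Rch ω x z :=
  SimpleGraph.Reachable.trans h h'

lemma meas_Rch (x y : V n) : MeasurableSet {ω : Cfg n | Rch ω x y} :=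
  Pool.Agent.W975.PC.s_reach_meas n _ _ _ _

/-- Translation of configurations. -/
def tr (z : V n) (ω : Cfg n) : Cfg n := fun c => ω (sh z c)

lemma Rch_tr (z : V n) (ω : Cfg n) (x y : V n) : Rch (tr z ω) x y ↔ Rch ω (x + z) (y + z) := by
  have h := Pool.Agent.W599.PC.Gr2.s_shift_G n (EdI 1) z
    (fun x y => (Pool.Agent.W599.PC.Gr2.s_shift_E n 1 0 z (by simp) x y).2) ω univ x y
  have e : {v : V n | v - z ∈ (univ : Set (V n))} = univ := by ext; simp
  rw [e] at h
  exact h

lemma measurable_tr (z : V n) : Measurable (tr z : Cfg n → Cfg n) := by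
  rw [measurable_pi_iff]
  intro c
  exact measurable_pi_apply _

lemma mp_tr (a p : unitInterval) (β : NNReal) (s : ℝ) (z : V n) :
    MeasurePreserving (tr z) (pm (prob (n := n) a p β s 1)) (pm (prob (n := n) a p β s 1)) := by
  refine ⟨measurable_tr z, ?_⟩
  ext A hA
  rw [Measure.map_apply (measurable_tr z) hA]
  exact Pool.Agent.W599.PC.Gr2.s_shift_pm Pool.Agent.W400.PC.s_equiv n 1 a p β s z (by simp) A hA

open scoped Classical in
/-- Indicator of a connection. -/
def iR (ω : Cfg n) (x y : V n) : ℝ≥0∞ := if Rch ω x y then 1 else 0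

open scoped Classical in
lemma iR_congr {ω ω' : Cfg n} {x y x' y' : V n} (h : Rch ω x y ↔ Rch ω' x' y') :
    iR ω x y = iR ω' x' y' := if_congr h rfl rfl

lemma measurable_iR (x y : V n) : Measurable (fun ω : Cfg n => iR ω x y) := by
  unfold iR
  exact Measurable.ite (meas_Rch x y) measurable_const measurable_const

/-- Size of the cluster. -/
def cN (ω : Cfg n) (x : V n) : ℝ≥0∞ := ∑' y, iR ω x y

lemma measurable_cN (x : V n) : Measurable (fun ω : Cfg n => cN ω x) :=
  Measurable.tsum (fun y => measurable_iR x y)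

lemma cN_tr (z : V n) (ω : Cfg n) (x : V n) : cN (tr z ω) x = cN ω (x + z) := by
  unfold cN
  rw [← (Equiv.addRight z).tsum_eq (fun y => iR ω (x + z) y)]
  refine tsum_congr fun y => ?_
  rw [Equiv.coe_addRight]
  exact iR_congr (Rch_tr z ω x y)

lemma cN_congr {ω : Cfg n} {x y : V n} (h : Rch ω x y) : cN ω x = cN ω y := by
  unfold cN
  refine tsum_congr fun z => ?_
  exact iR_congr ⟨fun h' => h.symm.trans h', fun h' => h.trans h'⟩

lemma cN_of_eq {ω ω' : Cfg n} {x y : V n} (h : ∀ z, Rch ω x z ↔ Rch ω' y z) :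
    cN ω x = cN ω' y := by
  exact tsum_congr fun z => iR_congr (h z)

/-- cluster as a finite set -/
lemma cN_fin {ω : Cfg n} {x : V n} {B : Finset (V n)} (h : ∀ y, Rch ω x y ↔ y ∈ B) :
    cN ω x = B.card := by
  classical
  unfold cN
  rw [tsum_eq_sum (s := B)]
  · rw [Finset.sum_congr rfl (g := fun _ => (1 : ℝ≥0∞))]
    · simp
    · intro y hy
      simp [iR, (h y).2 hy]
  · intro y hy
    have : ¬ Rch ω x y := fun h' => hy ((h y).1 h')
    simp [iR, this]

/-- The weight of a vertex. -/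
def wt (N : ℕ) (ω : Cfg n) (x : V n) : ℝ≥0∞ := (max (cN ω x) N)⁻¹

lemma measurable_wt (N : ℕ) (x : V n) : Measurable (fun ω : Cfg n => wt N ω x) :=
  ((measurable_cN x).max measurable_const).inv

lemma wt_tr (N : ℕ) (z : V n) (ω : Cfg n) (x : V n) : wt N (tr z ω) x = wt N ω (x + z) := by
  unfold wt; rw [cN_tr]

open scoped Classical in
/-- Indicator: the bond of length `k` starting at `z` touches the cluster of `x`. -/
def iT (k : ℕ) (ω : Cfg n) (z x : V n) : ℝ≥0∞ := if Rch ω z x ∨ Rch ω (z + kv n k) x then 1 else 0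

open scoped Classical in
lemma iT_congr {k : ℕ} {ω ω' : Cfg n} {z x z' x' : V n}
    (h : (Rch ω z x ∨ Rch ω (z + kv n k) x) ↔ (Rch ω' z' x' ∨ Rch ω' (z' + kv n k) x')) :
    iT k ω z x = iT k ω' z' x' := if_congr h rfl rfl

lemma measurable_iT (k : ℕ) (z x : V n) : Measurable (fun ω : Cfg n => iT k ω z x) := by
  unfold iT
  exact Measurable.ite ((meas_Rch _ _).union (meas_Rch _ _)) measurable_const measurable_const

lemma iT_tr (k : ℕ) (u : V n) (ω : Cfg n) (z x : V n) :
    iT k (tr u ω) z x = iT k ω (z + u) (x + u) := by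
  refine iT_congr ?_
  rw [Rch_tr, Rch_tr, add_right_comm]

/-- Total weight of the clusters touching the bond of length `k` at the origin. -/
def TT (N k : ℕ) (ω : Cfg n) : ℝ≥0∞ := ∑' x, iT k ω 0 x * wt N ω x

lemma measurable_TT (N k : ℕ) : Measurable (fun ω : Cfg n => TT N k ω) :=
  Measurable.tsum (fun x => (measurable_iT k 0 x).mul (measurable_wt N x))

/-- Mass transport. -/
theorem mt (a p : unitInterval) (β : NNReal) (s : ℝ) (N k : ℕ) (h : Cfg n → ℝ≥0∞)
    (hh : Measurable h) :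
    ∫⁻ ω, wt N ω 0 * ∑' z, h (tr z ω) * iT k ω z 0 ∂(pm (prob (n := n) a p β s 1)) =
      ∫⁻ ω, h ω * TT N k ω ∂(pm (prob (n := n) a p β s 1)) := by
  set μ := pm (prob (n := n) a p β s 1)
  have e1 : ∀ ω : Cfg n, wt N ω 0 * ∑' z, h (tr z ω) * iT k ω z 0 =
      ∑' z, wt N ω 0 * (h (tr z ω) * iT k ω z 0) := fun ω => ENNReal.tsum_mul_left.symm
  simp_rw [e1]
  rw [lintegral_tsum (f := fun z ω => wt N ω 0 * (h (tr z ω) * iT k ω z 0))
    (fun z => ((measurable_wt N 0).mul
    ((hh.comp (measurable_tr z)).mul (measurable_iT k z 0))).aemeasurable)]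
  have e2 : ∀ ω : Cfg n, h ω * TT N k ω = ∑' x, wt N ω x * (h ω * iT k ω 0 x) := by
    intro ω
    unfold TT
    rw [← ENNReal.tsum_mul_left]
    refine tsum_congr fun x => ?_
    ring
  simp_rw [e2]
  rw [lintegral_tsum (f := fun x ω => wt N ω x * (h ω * iT k ω 0 x))
    (fun x => ((measurable_wt N x).mul
    (hh.mul (measurable_iT k 0 x))).aemeasurable)]
  rw [← (Equiv.neg (V n)).tsum_eq (fun x => ∫⁻ ω, wt N ω x * (h ω * iT k ω 0 x) ∂μ)]
  refine tsum_congr fun z => ?_
  simp only [Equiv.neg_apply]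
  have hm : Measurable (fun ω : Cfg n => wt N ω (-z) * (h ω * iT k ω 0 (-z))) :=
    (measurable_wt N _).mul (hh.mul (measurable_iT k 0 _))
  rw [← (mp_tr a p β s z).lintegral_comp hm]
  refine lintegral_congr fun ω => ?_
  rw [wt_tr, iT_tr]
  simp

end

end Pool.Agent.TH489.PL
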