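import Pool.Agent.TH489.PL.Step
import Pool.Agent.TH489.PL.Boot
import Pool.Agent.TH489.PL.Chi
import Pool.Agent.W783.Perc.Crit

set_option autoImplicit false

open MeasureTheory Set Filter
open scoped ENNReal NNReal Topology

/-!
# Power law for the critical cluster, bond percolation
-/

namespace Pool.Agent.TH489.PL

open Pool.Agent.W783.PC

noncomputable section

variable {n : ℕ}

/-- The bootstrap for fixed parameters, with a constant which is uniform in the parameters. -/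
theorem boot_main (htilt : S_tilt) (hbk : S_bkT) {s : ℝ} (hs1 : 1 < s) (hs2 : s < 2) {b0 b1 : ℝ}
    (hb0 : 0 < b0) (hb1 : b0 ≤ b1) :
    ∃ A0 : ℝ, 1 ≤ A0 ∧ ∀ (n : ℕ) (p : unitInterval) (β : NNReal), b0 ≤ β → (β : ℝ) ≤ b1 →
      Fin0 (pm (prob (n := n) 1 p β s 1)) →
      (∃ A1 : ℝ, ∀ N : ℕ, 1 ≤ N → QQ (pm (prob (n := n) 1 p β s 1)) N ≤
        A1 * (N : ℝ) ^ (-((2 - s) / (2 + s)))) →
      ∀ N : ℕ, 1 ≤ N → QQ (pm (prob (n := n) 1 p β s 1)) N ≤
        A0 * (N : ℝ) ^ (-((2 - s) / (2 + s))) := by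
  set θ : ℝ := (2 - s) / (2 + s) with hθ
  have hs2' : 0 < 2 + s := by linarith
  have hθ0 : 0 < θ := by rw [hθ]; exact div_pos (by linarith) hs2'
  have hθ1 : θ < 1 := by rw [hθ, div_lt_one hs2']; linarith
  have hcX := cX_pos hθ0 hθ1
  have he0 : 0 < 1 - Real.exp (-b0) := by rw [sub_pos, Real.exp_lt_one_iff]; linarith
  set C2 : ℝ := Real.exp b1 / (1 - Real.exp (-b0)) with hC2
  have hC20 : 0 ≤ C2 := (div_pos (Real.exp_pos _) he0).le
  obtain ⟨A0, hA01, hA0⟩ := boot_real (b := b1) hs1 hs2 hθ (by linarith) hC20 hcX.le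
  refine ⟨max 2 A0, (by norm_num : (1 : ℝ) ≤ 2).trans (le_max_left _ _), ?_⟩
  intro n p β hβ0 hβ1 hfin ⟨A1, hA1⟩
  have hβ : (0 : ℝ) < β := by linarith
  have hβ' : 0 < β := hβ
  set μ := pm (prob (n := n) 1 p β s 1) with hμ
  have hQ0 : ∀ N, 0 ≤ QQ μ N := fun N => measureReal_nonneg
  have hQ1 : ∀ N, QQ μ N ≤ 1 := fun N => measureReal_le_one
  -- one step
  have hstep : ∀ A : ℝ, max 2 A0 ≤ A → (∀ N : ℕ, 1 ≤ N → QQ μ N ≤ A * (N : ℝ) ^ (-θ)) →
      ∀ N : ℕ, 1 ≤ N → QQ μ N ≤ A / 2 * (N : ℝ) ^ (-θ) := by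
    intro A hA hQ N hN
    have hA2 : 2 ≤ A := (le_max_left _ _).trans hA
    have hA' : A0 ≤ A := (le_max_right _ _).trans hA
    have hN0 : (0 : ℝ) < N := by exact_mod_cast hN
    have hNt : 0 < (N : ℝ) ^ (-θ) := Real.rpow_pos_of_pos hN0 _
    rcases hA0 A hA' N hN with h | ⟨R, M, hR, hM, h1, h2⟩
    · exact (hQ1 N).trans h
    · rcases Nat.lt_or_ge N 2 with hN2 | hN2
      · have : N = 1 := by omega
        subst this
        have h3 := hQ1 1
        simp only [Nat.cast_one, Real.one_rpow, mul_one]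
        linarith
      · have hR0 : (0 : ℝ) < R := by exact_mod_cast hR
        have h3 := step_bond (n := n) htilt hbk p hβ' (s := s) (by linarith) hR hM hfin hθ0 hθ1
          (by linarith : 1 ≤ A) hQ h1 hN2
        have h4 : cB β ≤ C2 := by
          unfold cB
          rw [hC2]
          refine div_le_div₀ (Real.exp_pos _).le (Real.exp_le_exp.2 hβ1) he0 ?_
          have : Real.exp (-(β : ℝ)) ≤ Real.exp (-b0) := Real.exp_le_exp.2 (by linarith)
          linarith
        have hcB0 := cB_pos hβ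
        have h5 : ((2 * R : ℕ) : ℝ) ^ s * cB β * (cX θ * Real.sqrt A *
            (1 / N + Real.sqrt (β * (R : ℝ) ^ (1 - s)) * (N : ℝ) ^ (-((1 + θ) / 2)))) ≤
            ((2 * R : ℕ) : ℝ) ^ s * C2 * (cX θ * Real.sqrt A *
            (1 / N + Real.sqrt (b1 * (R : ℝ) ^ (1 - s)) * (N : ℝ) ^ (-((1 + θ) / 2)))) := by
          gcongr
        have h6 : R * QQ μ N ^ 2 ≤ R * (A / 2 * (N : ℝ) ^ (-θ)) ^ 2 := by linarith
        have h7 : QQ μ N ^ 2 ≤ (A / 2 * (N : ℝ) ^ (-θ)) ^ 2 := le_of_mul_le_mul_left h6 hR0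
        have h8 : 0 ≤ A / 2 * (N : ℝ) ^ (-θ) := by positivity
        exact (sq_le_sq₀ (hQ0 N) h8).1 h7
  -- iteration
  have hiter : ∀ j : ℕ, ∀ N : ℕ, 1 ≤ N → QQ μ N ≤ max (max 2 A0) (A1 / 2 ^ j) * (N : ℝ) ^ (-θ) := by
    intro j
    induction j with
    | zero =>
      intro N hN
      refine (hA1 N hN).trans ?_
      have hN0 : (0 : ℝ) < N := by exact_mod_cast hN
      refine mul_le_mul_of_nonneg_right ?_ (Real.rpow_nonneg hN0.le _)
      rw [pow_zero, div_one]
      exact le_max_right _ _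
    | succ j ih =>
      intro N hN
      have hN0 : (0 : ℝ) < N := by exact_mod_cast hN
      refine (hstep _ (le_max_left _ _) ih N hN).trans ?_
      refine mul_le_mul_of_nonneg_right ?_ (Real.rpow_nonneg hN0.le _)
      rw [div_le_iff₀ (by norm_num : (0 : ℝ) < 2)]
      refine max_le ?_ ?_
      · have h2 : (2 : ℝ) ≤ max 2 A0 := le_max_left _ _
        have h3 : max 2 A0 ≤ max (max 2 A0) (A1 / 2 ^ (j + 1)) := le_max_left _ _
        linarith
      · have h3 : A1 / 2 ^ (j + 1) ≤ max (max 2 A0) (A1 / 2 ^ (j + 1)) := le_max_right _ _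
        have h4 : A1 / 2 ^ j = A1 / 2 ^ (j + 1) * 2 := by
          rw [pow_succ]
          field_simp
        rw [h4]
        linarith
  obtain ⟨j, hj⟩ := pow_unbounded_of_one_lt A1 (by norm_num : (1 : ℝ) < 2)
  intro N hN
  have h := hiter j N hN
  have h2 : A1 / 2 ^ j ≤ max 2 A0 := by
    rw [div_le_iff₀ (by positivity)]
    have h3 : (2 : ℝ) ≤ max 2 A0 := le_max_left _ _
    have h4 : (0 : ℝ) < 2 ^ j := by positivity
    nlinarith
  rwa [max_eq_left h2] at h

/-- The sequence of times. -/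
def tj (j : ℕ) : NNReal := (j + 1) / (j + 2)

lemma tj_coe (j : ℕ) : (tj j : ℝ) = (j + 1) / (j + 2) := by
  unfold tj; push_cast; rfl

lemma tj_lt (j : ℕ) : tj j < 1 := by
  rw [← NNReal.coe_lt_coe, tj_coe, NNReal.coe_one, div_lt_one (by positivity)]
  linarith

lemma tj_ge (j : ℕ) : (1 : ℝ) / 2 ≤ tj j := by
  rw [tj_coe, div_le_div_iff₀ (by norm_num) (by positivity)]
  have : (0 : ℝ) ≤ j := Nat.cast_nonneg j
  linarith

lemma tj_tendsto : Tendsto (fun j => (tj j : ℝ)) atTop (𝓝 1) := by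
  have h : (fun j : ℕ => (tj j : ℝ)) = fun j : ℕ => 1 - (1 : ℝ) / ((j + 1 : ℕ) + 1) := by
    funext j
    rw [tj_coe]
    have : (j : ℝ) + 2 ≠ 0 := by positivity
    push_cast
    field_simp
    ring
  rw [h]
  have h2 : Tendsto (fun j : ℕ => (1 : ℝ) / (((j + 1 : ℕ) : ℝ) + 1)) atTop (𝓝 0) :=
    (tendsto_one_div_add_atTop_nhds_zero_nat (𝕜 := ℝ)).comp (tendsto_add_atTop_nat 1)
  simpa using tendsto_const_nhds.sub h2

lemma prob_tendsto {p : unitInterval} (hp : (p : ℝ) < 1) (β : NNReal) (s : ℝ) (c : Ix n) :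
    Tendsto (fun j => ((prob (n := n) 1 (pt p (tj j)) (tj j * β) s 1 c : unitInterval) : ℝ)) atTop
      (𝓝 (prob (n := n) 1 p β s 1 c : ℝ)) := by
  rcases c with v | e
  · exact tendsto_const_nhds
  · by_cases h1 : isNN e
    · simp only [prob_nn _ _ _ _ _ h1]
      show Tendsto (fun j => 1 - (1 - (p : ℝ)) ^ (tj j : ℝ)) atTop (𝓝 (p : ℝ))
      have h2 : Tendsto (fun j => (1 - (p : ℝ)) ^ (tj j : ℝ)) atTop (𝓝 ((1 - (p : ℝ)) ^ (1 : ℝ))) :=
        tendsto_const_nhds.rpow tj_tendsto (Or.inl (by linarith))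
      have h3 := (tendsto_const_nhds (x := (1 : ℝ))).sub h2
      simpa using h3
    · by_cases h2 : isLg 1 e
      · simp only [prob_lg _ _ _ _ _ h1 h2]
        show Tendsto (fun j => 1 - Real.exp (-(((tj j * β : NNReal) : ℝ) * (len e : ℝ) ^ (-s))))
          atTop (𝓝 (1 - Real.exp (-((β : ℝ) * (len e : ℝ) ^ (-s)))))
        have h3 : Tendsto (fun j => ((tj j * β : NNReal) : ℝ)) atTop (𝓝 (β : ℝ)) := by
          have := tj_tendsto.mul_const (β : ℝ)
          rw [one_mul] at this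
          simpa using this
        have h4 := (h3.mul_const ((len e : ℝ) ^ (-s))).neg
        exact tendsto_const_nhds.sub ((Real.continuous_exp.tendsto _).comp h4)
      · simp only [prob_no _ _ _ _ _ h1 h2]
        exact tendsto_const_nhds

/-- Lower semicontinuity of the tail. -/
lemma tail_limit (r : Ix n → unitInterval) (rj : ℕ → Ix n → unitInterval)
    (h : ∀ c, Tendsto (fun j => ((rj j c : unitInterval) : ℝ)) atTop (𝓝 (r c : ℝ))) {N : ℕ} {b : ℝ}
    (hb : ∀ j, QQ (pm (rj j)) N ≤ b) : QQ (pm r) N ≤ b := by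
  classical
  have hb0 : 0 ≤ b := le_trans measureReal_nonneg (hb 0)
  have key : ∀ R : Finset (V n), pm r (BigR 0 N R) ≤ ENNReal.ofReal b := by
    intro R
    have h1 : (pm r).real (BigR 0 N R) ≤ b := by
      have h2 : ∀ j, (pm r).real (BigR 0 N R) ≤ b + ∑ c ∈ IF R, |(r c : ℝ) - rj j c| := by
        intro j
        have h3 := Pool.Agent.W400.PC.s_tv (Ix n) r (rj j) (IF R) (BigR 0 N R) (BigR_dep' 0 N R)
        have h4 := (abs_le.1 h3).2
        have h5 : (pm (rj j)).real (BigR 0 N R) ≤ b := by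
          refine le_trans ?_ (hb j)
          unfold QQ
          refine measureReal_mono ?_ (measure_ne_top _ _)
          rw [BigR_union]
          exact subset_iUnion _ R
        linarith
      have h6 : Tendsto (fun j => b + ∑ c ∈ IF R, |(r c : ℝ) - rj j c|) atTop (𝓝 b) := by
        have h7 : Tendsto (fun j => ∑ c ∈ IF R, |(r c : ℝ) - rj j c|) atTop
            (𝓝 (∑ c ∈ IF R, |(r c : ℝ) - r c|)) :=
          tendsto_finsetSum _ fun c _ => (tendsto_const_nhds.sub (h c)).abs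
        have h8 : ∑ c ∈ IF R, |(r c : ℝ) - r c| = 0 := Finset.sum_eq_zero fun c _ => by simp
        rw [h8] at h7
        simpa using tendsto_const_nhds.add h7
      exact ge_of_tendsto' h6 h2
    rw [← ofReal_measureReal (μ := pm r) (s := BigR 0 N R)]
    exact ENNReal.ofReal_le_ofReal h1
  unfold QQ Measure.real
  rw [big_iSup]
  refine ENNReal.toReal_le_of_le_ofReal hb0 (iSup_le key)

/-- **Power law for the size of the cluster of the origin**, bond percolation, without percolation. -/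
theorem bond_tail (hdct : S_dctL) (htilt : S_tilt) (hbk : S_bkT) {s : ℝ} (hs1 : 1 < s)
    (hs2 : s < 2) {β : NNReal} (hβ : 0 < β) :
    ∃ C : ℝ, ∀ (n : ℕ) (p : unitInterval), (p : ℝ) < 1 → theta n 1 p β s 1 = 0 →
      ∀ N : ℕ, 1 ≤ N → QQ (pm (prob (n := n) 1 p β s 1)) N ≤
        C * (N : ℝ) ^ (-((2 - s) / (2 + s))) := by
  have hβ0 : (0 : ℝ) < β := hβ
  obtain ⟨A0, _, hA0⟩ := boot_main htilt hbk hs1 hs2 (b0 := (β : ℝ) / 2) (b1 := β)
    (by linarith) (by linarith)
  refine ⟨A0, fun n p hp hθ N hN => ?_⟩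
  refine tail_limit (prob (n := n) 1 p β s 1) (fun j => prob (n := n) 1 (pt p (tj j)) (tj j * β) s 1)
    (fun c => prob_tendsto hp β s c) (fun j => ?_)
  obtain ⟨S, hS0, hS⟩ := hdct n s p β (tj j) hs1 (tj_lt j) hp hθ
  obtain ⟨K, hK0, hK⟩ := chi_fin (pt p (tj j)) (tj j * β) hs1 S hS0 hS
  obtain ⟨hfin, htail⟩ := chi_tail hK0 hK
  refine hA0 n (pt p (tj j)) (tj j * β) ?_ ?_ hfin ⟨K, fun N hN => ?_⟩ N hN
  · have := tj_ge j
    push_cast
    nlinarith
  · have := (tj_lt j).le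
    have h2 : (tj j : ℝ) ≤ 1 := this
    push_cast
    nlinarith
  · refine (htail N hN).trans ?_
    have hN1 : (1 : ℝ) ≤ N := by exact_mod_cast hN
    rw [div_eq_mul_inv]
    refine mul_le_mul_of_nonneg_left ?_ hK0
    rw [← Real.rpow_neg_one]
    refine Real.rpow_le_rpow_of_exponent_le hN1 ?_
    have hs2' : 0 < 2 + s := by linarith
    have : (2 - s) / (2 + s) < 1 := by rw [div_lt_one hs2']; linarith
    linarith

end

end Pool.Agent.TH489.PL
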