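import Pool.Agent.TH489.PL.Main
import Pool.Agent.TH489.PL.BootS
import Pool.Agent.TH489.PL.ChiS
import Pool.Agent.TH489.PL.DefsS

set_option autoImplicit false

open MeasureTheory Set Filter
open scoped ENNReal NNReal Topology

/-!
# Power law for the critical cluster, site percolation
-/

namespace Pool.Agent.TH489.PL

open Pool.Agent.W783.PC

noncomputable section

variable {n : ℕ}

/-- Connection probabilities along the ray, trivial bound. -/
lemma conn_boundS (a p : unitInterval) (β : NNReal) (s : ℝ) {R : ℕ} (hR : 1 ≤ R)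
    {θ A : ℝ} (hθ0 : 0 ≤ θ) (hθ1 : θ < 1) (hA : 1 ≤ A)
    (hQ : ∀ N : ℕ, 1 ≤ N → QQ (pm (prob (n := n) a p β s 1)) N ≤ A * (N : ℝ) ^ (-θ)) :
    ∑ k ∈ Finset.Ioc R (2 * R), (pm (prob (n := n) a p β s 1)).real {ω | Rch ω 0 (kv n k)} ≤
      A * ((3 * R : ℕ) : ℝ) ^ (1 - θ) / (1 - θ) := by
  classical
  set μ := pm (prob (n := n) a p β s 1) with hμ
  set I : Finset (V n) := (Finset.range (2 * R + 1)).image (kv n) with hI
  have hIc : I.card = 2 * R + 1 := by
    rw [hI, Finset.card_image_of_injective _ kv_inj, Finset.card_range]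
  have h1 : ∑ k ∈ Finset.Ioc R (2 * R), μ.real {ω | Rch ω 0 (kv n k)} ≤
      ∑ y ∈ I, μ.real {ω | Rch ω 0 y} := by
    rw [hI, Finset.sum_image (fun a _ b _ h => kv_inj h)]
    refine Finset.sum_le_sum_of_subset_of_nonneg ?_ (fun _ _ _ => measureReal_nonneg)
    intro k hk
    rw [Finset.mem_Ioc] at hk
    rw [Finset.mem_range]
    omega
  refine h1.trans ?_
  rw [hμ, sum_Rch, ← hμ, hIc]
  have h1θ : 0 < 1 - θ := by linarith
  calc ∑ j ∈ Finset.Ioc 0 (2 * R + 1), μ.real {ω | j ≤ kk I 0 ω}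
      ≤ ∑ j ∈ Finset.Ioc 0 (2 * R + 1), A * (j : ℝ) ^ (-θ) := by
        refine Finset.sum_le_sum fun j hj => ?_
        rw [Finset.mem_Ioc] at hj
        refine le_trans ?_ (hQ j hj.1)
        refine measureReal_mono ?_ (measure_ne_top _ _)
        intro ω hω
        have hω' : j ≤ kk I 0 ω := hω
        exact le_trans (by exact_mod_cast hω') (kk_le_cN I 0 ω)
    _ = A * ∑ j ∈ Finset.Ioc 0 (2 * R + 1), (j : ℝ) ^ (-θ) := by rw [Finset.mul_sum]
    _ ≤ A * (((2 * R + 1 : ℕ) : ℝ) ^ (1 - θ) / (1 - θ)) := by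
        refine mul_le_mul_of_nonneg_left ?_ (by linarith)
        exact sum_rpow_le hθ0 hθ1 _
    _ ≤ A * (((3 * R : ℕ) : ℝ) ^ (1 - θ) / (1 - θ)) := by
        have h2 : ((2 * R + 1 : ℕ) : ℝ) ≤ ((3 * R : ℕ) : ℝ) := by exact_mod_cast (by omega)
        gcongr
    _ = _ := by ring

/-- One step, site percolation. -/
theorem step_site (htilt : S_tilt) (a p : unitInterval) {β : NNReal} (hβ : 0 < β)
    {s : ℝ} (hs : 0 ≤ s) {R : ℕ} (hR : 1 ≤ R)
    (hfin : Fin0 (pm (prob (n := n) a p β s 1)))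
    {θ A : ℝ} (hθ0 : 0 < θ) (hθ1 : θ < 1) (hA : 1 ≤ A)
    (hQ : ∀ N : ℕ, 1 ≤ N → QQ (pm (prob (n := n) a p β s 1)) N ≤ A * (N : ℝ) ^ (-θ))
    {N : ℕ} (hN : 2 ≤ N) :
    R * QQ (pm (prob (n := n) a p β s 1)) N ^ 2 ≤
      A * ((3 * R : ℕ) : ℝ) ^ (1 - θ) / (1 - θ) +
      ((2 * R : ℕ) : ℝ) ^ s * cB β * (cX θ * Real.sqrt A *
        (1 / N + Real.sqrt (β * (R : ℝ) ^ (1 - s)) * (N : ℝ) ^ (-((1 + θ) / 2)))) := by
  have h : ∑ k ∈ Finset.Ioc R (2 * R), QQ (pm (prob (n := n) a p β s 1)) N ^ 2 ≤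
      ∑ k ∈ Finset.Ioc R (2 * R), ((pm (prob (n := n) a p β s 1)).real {ω | Rch ω 0 (kv n k)} +
      (pm (prob (n := n) a p β s 1)).real (Dk n N k)) :=
    Finset.sum_le_sum fun k _ => step1 a p β s N k
  rw [Finset.sum_const, nsmul_eq_mul, Nat.card_Ioc, Finset.sum_add_distrib] at h
  have e : ((2 * R - R : ℕ) : ℝ) = R := by congr 1; omega
  rw [e] at h
  exact h.trans (add_le_add (conn_boundS a p β s hR hθ0.le hθ1 hA hQ)
    (ghost_bound htilt a p hβ hs hR hfin hθ0 hθ1 hA hQ hN))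

/-- The bootstrap for fixed parameters, site version. -/
theorem boot_mainS (htilt : S_tilt) {s : ℝ} (hs1 : 1 < s) (hs2 : s < 3 / 2) {b0 b1 : ℝ}
    (hb0 : 0 < b0) (hb1 : b0 ≤ b1) :
    ∃ A0 : ℝ, 1 ≤ A0 ∧ ∀ (n : ℕ) (a p : unitInterval) (β : NNReal), b0 ≤ β → (β : ℝ) ≤ b1 →
      Fin0 (pm (prob (n := n) a p β s 1)) →
      (∃ A1 : ℝ, ∀ N : ℕ, 1 ≤ N → QQ (pm (prob (n := n) a p β s 1)) N ≤
        A1 * (N : ℝ) ^ (-((3 - 2 * s) / 3))) →
      ∀ N : ℕ, 1 ≤ N → QQ (pm (prob (n := n) a p β s 1)) N ≤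
        A0 * (N : ℝ) ^ (-((3 - 2 * s) / 3)) := by
  set θ : ℝ := (3 - 2 * s) / 3 with hθ
  have hθ0 : 0 < θ := by rw [hθ]; linarith
  have hθ1 : θ < 1 := by rw [hθ]; linarith
  have hcX := cX_pos hθ0 hθ1
  have he0 : 0 < 1 - Real.exp (-b0) := by rw [sub_pos, Real.exp_lt_one_iff]; linarith
  set C2 : ℝ := Real.exp b1 / (1 - Real.exp (-b0)) with hC2
  have hC20 : 0 ≤ C2 := (div_pos (Real.exp_pos _) he0).le
  obtain ⟨A0, hA01, hA0⟩ := boot_realS (b := b1) hs1 hs2 hθ (by linarith) hC20 hcX.le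
  refine ⟨max 2 A0, (by norm_num : (1 : ℝ) ≤ 2).trans (le_max_left _ _), ?_⟩
  intro n a p β hβ0 hβ1 hfin ⟨A1, hA1⟩
  have hβ : (0 : ℝ) < β := by linarith
  have hβ' : 0 < β := hβ
  set μ := pm (prob (n := n) a p β s 1) with hμ
  have hQ0 : ∀ N, 0 ≤ QQ μ N := fun N => measureReal_nonneg
  have hQ1 : ∀ N, QQ μ N ≤ 1 := fun N => measureReal_le_one
  -- one step
  have hstep : ∀ A : ℝ, max 2 A0 ≤ A → (∀ N : ℕ, 1 ≤ N → QQ μ N ≤ A * (N : ℝ) ^ (-θ)) →
      ∀ N : ℕ, 1 ≤ N → QQ μ N ≤ A / 2 * (N : ℝ) ^ (-θ) := by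
    intro A hA hQ N hN
    have hA2 : 2 ≤ A := (le_max_left _ _).trans hA
    have hA' : A0 ≤ A := (le_max_right _ _).trans hA
    have hN0 : (0 : ℝ) < N := by exact_mod_cast hN
    have hNt : 0 < (N : ℝ) ^ (-θ) := Real.rpow_pos_of_pos hN0 _
    rcases hA0 A hA' N hN with h | ⟨R, hR, h2⟩
    · exact (hQ1 N).trans h
    · rcases Nat.lt_or_ge N 2 with hN2 | hN2
      · have : N = 1 := by omega
        subst this
        have h3 := hQ1 1
        simp only [Nat.cast_one, Real.one_rpow, mul_one]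
        linarith
      · have hR0 : (0 : ℝ) < R := by exact_mod_cast hR
        have h3 := step_site (n := n) htilt a p hβ' (s := s) (by linarith) hR hfin hθ0 hθ1
          (by linarith : 1 ≤ A) hQ hN2
        have h4 : cB β ≤ C2 := by
          unfold cB
          rw [hC2]
          refine div_le_div₀ (Real.exp_pos _).le (Real.exp_le_exp.2 hβ1) he0 ?_
          have : Real.exp (-(β : ℝ)) ≤ Real.exp (-b0) := Real.exp_le_exp.2 (by linarith)
          linarith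
        have hcB0 := cB_pos hβ
        have h5 : ((2 * R : ℕ) : ℝ) ^ s * cB β * (cX θ * Real.sqrt A *
            (1 / N + Real.sqrt (β * (R : ℝ) ^ (1 - s)) * (N : ℝ) ^ (-((1 + θ) / 2)))) ≤
            ((2 * R : ℕ) : ℝ) ^ s * C2 * (cX θ * Real.sqrt A *
            (1 / N + Real.sqrt (b1 * (R : ℝ) ^ (1 - s)) * (N : ℝ) ^ (-((1 + θ) / 2)))) := by
          gcongr
        have h6 : R * QQ μ N ^ 2 ≤ R * (A / 2 * (N : ℝ) ^ (-θ)) ^ 2 := by linarith
        have h7 : QQ μ N ^ 2 ≤ (A / 2 * (N : ℝ) ^ (-θ)) ^ 2 := le_of_mul_le_mul_left h6 hR0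
        have h8 : 0 ≤ A / 2 * (N : ℝ) ^ (-θ) := by positivity
        exact (sq_le_sq₀ (hQ0 N) h8).1 h7
  -- iteration
  have hiter : ∀ j : ℕ, ∀ N : ℕ, 1 ≤ N → QQ μ N ≤ max (max 2 A0) (A1 / 2 ^ j) * (N : ℝ) ^ (-θ) := by
    intro j
    induction j with
    | zero =>
      intro N hN
      refine (hA1 N hN).trans ?_
      have hN0 : (0 : ℝ) < N := by exact_mod_cast hN
      refine mul_le_mul_of_nonneg_right ?_ (Real.rpow_nonneg hN0.le _)
      rw [pow_zero, div_one]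
      exact le_max_right _ _
    | succ j ih =>
      intro N hN
      have hN0 : (0 : ℝ) < N := by exact_mod_cast hN
      refine (hstep _ (le_max_left _ _) ih N hN).trans ?_
      refine mul_le_mul_of_nonneg_right ?_ (Real.rpow_nonneg hN0.le _)
      rw [div_le_iff₀ (by norm_num : (0 : ℝ) < 2)]
      refine max_le ?_ ?_
      · have h2 : (2 : ℝ) ≤ max 2 A0 := le_max_left _ _
        have h3 : max 2 A0 ≤ max (max 2 A0) (A1 / 2 ^ (j + 1)) := le_max_left _ _
        linarith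
      · have h3 : A1 / 2 ^ (j + 1) ≤ max (max 2 A0) (A1 / 2 ^ (j + 1)) := le_max_right _ _
        have h4 : A1 / 2 ^ j = A1 / 2 ^ (j + 1) * 2 := by
          rw [pow_succ]
          field_simp
        rw [h4]
        linarith
  obtain ⟨j, hj⟩ := pow_unbounded_of_one_lt A1 (by norm_num : (1 : ℝ) < 2)
  intro N hN
  have h := hiter j N hN
  have h2 : A1 / 2 ^ j ≤ max 2 A0 := by
    rw [div_le_iff₀ (by positivity)]
    have h3 : (2 : ℝ) ≤ max 2 A0 := le_max_left _ _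
    have h4 : (0 : ℝ) < 2 ^ j := by positivity
    nlinarith
  rwa [max_eq_left h2] at h

lemma ta_coe (a : unitInterval) {t : NNReal} (ht : t ≤ 1) : (ta a t : ℝ) = t * a := by
  have h1 : (t : ℝ) ≤ 1 := ht
  have h2 := a.2.1
  have h3 := a.2.2
  show min ((t : ℝ) * a) 1 = t * a
  exact min_eq_left (by nlinarith)

lemma prob_tendstoS (a : unitInterval) (β : NNReal) (s : ℝ) (c : Ix n) :
    Tendsto (fun j => ((prob (n := n) (ta a (tj j)) 1 (tj j * β) s 1 c : unitInterval) : ℝ)) atTop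
      (𝓝 (prob (n := n) a 1 β s 1 c : ℝ)) := by
  rcases c with v | e
  · show Tendsto (fun j => ((ta a (tj j) : unitInterval) : ℝ)) atTop (𝓝 (a : ℝ))
    have h1 : (fun j => ((ta a (tj j) : unitInterval) : ℝ)) = fun j => (tj j : ℝ) * a := by
      funext j
      exact ta_coe a (tj_lt j).le
    rw [h1]
    simpa using tj_tendsto.mul_const (a : ℝ)
  · by_cases h1 : isNN e
    · simp only [prob_nn _ _ _ _ _ h1]
      exact tendsto_const_nhds
    · by_cases h2 : isLg 1 e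
      · simp only [prob_lg _ _ _ _ _ h1 h2]
        show Tendsto (fun j => 1 - Real.exp (-(((tj j * β : NNReal) : ℝ) * (len e : ℝ) ^ (-s))))
          atTop (𝓝 (1 - Real.exp (-((β : ℝ) * (len e : ℝ) ^ (-s)))))
        have h3 : Tendsto (fun j => ((tj j * β : NNReal) : ℝ)) atTop (𝓝 (β : ℝ)) := by
          have := tj_tendsto.mul_const (β : ℝ)
          rw [one_mul] at this
          simpa using this
        have h4 := (h3.mul_const ((len e : ℝ) ^ (-s))).neg
        exact tendsto_const_nhds.sub ((Real.continuous_exp.tendsto _).comp h4)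
      · simp only [prob_no _ _ _ _ _ h1 h2]
        exact tendsto_const_nhds

/-- **Power law for the size of the cluster of the origin**, site percolation, without
percolation. -/
theorem site_tail (hdct : S_dctSL) (htilt : S_tilt) {s : ℝ} (hs1 : 1 < s)
    (hs2 : s < 3 / 2) {β : NNReal} (hβ : 0 < β) :
    ∃ C : ℝ, ∀ (n : ℕ) (a : unitInterval), theta n a 1 β s 1 = 0 →
      ∀ N : ℕ, 1 ≤ N → QQ (pm (prob (n := n) a 1 β s 1)) N ≤
        C * (N : ℝ) ^ (-((3 - 2 * s) / 3)) := by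
  have hβ0 : (0 : ℝ) < β := hβ
  obtain ⟨A0, _, hA0⟩ := boot_mainS htilt hs1 hs2 (b0 := (β : ℝ) / 2) (b1 := β)
    (by linarith) (by linarith)
  refine ⟨A0, fun n a hθ N hN => ?_⟩
  refine tail_limit (prob (n := n) a 1 β s 1)
    (fun j => prob (n := n) (ta a (tj j)) 1 (tj j * β) s 1)
    (fun c => prob_tendstoS a β s c) (fun j => ?_)
  obtain ⟨S, hS0, hS⟩ := hdct n s a β (tj j) hs1 (tj_lt j) hθ
  obtain ⟨K, hK0, hK⟩ := chi_finS (ta a (tj j)) (tj j * β) hs1 S hS0 hS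
  obtain ⟨hfin, htail⟩ := chi_tail hK0 hK
  refine hA0 n (ta a (tj j)) 1 (tj j * β) ?_ ?_ hfin ⟨K, fun N hN => ?_⟩ N hN
  · have := tj_ge j
    push_cast
    nlinarith
  · have := (tj_lt j).le
    have h2 : (tj j : ℝ) ≤ 1 := this
    push_cast
    nlinarith
  · refine (htail N hN).trans ?_
    have hN1 : (1 : ℝ) ≤ N := by exact_mod_cast hN
    rw [div_eq_mul_inv]
    refine mul_le_mul_of_nonneg_left ?_ hK0
    rw [← Real.rpow_neg_one]
    refine Real.rpow_le_rpow_of_exponent_le hN1 ?_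
    linarith

end

end Pool.Agent.TH489.PL
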