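import Pool.Agent.TH489.PL.XQ
import Pool.Agent.TH489.PL.BootQ
import Pool.Agent.TH489.PL.MainS

set_option autoImplicit false

open MeasureTheory Set Filter
open scoped ENNReal NNReal Topology

/-!
# Power law for the critical cluster, better exponents
-/

namespace Pool.Agent.TH489.PL

open Pool.Agent.W783.PC

noncomputable section

variable {n : ℕ}

/-- Pairs of large clusters which are not connected. -/
lemma ghost_bound_q (a p : unitInterval) {β : NNReal} (hβ : 0 < β) {s : ℝ}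
    (hs : 0 ≤ s) {R : ℕ} (hR : 1 ≤ R) (hfin : Fin0 (pm (prob (n := n) a p β s 1))) {q : ℕ}
    (hq : 2 ≤ q) {θ A : ℝ} (hθ0 : 0 < θ) (hθ1 : θ < 1 / 2) (hA : 1 ≤ A)
    (hQ : ∀ N : ℕ, 1 ≤ N → QQ (pm (prob (n := n) a p β s 1)) N ≤ A * (N : ℝ) ^ (-θ))
    {N : ℕ} (hN : 2 ≤ N) :
    ∑ k ∈ Finset.Ioc R (2 * R), (pm (prob (n := n) a p β s 1)).real (Dk n N k) ≤
      ((2 * R : ℕ) : ℝ) ^ s * cB β * (cXq q θ * A ^ (1 - 1 / (q : ℝ)) *
        (1 / N + Real.sqrt (β * (R : ℝ) ^ (1 - s)) *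
          (N : ℝ) ^ (-(1 / 2 + θ * (1 - 1 / (q : ℝ)))))) := by
  set μ := pm (prob (n := n) a p β s 1) with hμ
  have hβ' : (0 : ℝ) < β := hβ
  have h1 := two_ghost (n := n) a p β s hN hR hfin
    (X_bound_q a p β s hR hq hθ0 hθ1 hA hQ (by omega : 1 ≤ N))
  have hNR : (0 : ℝ) < N := by exact_mod_cast (by omega : 0 < N)
  have hcX := cXq_pos hq hθ0 hθ1
  set η : ℝ := 1 - 1 / (q : ℝ) with hη
  have hAη : 0 < A ^ η := Real.rpow_pos_of_pos (by linarith) _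
  have h2 : cXq q θ * A ^ η * (1 / N + Real.sqrt (sg β s R) * (N : ℝ) ^ (-(1 / 2 + θ * η))) ≤
      cXq q θ * A ^ η *
        (1 / N + Real.sqrt (β * (R : ℝ) ^ (1 - s)) * (N : ℝ) ^ (-(1 / 2 + θ * η))) := by
    have := Real.sqrt_le_sqrt (sg_le β hs hR)
    gcongr
  set X := cXq q θ * A ^ η *
        (1 / N + Real.sqrt (β * (R : ℝ) ^ (1 - s)) * (N : ℝ) ^ (-(1 / 2 + θ * η))) with hX
  have h3 := h1.trans h2
  have h2R : (1 : ℝ) ≤ ((2 * R : ℕ) : ℝ) := by exact_mod_cast (by omega : 1 ≤ 2 * R)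
  have hexp : 0 < 1 - Real.exp (-(β : ℝ)) := by
    rw [sub_pos, Real.exp_lt_one_iff]; linarith
  -- lower bound of the weights
  have hw : ∀ k ∈ Finset.Ioc R (2 * R), (1 - Real.exp (-(β : ℝ))) * Real.exp (-(β : ℝ)) *
      ((2 * R : ℕ) : ℝ) ^ (-s) ≤ lrp β s k * (1 - lrp β s k) := by
    intro k hk
    rw [Finset.mem_Ioc] at hk
    have hk1 : 1 ≤ k := by omega
    have e1 := lrp_lower β hs hk1
    have e2 := lrp_upper β hs hk1
    have hk0 : (0 : ℝ) < k := by exact_mod_cast hk1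
    have e3 : ((2 * R : ℕ) : ℝ) ^ (-s) ≤ (k : ℝ) ^ (-s) :=
      Real.rpow_le_rpow_of_nonpos hk0 (by exact_mod_cast hk.2) (by linarith)
    calc (1 - Real.exp (-(β : ℝ))) * Real.exp (-(β : ℝ)) * ((2 * R : ℕ) : ℝ) ^ (-s)
        = ((1 - Real.exp (-(β : ℝ))) * ((2 * R : ℕ) : ℝ) ^ (-s)) * Real.exp (-(β : ℝ)) := by ring
      _ ≤ ((1 - Real.exp (-(β : ℝ))) * (k : ℝ) ^ (-s)) * Real.exp (-(β : ℝ)) := by gcongr
      _ ≤ lrp β s k * (1 - lrp β s k) :=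
          mul_le_mul e1 e2 (Real.exp_pos _).le (lrp β s k).2.1
  have h4 : (1 - Real.exp (-(β : ℝ))) * Real.exp (-(β : ℝ)) * ((2 * R : ℕ) : ℝ) ^ (-s) *
      ∑ k ∈ Finset.Ioc R (2 * R), μ.real (Dk n N k) ≤ X := by
    rw [Finset.mul_sum]
    exact (Finset.sum_le_sum fun k hk => mul_le_mul_of_nonneg_right (hw k hk)
      measureReal_nonneg).trans h3
  have h5 : ((2 * R : ℕ) : ℝ) ^ s * cB β * ((1 - Real.exp (-(β : ℝ))) * Real.exp (-(β : ℝ)) *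
      ((2 * R : ℕ) : ℝ) ^ (-s)) = 1 := by
    have e1 : ((2 * R : ℕ) : ℝ) ^ s * ((2 * R : ℕ) : ℝ) ^ (-s) = 1 := by
      rw [← Real.rpow_add (by linarith)]; simp
    have e2 : Real.exp (β : ℝ) * Real.exp (-(β : ℝ)) = 1 := by
      rw [← Real.exp_add]; simp
    unfold cB
    calc ((2 * R : ℕ) : ℝ) ^ s * (Real.exp (β : ℝ) / (1 - Real.exp (-(β : ℝ)))) *
        ((1 - Real.exp (-(β : ℝ))) * Real.exp (-(β : ℝ)) * ((2 * R : ℕ) : ℝ) ^ (-s))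
        = (((2 * R : ℕ) : ℝ) ^ s * ((2 * R : ℕ) : ℝ) ^ (-s)) *
          (Real.exp (β : ℝ) * Real.exp (-(β : ℝ))) *
          ((1 - Real.exp (-(β : ℝ))) / (1 - Real.exp (-(β : ℝ)))) := by ring
      _ = 1 := by rw [e1, e2, div_self hexp.ne']; ring
  have h6 : 0 ≤ ((2 * R : ℕ) : ℝ) ^ s * cB β :=
    mul_nonneg (Real.rpow_nonneg (by linarith) _) (cB_pos hβ').le
  calc ∑ k ∈ Finset.Ioc R (2 * R), μ.real (Dk n N k)
      = ((2 * R : ℕ) : ℝ) ^ s * cB β * ((1 - Real.exp (-(β : ℝ))) * Real.exp (-(β : ℝ)) *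
        ((2 * R : ℕ) : ℝ) ^ (-s) * ∑ k ∈ Finset.Ioc R (2 * R), μ.real (Dk n N k)) := by
        rw [← mul_assoc, h5, one_mul]
    _ ≤ ((2 * R : ℕ) : ℝ) ^ s * cB β * X := mul_le_mul_of_nonneg_left h4 h6

/-- The first step summed over `k`. -/
lemma step_sum (a p : unitInterval) (β : NNReal) (s : ℝ) (R N : ℕ) :
    R * QQ (pm (prob (n := n) a p β s 1)) N ^ 2 ≤
      ∑ k ∈ Finset.Ioc R (2 * R), (pm (prob (n := n) a p β s 1)).real {ω | Rch ω 0 (kv n k)} +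
      ∑ k ∈ Finset.Ioc R (2 * R), (pm (prob (n := n) a p β s 1)).real (Dk n N k) := by
  have h : ∑ k ∈ Finset.Ioc R (2 * R), QQ (pm (prob (n := n) a p β s 1)) N ^ 2 ≤
      ∑ k ∈ Finset.Ioc R (2 * R), ((pm (prob (n := n) a p β s 1)).real {ω | Rch ω 0 (kv n k)} +
      (pm (prob (n := n) a p β s 1)).real (Dk n N k)) :=
    Finset.sum_le_sum fun k _ => step1 a p β s N k
  rw [Finset.sum_const, nsmul_eq_mul, Nat.card_Ioc, Finset.sum_add_distrib] at h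
  have e : ((2 * R - R : ℕ) : ℝ) = R := by congr 1; omega
  rw [e] at h
  exact h

/-- Iteration of a halving step. -/
lemma iterate_half {Q : ℕ → ℝ} {θ A0 A1 : ℝ} (hA0 : 2 ≤ A0)
    (hstep : ∀ A : ℝ, A0 ≤ A → (∀ N : ℕ, 1 ≤ N → Q N ≤ A * (N : ℝ) ^ (-θ)) →
      ∀ N : ℕ, 1 ≤ N → Q N ≤ A / 2 * (N : ℝ) ^ (-θ))
    (hA1 : ∀ N : ℕ, 1 ≤ N → Q N ≤ A1 * (N : ℝ) ^ (-θ)) :
    ∀ N : ℕ, 1 ≤ N → Q N ≤ A0 * (N : ℝ) ^ (-θ) := by
  have hiter : ∀ j : ℕ, ∀ N : ℕ, 1 ≤ N → Q N ≤ max A0 (A1 / 2 ^ j) * (N : ℝ) ^ (-θ) := by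
    intro j
    induction j with
    | zero =>
      intro N hN
      refine (hA1 N hN).trans ?_
      have hN0 : (0 : ℝ) < N := by exact_mod_cast hN
      refine mul_le_mul_of_nonneg_right ?_ (Real.rpow_nonneg hN0.le _)
      rw [pow_zero, div_one]
      exact le_max_right _ _
    | succ j ih =>
      intro N hN
      have hN0 : (0 : ℝ) < N := by exact_mod_cast hN
      refine (hstep _ (le_max_left _ _) ih N hN).trans ?_
      refine mul_le_mul_of_nonneg_right ?_ (Real.rpow_nonneg hN0.le _)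
      rw [div_le_iff₀ (by norm_num : (0 : ℝ) < 2)]
      refine max_le ?_ ?_
      · have h3 : A0 ≤ max A0 (A1 / 2 ^ (j + 1)) := le_max_left _ _
        linarith
      · have h3 : A1 / 2 ^ (j + 1) ≤ max A0 (A1 / 2 ^ (j + 1)) := le_max_right _ _
        have h4 : A1 / 2 ^ j = A1 / 2 ^ (j + 1) * 2 := by
          rw [pow_succ]
          field_simp
        rw [h4]
        linarith
  obtain ⟨j, hj⟩ := pow_unbounded_of_one_lt A1 (by norm_num : (1 : ℝ) < 2)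
  intro N hN
  have h := hiter j N hN
  have h2 : A1 / 2 ^ j ≤ A0 := by
    rw [div_le_iff₀ (by positivity)]
    have h4 : (0 : ℝ) < 2 ^ j := by positivity
    nlinarith
  rwa [max_eq_left h2] at h

lemma cB_mono {b0 b1 β : ℝ} (hb0 : 0 < b0) (h0 : b0 ≤ β) (h1 : β ≤ b1) :
    cB β ≤ Real.exp b1 / (1 - Real.exp (-b0)) := by
  unfold cB
  have he0 : 0 < 1 - Real.exp (-b0) := by rw [sub_pos, Real.exp_lt_one_iff]; linarith
  refine div_le_div₀ (Real.exp_pos _).le (Real.exp_le_exp.2 h1) he0 ?_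
  have : Real.exp (-β) ≤ Real.exp (-b0) := Real.exp_le_exp.2 (by linarith)
  linarith

/-- The bootstrap, bond percolation. -/
theorem boot_main_q (hbk : S_bkT) {s θ : ℝ} {q : ℕ} (hs1 : 1 < s) (hθ0 : 0 < θ) (hθ1 : θ < 1 / 2)
    (hq : 2 ≤ q) (hρ : (1 + θ) * (s - 1) ≤ 1 - 2 * θ * (2 - (1 - 1 / (q : ℝ)))) {b0 b1 : ℝ}
    (hb0 : 0 < b0) (hb1 : b0 ≤ b1) :
    ∃ A0 : ℝ, 1 ≤ A0 ∧ ∀ (n : ℕ) (p : unitInterval) (β : NNReal), b0 ≤ β → (β : ℝ) ≤ b1 →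
      Fin0 (pm (prob (n := n) 1 p β s 1)) →
      (∃ A1 : ℝ, ∀ N : ℕ, 1 ≤ N → QQ (pm (prob (n := n) 1 p β s 1)) N ≤ A1 * (N : ℝ) ^ (-θ)) →
      ∀ N : ℕ, 1 ≤ N → QQ (pm (prob (n := n) 1 p β s 1)) N ≤ A0 * (N : ℝ) ^ (-θ) := by
  have hcX := cXq_pos hq hθ0 hθ1
  have he0 : 0 < 1 - Real.exp (-b0) := by rw [sub_pos, Real.exp_lt_one_iff]; linarith
  set C2 : ℝ := Real.exp b1 / (1 - Real.exp (-b0)) with hC2
  have hC20 : 0 ≤ C2 := (div_pos (Real.exp_pos _) he0).le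
  obtain ⟨A0, hA01, hA0⟩ := boot_real_q (b := b1) hs1 hθ0 (by linarith) (eta_pos hq).2.le hρ
    (by linarith) hC20 hcX.le
  refine ⟨max 2 A0, (by norm_num : (1 : ℝ) ≤ 2).trans (le_max_left _ _), ?_⟩
  intro n p β hβ0 hβ1 hfin ⟨A1, hA1⟩
  have hβ : (0 : ℝ) < β := by linarith
  have hβ' : 0 < β := hβ
  set μ := pm (prob (n := n) 1 p β s 1) with hμ
  have hQ0 : ∀ N, 0 ≤ QQ μ N := fun N => measureReal_nonneg
  have hQ1 : ∀ N, QQ μ N ≤ 1 := fun N => measureReal_le_one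
  refine iterate_half (le_max_left _ _) ?_ hA1
  intro A hA hQ N hN
  have hA2 : 2 ≤ A := (le_max_left _ _).trans hA
  have hA' : A0 ≤ A := (le_max_right _ _).trans hA
  have hN0 : (0 : ℝ) < N := by exact_mod_cast hN
  have hNt : 0 < (N : ℝ) ^ (-θ) := Real.rpow_pos_of_pos hN0 _
  rcases hA0 A hA' N hN with h | ⟨R, M, hR, hM, h1, h2⟩
  · exact (hQ1 N).trans h
  · rcases Nat.lt_or_ge N 2 with hN2 | hN2
    · have : N = 1 := by omega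
      subst this
      have h3 := hQ1 1
      simp only [Nat.cast_one, Real.one_rpow, mul_one]
      linarith
    · have hR0 : (0 : ℝ) < R := by exact_mod_cast hR
      have h3 := step_sum (n := n) 1 p β s R N
      have h3' := conn_bound (n := n) hbk p β s hR hM hθ0.le (by linarith) (by linarith) hQ h1
      have h3'' := ghost_bound_q (n := n) 1 p hβ' (s := s) (by linarith) hR hfin hq hθ0 hθ1
        (by linarith : 1 ≤ A) hQ hN2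
      have h4 : cB β ≤ C2 := cB_mono hb0 hβ0 hβ1
      have hcB0 := cB_pos hβ
      set η : ℝ := 1 - 1 / (q : ℝ) with hη
      have h5 : ((2 * R : ℕ) : ℝ) ^ s * cB β * (cXq q θ * A ^ η *
          (1 / N + Real.sqrt (β * (R : ℝ) ^ (1 - s)) * (N : ℝ) ^ (-(1 / 2 + θ * η)))) ≤
          ((2 * R : ℕ) : ℝ) ^ s * C2 * (cXq q θ * A ^ η *
          (1 / N + Real.sqrt (b1 * (R : ℝ) ^ (1 - s)) * (N : ℝ) ^ (-(1 / 2 + θ * η)))) := by
        gcongr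
      have h6 : R * QQ μ N ^ 2 ≤ R * (A / 2 * (N : ℝ) ^ (-θ)) ^ 2 := by linarith
      have h7 : QQ μ N ^ 2 ≤ (A / 2 * (N : ℝ) ^ (-θ)) ^ 2 := le_of_mul_le_mul_left h6 hR0
      have h8 : 0 ≤ A / 2 * (N : ℝ) ^ (-θ) := by positivity
      exact (sq_le_sq₀ (hQ0 N) h8).1 h7

/-- The bootstrap, site percolation. -/
theorem boot_mainS_q {s θ : ℝ} {q : ℕ} (hs1 : 1 < s) (hθ0 : 0 < θ) (hθ1 : θ < 1 / 2)
    (hq : 2 ≤ q) (hρ : 2 * (s - 1) ≤ 1 - 2 * θ * (2 - (1 - 1 / (q : ℝ)))) {b0 b1 : ℝ}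
    (hb0 : 0 < b0) (hb1 : b0 ≤ b1) :
    ∃ A0 : ℝ, 1 ≤ A0 ∧ ∀ (n : ℕ) (a p : unitInterval) (β : NNReal), b0 ≤ β → (β : ℝ) ≤ b1 →
      Fin0 (pm (prob (n := n) a p β s 1)) →
      (∃ A1 : ℝ, ∀ N : ℕ, 1 ≤ N → QQ (pm (prob (n := n) a p β s 1)) N ≤ A1 * (N : ℝ) ^ (-θ)) →
      ∀ N : ℕ, 1 ≤ N → QQ (pm (prob (n := n) a p β s 1)) N ≤ A0 * (N : ℝ) ^ (-θ) := by
  have hcX := cXq_pos hq hθ0 hθ1
  have he0 : 0 < 1 - Real.exp (-b0) := by rw [sub_pos, Real.exp_lt_one_iff]; linarith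
  set C2 : ℝ := Real.exp b1 / (1 - Real.exp (-b0)) with hC2
  have hC20 : 0 ≤ C2 := (div_pos (Real.exp_pos _) he0).le
  obtain ⟨A0, hA01, hA0⟩ := boot_realS_q (b := b1) hs1 hθ0 (by linarith) (eta_pos hq).2.le hρ
    (by linarith) hC20 hcX.le
  refine ⟨max 2 A0, (by norm_num : (1 : ℝ) ≤ 2).trans (le_max_left _ _), ?_⟩
  intro n a p β hβ0 hβ1 hfin ⟨A1, hA1⟩
  have hβ : (0 : ℝ) < β := by linarith
  have hβ' : 0 < β := hβ
  set μ := pm (prob (n := n) a p β s 1) with hμ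
  have hQ0 : ∀ N, 0 ≤ QQ μ N := fun N => measureReal_nonneg
  have hQ1 : ∀ N, QQ μ N ≤ 1 := fun N => measureReal_le_one
  refine iterate_half (le_max_left _ _) ?_ hA1
  intro A hA hQ N hN
  have hA2 : 2 ≤ A := (le_max_left _ _).trans hA
  have hA' : A0 ≤ A := (le_max_right _ _).trans hA
  have hN0 : (0 : ℝ) < N := by exact_mod_cast hN
  have hNt : 0 < (N : ℝ) ^ (-θ) := Real.rpow_pos_of_pos hN0 _
  rcases hA0 A hA' N hN with h | ⟨R, hR, h2⟩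
  · exact (hQ1 N).trans h
  · rcases Nat.lt_or_ge N 2 with hN2 | hN2
    · have : N = 1 := by omega
      subst this
      have h3 := hQ1 1
      simp only [Nat.cast_one, Real.one_rpow, mul_one]
      linarith
    · have hR0 : (0 : ℝ) < R := by exact_mod_cast hR
      have h3 := step_sum (n := n) a p β s R N
      have h3' := conn_boundS (n := n) a p β s hR hθ0.le (by linarith) (by linarith) hQ
      have h3'' := ghost_bound_q (n := n) a p hβ' (s := s) (by linarith) hR hfin hq hθ0 hθ1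
        (by linarith : 1 ≤ A) hQ hN2
      have h4 : cB β ≤ C2 := cB_mono hb0 hβ0 hβ1
      have hcB0 := cB_pos hβ
      set η : ℝ := 1 - 1 / (q : ℝ) with hη
      have h5 : ((2 * R : ℕ) : ℝ) ^ s * cB β * (cXq q θ * A ^ η *
          (1 / N + Real.sqrt (β * (R : ℝ) ^ (1 - s)) * (N : ℝ) ^ (-(1 / 2 + θ * η)))) ≤
          ((2 * R : ℕ) : ℝ) ^ s * C2 * (cXq q θ * A ^ η *
          (1 / N + Real.sqrt (b1 * (R : ℝ) ^ (1 - s)) * (N : ℝ) ^ (-(1 / 2 + θ * η)))) := by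
        gcongr
      have h6 : R * QQ μ N ^ 2 ≤ R * (A / 2 * (N : ℝ) ^ (-θ)) ^ 2 := by linarith
      have h7 : QQ μ N ^ 2 ≤ (A / 2 * (N : ℝ) ^ (-θ)) ^ 2 := le_of_mul_le_mul_left h6 hR0
      have h8 : 0 ≤ A / 2 * (N : ℝ) ^ (-θ) := by positivity
      exact (sq_le_sq₀ (hQ0 N) h8).1 h7

/-- choice of the moment -/
lemma exists_q {θ g : ℝ} (hg : 0 < g) : ∃ q : ℕ, 2 ≤ q ∧ 2 * θ * (1 / (q : ℝ)) ≤ g := by
  obtain ⟨q, hq⟩ := exists_nat_gt (2 * |θ| / g)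
  refine ⟨q + 2, by omega, ?_⟩
  have hq0 : (0 : ℝ) < ((q + 2 : ℕ) : ℝ) := by positivity
  rw [mul_one_div, div_le_iff₀ hq0]
  rw [div_lt_iff₀ hg] at hq
  push_cast
  have h1 : θ ≤ |θ| := le_abs_self θ
  nlinarith

/-- From `K / N` to `K N^(-θ)`. -/
lemma tail_weaken {K θ : ℝ} (hK : 0 ≤ K) (hθ : θ ≤ 1) {N : ℕ} (hN : 1 ≤ N) :
    K / N ≤ K * (N : ℝ) ^ (-θ) := by
  have hN1 : (1 : ℝ) ≤ N := by exact_mod_cast hN
  rw [div_eq_mul_inv]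
  refine mul_le_mul_of_nonneg_left ?_ hK
  rw [← Real.rpow_neg_one]
  exact Real.rpow_le_rpow_of_exponent_le hN1 (by linarith)

lemma tj_mul_ge (β : NNReal) (j : ℕ) : (β : ℝ) / 2 ≤ ((tj j * β : NNReal) : ℝ) := by
  have := tj_ge j
  have hβ0 : (0 : ℝ) ≤ β := β.2
  push_cast
  nlinarith

lemma tj_mul_le (β : NNReal) (j : ℕ) : ((tj j * β : NNReal) : ℝ) ≤ β := by
  have := (tj_lt j).le
  have h2 : (tj j : ℝ) ≤ 1 := this
  have hβ0 : (0 : ℝ) ≤ β := β.2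
  push_cast
  nlinarith

/-- **Power law**, bond percolation. -/
theorem bond_tail_q (hdct : S_dctL) (hbk : S_bkT) {s θ : ℝ} (hs1 : 1 < s)
    (hθ0 : 0 < θ) (hθ : θ < (2 - s) / (1 + s)) {β : NNReal} (hβ : 0 < β) :
    ∃ C : ℝ, ∀ (n : ℕ) (p : unitInterval), (p : ℝ) < 1 → theta n 1 p β s 1 = 0 →
      ∀ N : ℕ, 1 ≤ N → QQ (pm (prob (n := n) 1 p β s 1)) N ≤ C * (N : ℝ) ^ (-θ) := by
  have hβ0 : (0 : ℝ) < β := hβ
  have hs' : 0 < 1 + s := by linarith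
  rw [lt_div_iff₀ hs'] at hθ
  have hθ1 : θ < 1 / 2 := by nlinarith
  obtain ⟨q, hq, hq2⟩ := exists_q (θ := θ) (g := (2 - s) - θ * (1 + s)) (by linarith)
  obtain ⟨A0, _, hA0⟩ := boot_main_q hbk hs1 hθ0 hθ1 hq (by nlinarith) (b0 := (β : ℝ) / 2)
    (b1 := β) (by linarith) (by linarith)
  refine ⟨A0, fun n p hp hθ' N hN => ?_⟩
  refine tail_limit (prob (n := n) 1 p β s 1) (fun j => prob (n := n) 1 (pt p (tj j)) (tj j * β) s 1)
    (fun c => prob_tendsto hp β s c) (fun j => ?_)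
  obtain ⟨S, hS0, hS⟩ := hdct n s p β (tj j) hs1 (tj_lt j) hp hθ'
  obtain ⟨K, hK0, hK⟩ := chi_fin (pt p (tj j)) (tj j * β) hs1 S hS0 hS
  obtain ⟨hfin, htail⟩ := chi_tail hK0 hK
  exact hA0 n (pt p (tj j)) (tj j * β) (tj_mul_ge β j) (tj_mul_le β j) hfin
    ⟨K, fun N hN => (htail N hN).trans (tail_weaken hK0 (by linarith) hN)⟩ N hN

/-- **Power law**, site percolation. -/
theorem site_tail_q (hdct : S_dctSL) {s θ : ℝ} (hs1 : 1 < s)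
    (hθ0 : 0 < θ) (hθ : θ < 3 / 2 - s) {β : NNReal} (hβ : 0 < β) :
    ∃ C : ℝ, ∀ (n : ℕ) (a : unitInterval), theta n a 1 β s 1 = 0 →
      ∀ N : ℕ, 1 ≤ N → QQ (pm (prob (n := n) a 1 β s 1)) N ≤ C * (N : ℝ) ^ (-θ) := by
  have hβ0 : (0 : ℝ) < β := hβ
  have hθ1 : θ < 1 / 2 := by linarith
  obtain ⟨q, hq, hq2⟩ := exists_q (θ := θ) (g := 2 * (3 / 2 - s - θ)) (by linarith)
  obtain ⟨A0, _, hA0⟩ := boot_mainS_q hs1 hθ0 hθ1 hq (by nlinarith) (b0 := (β : ℝ) / 2)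
    (b1 := β) (by linarith) (by linarith)
  refine ⟨A0, fun n a hθ' N hN => ?_⟩
  refine tail_limit (prob (n := n) a 1 β s 1)
    (fun j => prob (n := n) (ta a (tj j)) 1 (tj j * β) s 1)
    (fun c => prob_tendstoS a β s c) (fun j => ?_)
  obtain ⟨S, hS0, hS⟩ := hdct n s a β (tj j) hs1 (tj_lt j) hθ'
  obtain ⟨K, hK0, hK⟩ := chi_finS (ta a (tj j)) (tj j * β) hs1 S hS0 hS
  obtain ⟨hfin, htail⟩ := chi_tail hK0 hK
  exact hA0 n (ta a (tj j)) 1 (tj j * β) (tj_mul_ge β j) (tj_mul_le β j) hfin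
    ⟨K, fun N hN => (htail N hN).trans (tail_weaken hK0 (by linarith) hN)⟩ N hN

end

end Pool.Agent.TH489.PL
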