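import Pool.Agent.TH489.PL.CT

set_option autoImplicit false

open MeasureTheory Set
open scoped ENNReal NNReal

/-!
# One step of the bootstrap
-/

namespace Pool.Agent.TH489.PL

open Pool.Agent.W783.PC

noncomputable section

variable {n : ℕ}

lemma kv_inj : Function.Injective (kv n) := by
  intro a b h
  have := congrArg Prod.fst h
  simpa [kv] using this

/-- Connection probabilities along the ray, using tightness. -/
lemma conn_bound (hbk : S_bkT) (p : unitInterval) (β : NNReal) (s : ℝ) {R M : ℕ} (hR : 1 ≤ R)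
    (hM : 1 ≤ M) {θ A : ℝ} (hθ0 : 0 ≤ θ) (hθ1 : θ < 1) (hA : 1 ≤ A)
    (hQ : ∀ N : ℕ, 1 ≤ N → QQ (pm (prob (n := n) 1 p β s 1)) N ≤ A * (N : ℝ) ^ (-θ))
    (hMR : 3 * R * (A * (M : ℝ) ^ (-θ)) / M ≤ 1 / 2) :
    ∑ k ∈ Finset.Ioc R (2 * R), (pm (prob (n := n) 1 p β s 1)).real {ω | Rch ω 0 (kv n k)} ≤
      2 * (A * ((2 * M : ℕ) : ℝ) ^ (1 - θ) / (1 - θ)) := by
  classical
  set μ := pm (prob (n := n) 1 p β s 1) with hμ
  set I : Finset (V n) := (Finset.range (2 * R + 1)).image (kv n) with hI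
  have hIc : I.card = 2 * R + 1 := by
    rw [hI, Finset.card_image_of_injective _ kv_inj, Finset.card_range]
  have hMR0 : (0 : ℝ) < M := by exact_mod_cast hM
  have h1 : ∑ k ∈ Finset.Ioc R (2 * R), μ.real {ω | Rch ω 0 (kv n k)} ≤
      ∑ y ∈ I, μ.real {ω | Rch ω 0 y} := by
    rw [hI, Finset.sum_image (fun a _ b _ h => kv_inj h)]
    refine Finset.sum_le_sum_of_subset_of_nonneg ?_ (fun _ _ _ => measureReal_nonneg)
    intro k hk
    rw [Finset.mem_Ioc] at hk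
    rw [Finset.mem_range]
    omega
  refine h1.trans ?_
  rw [hμ, sum_Rch, ← hμ]
  have hmax : μ.real {ω | ∃ v ∈ I, M ≤ kk I v ω} ≤ 1 / 2 := by
    refine (max_bound 1 p β s I hM).trans (le_trans ?_ hMR)
    rw [hIc]
    refine div_le_div_of_nonneg_right ?_ hMR0.le
    have hQM := hQ M hM
    have hQ0 : 0 ≤ QQ (pm (prob (n := n) 1 p β s 1)) M := measureReal_nonneg
    have hR' : (1 : ℝ) ≤ R := by exact_mod_cast hR
    push_cast
    have hA0 : 0 ≤ A * (M : ℝ) ^ (-θ) := hQ0.trans hQM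
    calc (2 * (R : ℝ) + 1) * QQ (pm (prob (n := n) 1 p β s 1)) M
        ≤ (2 * (R : ℝ) + 1) * (A * (M : ℝ) ^ (-θ)) := by gcongr
      _ ≤ 3 * R * (A * (M : ℝ) ^ (-θ)) := by nlinarith
  have hhalf : ∀ j, μ.real {ω | j + 2 * M ≤ kk I 0 ω} ≤ μ.real {ω | j ≤ kk I 0 ω} * (1 / 2) := by
    intro j
    have h := hbk n (prob (n := n) 1 p β s 1) (fun v => rfl) (EdI 1) I 0 M j hM
    refine le_trans (le_trans (le_of_eq ?_) h) ?_
    · rfl
    · refine mul_le_mul_of_nonneg_left (le_trans (le_of_eq ?_) hmax) measureReal_nonneg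
      rfl
  refine (half_sum (fun j => measureReal_nonneg) hhalf).trans ?_
  refine mul_le_mul_of_nonneg_left ?_ (by norm_num)
  calc ∑ j ∈ Finset.Ioc 0 (2 * M), μ.real {ω | j ≤ kk I 0 ω}
      ≤ ∑ j ∈ Finset.Ioc 0 (2 * M), A * (j : ℝ) ^ (-θ) := by
        refine Finset.sum_le_sum fun j hj => ?_
        rw [Finset.mem_Ioc] at hj
        refine le_trans ?_ (hQ j hj.1)
        refine measureReal_mono ?_ (measure_ne_top _ _)
        intro ω hω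
        have hω' : j ≤ kk I 0 ω := hω
        exact le_trans (by exact_mod_cast hω') (kk_le_cN I 0 ω)
    _ = A * ∑ j ∈ Finset.Ioc 0 (2 * M), (j : ℝ) ^ (-θ) := by rw [Finset.mul_sum]
    _ ≤ A * (((2 * M : ℕ) : ℝ) ^ (1 - θ) / (1 - θ)) := by
        refine mul_le_mul_of_nonneg_left ?_ (by linarith)
        exact sum_rpow_le hθ0 hθ1 _
    _ = _ := by ring

lemma lrp_lower (β : NNReal) {s : ℝ} (hs : 0 ≤ s) {k : ℕ} (hk : 1 ≤ k) :
    (1 - Real.exp (-(β : ℝ))) * (k : ℝ) ^ (-s) ≤ lrp β s k := by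
  show (1 - Real.exp (-(β : ℝ))) * (k : ℝ) ^ (-s) ≤ 1 - Real.exp (-((β : ℝ) * (k : ℝ) ^ (-s)))
  set t : ℝ := (k : ℝ) ^ (-s) with ht
  have hk' : (1 : ℝ) ≤ k := by exact_mod_cast hk
  have t0 : 0 ≤ t := Real.rpow_nonneg (by linarith) _
  have t1 : t ≤ 1 := Real.rpow_le_one_of_one_le_of_nonpos hk' (by linarith)
  have hconv := convexOn_exp.2 (mem_univ (0 : ℝ)) (mem_univ (-(β : ℝ)))
    (show 0 ≤ 1 - t by linarith) t0 (by ring)
  simp only [smul_eq_mul, mul_zero, zero_add, Real.exp_zero, mul_one] at hconv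
  have e : t * -(β : ℝ) = -((β : ℝ) * t) := by ring
  rw [e] at hconv
  linarith

lemma lrp_upper (β : NNReal) {s : ℝ} (hs : 0 ≤ s) {k : ℕ} (hk : 1 ≤ k) :
    Real.exp (-(β : ℝ)) ≤ 1 - lrp β s k := by
  show Real.exp (-(β : ℝ)) ≤ 1 - (1 - Real.exp (-((β : ℝ) * (k : ℝ) ^ (-s))))
  have hk' : (1 : ℝ) ≤ k := by exact_mod_cast hk
  have t1 : (k : ℝ) ^ (-s) ≤ 1 := Real.rpow_le_one_of_one_le_of_nonpos hk' (by linarith)
  rw [sub_sub_cancel, Real.exp_le_exp]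
  have : (β : ℝ) * (k : ℝ) ^ (-s) ≤ β := mul_le_of_le_one_right β.2 t1
  linarith

lemma sg_le (β : NNReal) {s : ℝ} (hs : 0 ≤ s) {R : ℕ} (hR : 1 ≤ R) :
    sg β s R ≤ β * (R : ℝ) ^ (1 - s) := by
  have hR' : (0 : ℝ) < R := by exact_mod_cast hR
  unfold sg
  calc ∑ k ∈ Finset.Ioc R (2 * R), (lrp β s k : ℝ)
      ≤ ∑ k ∈ Finset.Ioc R (2 * R), (β : ℝ) * (R : ℝ) ^ (-s) := by
        refine Finset.sum_le_sum fun k hk => ?_
        rw [Finset.mem_Ioc] at hk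
        refine (Pool.Agent.W402.PC.lrp_le β s k).trans ?_
        refine mul_le_mul_of_nonneg_left ?_ β.2
        refine Real.rpow_le_rpow_of_nonpos hR' ?_ (by linarith)
        exact_mod_cast hk.1.le
    _ = β * (R : ℝ) ^ (1 - s) := by
        rw [Finset.sum_const, nsmul_eq_mul, Nat.card_Ioc]
        have : ((2 * R - R : ℕ) : ℝ) = R := by congr 1; omega
        rw [this, sub_eq_add_neg, Real.rpow_add hR', Real.rpow_one]
        ring

/-- The constant. -/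
def cB (β : ℝ) : ℝ := Real.exp β / (1 - Real.exp (-β))

lemma cB_pos {β : ℝ} (h : 0 < β) : 0 < cB β :=
  div_pos (Real.exp_pos _) (by rw [sub_pos, Real.exp_lt_one_iff]; linarith)

/-- Pairs of large clusters which are not connected. -/
lemma ghost_bound (htilt : S_tilt) (a p : unitInterval) {β : NNReal} (hβ : 0 < β) {s : ℝ}
    (hs : 0 ≤ s) {R : ℕ} (hR : 1 ≤ R) (hfin : Fin0 (pm (prob (n := n) a p β s 1)))
    {θ A : ℝ} (hθ0 : 0 < θ) (hθ1 : θ < 1) (hA : 1 ≤ A)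
    (hQ : ∀ N : ℕ, 1 ≤ N → QQ (pm (prob (n := n) a p β s 1)) N ≤ A * (N : ℝ) ^ (-θ))
    {N : ℕ} (hN : 2 ≤ N) :
    ∑ k ∈ Finset.Ioc R (2 * R), (pm (prob (n := n) a p β s 1)).real (Dk n N k) ≤
      ((2 * R : ℕ) : ℝ) ^ s * cB β * (cX θ * Real.sqrt A *
        (1 / N + Real.sqrt (β * (R : ℝ) ^ (1 - s)) * (N : ℝ) ^ (-((1 + θ) / 2)))) := by
  set μ := pm (prob (n := n) a p β s 1) with hμ
  have hβ' : (0 : ℝ) < β := hβ
  have h1 := two_ghost (n := n) a p β s hN hR hfin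
    (X_bound htilt a p β s hR hθ0 hθ1 hA hQ (by omega : 1 ≤ N))
  have hNR : (0 : ℝ) < N := by exact_mod_cast (by omega : 0 < N)
  have hcX := cX_pos hθ0 hθ1
  have h2 : cX θ * Real.sqrt A * (1 / N + Real.sqrt (sg β s R) * (N : ℝ) ^ (-((1 + θ) / 2))) ≤
      cX θ * Real.sqrt A *
        (1 / N + Real.sqrt (β * (R : ℝ) ^ (1 - s)) * (N : ℝ) ^ (-((1 + θ) / 2))) := by
    have := Real.sqrt_le_sqrt (sg_le β hs hR)
    gcongr
  set X := cX θ * Real.sqrt A *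
        (1 / N + Real.sqrt (β * (R : ℝ) ^ (1 - s)) * (N : ℝ) ^ (-((1 + θ) / 2))) with hX
  have h3 := h1.trans h2
  have h2R : (1 : ℝ) ≤ ((2 * R : ℕ) : ℝ) := by exact_mod_cast (by omega : 1 ≤ 2 * R)
  have hexp : 0 < 1 - Real.exp (-(β : ℝ)) := by
    rw [sub_pos, Real.exp_lt_one_iff]; linarith
  -- lower bound of the weights
  have hw : ∀ k ∈ Finset.Ioc R (2 * R), (1 - Real.exp (-(β : ℝ))) * Real.exp (-(β : ℝ)) *
      ((2 * R : ℕ) : ℝ) ^ (-s) ≤ lrp β s k * (1 - lrp β s k) := by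
    intro k hk
    rw [Finset.mem_Ioc] at hk
    have hk1 : 1 ≤ k := by omega
    have e1 := lrp_lower β hs hk1
    have e2 := lrp_upper β hs hk1
    have hk0 : (0 : ℝ) < k := by exact_mod_cast hk1
    have e3 : ((2 * R : ℕ) : ℝ) ^ (-s) ≤ (k : ℝ) ^ (-s) :=
      Real.rpow_le_rpow_of_nonpos hk0 (by exact_mod_cast hk.2) (by linarith)
    calc (1 - Real.exp (-(β : ℝ))) * Real.exp (-(β : ℝ)) * ((2 * R : ℕ) : ℝ) ^ (-s)
        = ((1 - Real.exp (-(β : ℝ))) * ((2 * R : ℕ) : ℝ) ^ (-s)) * Real.exp (-(β : ℝ)) := by ring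
      _ ≤ ((1 - Real.exp (-(β : ℝ))) * (k : ℝ) ^ (-s)) * Real.exp (-(β : ℝ)) := by gcongr
      _ ≤ lrp β s k * (1 - lrp β s k) :=
          mul_le_mul e1 e2 (Real.exp_pos _).le (lrp β s k).2.1
  have h4 : (1 - Real.exp (-(β : ℝ))) * Real.exp (-(β : ℝ)) * ((2 * R : ℕ) : ℝ) ^ (-s) *
      ∑ k ∈ Finset.Ioc R (2 * R), μ.real (Dk n N k) ≤ X := by
    rw [Finset.mul_sum]
    exact (Finset.sum_le_sum fun k hk => mul_le_mul_of_nonneg_right (hw k hk)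
      measureReal_nonneg).trans h3
  have h5 : ((2 * R : ℕ) : ℝ) ^ s * cB β * ((1 - Real.exp (-(β : ℝ))) * Real.exp (-(β : ℝ)) *
      ((2 * R : ℕ) : ℝ) ^ (-s)) = 1 := by
    have e1 : ((2 * R : ℕ) : ℝ) ^ s * ((2 * R : ℕ) : ℝ) ^ (-s) = 1 := by
      rw [← Real.rpow_add (by linarith)]; simp
    have e2 : Real.exp (β : ℝ) * Real.exp (-(β : ℝ)) = 1 := by
      rw [← Real.exp_add]; simp
    unfold cB
    calc ((2 * R : ℕ) : ℝ) ^ s * (Real.exp (β : ℝ) / (1 - Real.exp (-(β : ℝ)))) *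
        ((1 - Real.exp (-(β : ℝ))) * Real.exp (-(β : ℝ)) * ((2 * R : ℕ) : ℝ) ^ (-s))
        = (((2 * R : ℕ) : ℝ) ^ s * ((2 * R : ℕ) : ℝ) ^ (-s)) *
          (Real.exp (β : ℝ) * Real.exp (-(β : ℝ))) *
          ((1 - Real.exp (-(β : ℝ))) / (1 - Real.exp (-(β : ℝ)))) := by ring
      _ = 1 := by rw [e1, e2, div_self hexp.ne']; ring
  have h6 : 0 ≤ ((2 * R : ℕ) : ℝ) ^ s * cB β :=
    mul_nonneg (Real.rpow_nonneg (by linarith) _) (cB_pos hβ').le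
  calc ∑ k ∈ Finset.Ioc R (2 * R), μ.real (Dk n N k)
      = ((2 * R : ℕ) : ℝ) ^ s * cB β * ((1 - Real.exp (-(β : ℝ))) * Real.exp (-(β : ℝ)) *
        ((2 * R : ℕ) : ℝ) ^ (-s) * ∑ k ∈ Finset.Ioc R (2 * R), μ.real (Dk n N k)) := by
        rw [← mul_assoc, h5, one_mul]
    _ ≤ ((2 * R : ℕ) : ℝ) ^ s * cB β * X := mul_le_mul_of_nonneg_left h4 h6

/-- One step, bond percolation. -/
theorem step_bond (htilt : S_tilt) (hbk : S_bkT) (p : unitInterval) {β : NNReal} (hβ : 0 < β)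
    {s : ℝ} (hs : 0 ≤ s) {R M : ℕ} (hR : 1 ≤ R) (hM : 1 ≤ M)
    (hfin : Fin0 (pm (prob (n := n) 1 p β s 1)))
    {θ A : ℝ} (hθ0 : 0 < θ) (hθ1 : θ < 1) (hA : 1 ≤ A)
    (hQ : ∀ N : ℕ, 1 ≤ N → QQ (pm (prob (n := n) 1 p β s 1)) N ≤ A * (N : ℝ) ^ (-θ))
    (hMR : 3 * R * (A * (M : ℝ) ^ (-θ)) / M ≤ 1 / 2) {N : ℕ} (hN : 2 ≤ N) :
    R * QQ (pm (prob (n := n) 1 p β s 1)) N ^ 2 ≤
      2 * (A * ((2 * M : ℕ) : ℝ) ^ (1 - θ) / (1 - θ)) +
      ((2 * R : ℕ) : ℝ) ^ s * cB β * (cX θ * Real.sqrt A *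
        (1 / N + Real.sqrt (β * (R : ℝ) ^ (1 - s)) * (N : ℝ) ^ (-((1 + θ) / 2)))) := by
  have h : ∑ k ∈ Finset.Ioc R (2 * R), QQ (pm (prob (n := n) 1 p β s 1)) N ^ 2 ≤
      ∑ k ∈ Finset.Ioc R (2 * R), ((pm (prob (n := n) 1 p β s 1)).real {ω | Rch ω 0 (kv n k)} +
      (pm (prob (n := n) 1 p β s 1)).real (Dk n N k)) :=
    Finset.sum_le_sum fun k _ => step1 1 p β s N k
  rw [Finset.sum_const, nsmul_eq_mul, Nat.card_Ioc, Finset.sum_add_distrib] at h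
  have e : ((2 * R - R : ℕ) : ℝ) = R := by congr 1; omega
  rw [e] at h
  exact h.trans (add_le_add (conn_bound hbk p β s hR hM hθ0.le hθ1 hA hQ hMR)
    (ghost_bound htilt 1 p hβ hs hR hfin hθ0 hθ1 hA hQ hN))

end

end Pool.Agent.TH489.PL
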