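import Pool.Agent.TH489.PL.MT

set_option autoImplicit false

open MeasureTheory Set
open scoped ENNReal NNReal

/-!
# A two-ghost inequality for the long bonds
-/

namespace Pool.Agent.TH489.PL

open Pool.Agent.W783.PC
open Pool.Agent.W424.PC (upd upd_self upd_ne upd_of measurable_upd pm_split)

noncomputable section

/-- Resampling a coordinate. -/
lemma pm_eq_split {ι : Type} (r : ι → unitInterval) (e : ι) :
    pm r = ENNReal.ofReal (r e) • (pm r).map (upd e true) +
      ENNReal.ofReal (1 - r e) • (pm r).map (upd e false) := by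
  ext A hA
  have h := pm_split Pool.Agent.W45.PC.s_indep r hA e
  have h0 : (0 : ℝ) ≤ r e := (r e).2.1
  have h1 : (0 : ℝ) ≤ 1 - r e := by linarith [(r e).2.2]
  rw [Measure.add_apply, Measure.smul_apply, Measure.smul_apply,
    Measure.map_apply (measurable_upd _ _) hA, Measure.map_apply (measurable_upd _ _) hA,
    ← ofReal_measureReal (μ := pm r) (s := A), h,
    ENNReal.ofReal_add (mul_nonneg h0 measureReal_nonneg) (mul_nonneg h1 measureReal_nonneg),
    ENNReal.ofReal_mul h0, ENNReal.ofReal_mul h1, ofReal_measureReal, ofReal_measureReal]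
  rfl

lemma lint_split {ι : Type} (r : ι → unitInterval) (e : ι) {f : (ι → Bool) → ℝ≥0∞}
    (hf : Measurable f) : ∫⁻ ω, f ω ∂(pm r) =
      ENNReal.ofReal (r e) * ∫⁻ ω, f (upd e true ω) ∂(pm r) +
      ENNReal.ofReal (1 - r e) * ∫⁻ ω, f (upd e false ω) ∂(pm r) := by
  conv_lhs => rw [pm_eq_split r e]
  rw [lintegral_add_measure, lintegral_smul_measure, lintegral_smul_measure,
    lintegral_map hf (measurable_upd _ _), lintegral_map hf (measurable_upd _ _)]
  rfl

variable {n : ℕ}

lemma Rch_mono {ω ω' : Cfg n} (h : ∀ c, ω c = true → ω' c = true) {x y : V n}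
    (hr : Rch ω x y) : Rch ω' x y := by
  refine SimpleGraph.Reachable.mono ?_ hr
  intro u v huv
  obtain ⟨h1, h2, h3, h4, h5, h6, h7⟩ := huv
  exact ⟨h1, h2, h3, h4, h _ h5, h _ h6, h _ h7⟩

open scoped Classical in
lemma iR_mono {ω ω' : Cfg n} {x y x' y' : V n} (h : Rch ω x y → Rch ω' x' y') :
    iR ω x y ≤ iR ω' x' y' := by
  unfold iR
  by_cases h1 : Rch ω x y
  · rw [if_pos h1, if_pos (h h1)]
  · rw [if_neg h1]; exact zero_le

open scoped Classical in
lemma iR_one {ω : Cfg n} {x y : V n} (h : Rch ω x y) : iR ω x y = 1 := if_pos h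

open scoped Classical in
lemma iR_zero {ω : Cfg n} {x y : V n} (h : ¬ Rch ω x y) : iR ω x y = 0 := if_neg h

open scoped Classical in
lemma iT_one {k : ℕ} {ω : Cfg n} {z x : V n} (h : Rch ω z x ∨ Rch ω (z + kv n k) x) :
    iT k ω z x = 1 := if_pos h

open scoped Classical in
lemma iT_zero {k : ℕ} {ω : Cfg n} {z x : V n} (h : ¬ (Rch ω z x ∨ Rch ω (z + kv n k) x)) :
    iT k ω z x = 0 := if_neg h

lemma cN_mono {ω ω' : Cfg n} (h : ∀ c, ω c = true → ω' c = true) (x : V n) :
    cN ω x ≤ cN ω' x := ENNReal.tsum_le_tsum fun _ => iR_mono (Rch_mono h)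

lemma sum_iR_wt (N : ℕ) (ω : Cfg n) (y : V n) :
    ∑' x, iR ω y x * wt N ω x = cN ω y * wt N ω y := by
  unfold cN
  rw [← ENNReal.tsum_mul_right]
  refine tsum_congr fun x => ?_
  by_cases h : Rch ω y x
  · have : wt N ω x = wt N ω y := by unfold wt; rw [cN_congr h]
    rw [this]
  · rw [iR_zero h, zero_mul, zero_mul]

lemma cN_wt_le (N : ℕ) (ω : Cfg n) (y : V n) : cN ω y * wt N ω y ≤ 1 := by
  unfold wt
  calc cN ω y * (max (cN ω y) N)⁻¹ ≤ max (cN ω y) N * (max (cN ω y) N)⁻¹ := by
        gcongr; exact le_max_left _ _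
    _ ≤ 1 := ENNReal.mul_inv_le_one _

lemma cN_wt_eq {N : ℕ} (hN : 1 ≤ N) {ω : Cfg n} {y : V n} (h : (N : ℝ≥0∞) ≤ cN ω y)
    (hf : cN ω y ≠ ∞) : cN ω y * wt N ω y = 1 := by
  unfold wt
  rw [max_eq_left h]
  refine ENNReal.mul_inv_cancel ?_ hf
  have : (1 : ℝ≥0∞) ≤ N := by exact_mod_cast hN
  intro h0
  rw [h0] at h
  exact absurd (this.trans h) (by simp)

lemma Rch_closed {ω : Cfg n} {x y : V n} (hx : ω (Sum.inl x) = false) : Rch ω x y ↔ y = x := by
  constructor
  · intro h
    by_contra hne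
    obtain ⟨w⟩ := h
    cases w with
    | nil => exact hne rfl
    | cons h' _ =>
      have := h'.2.2.2.2.1
      rw [hx] at this
      exact absurd this (by simp)
  · rintro rfl; exact Rch_refl _ _

lemma site_open {N : ℕ} (hN : 2 ≤ N) {ω : Cfg n} {x : V n} (h : (N : ℝ≥0∞) ≤ cN ω x) :
    ω (Sum.inl x) = true := by
  by_contra hx
  have hx' : ω (Sum.inl x) = false := by simpa using hx
  have : cN ω x = ({x} : Finset (V n)).card := cN_fin fun y => by
    rw [Rch_closed hx', Finset.mem_singleton]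
  rw [this, Finset.card_singleton] at h
  have h2 : N ≤ 1 := by exact_mod_cast h
  omega

/-- Both end points of the bond of length `k` at the origin are in different clusters of size at
least `N`. -/
def Dk (n N k : ℕ) : Set (Cfg n) :=
  {ω | ¬ Rch ω 0 (kv n k) ∧ (N : ℝ≥0∞) ≤ cN ω 0 ∧ (N : ℝ≥0∞) ≤ cN ω (kv n k)}

lemma meas_Dk (N k : ℕ) : MeasurableSet (Dk n N k) := by
  refine (meas_Rch _ _).compl.inter (MeasurableSet.inter ?_ ?_)
  · exact measurableSet_le measurable_const (measurable_cN _)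
  · exact measurableSet_le measurable_const (measurable_cN _)

lemma kv_ne {k : ℕ} (hk : 2 ≤ k) : (0 : V n) ≠ kv n k := by
  intro h
  have := congrArg Prod.fst h
  simp [kv] at this
  omega

lemma kv_Lg {k : ℕ} (hk : 2 ≤ k) (z : V n) : Lg 1 z (z + kv n k) := by
  refine ⟨by simp [kv], by simp, ?_⟩
  simp [kv]
  omega

lemma kv_mem {k : ℕ} (hk : 2 ≤ k) (z : V n) : s(z, z + kv n k) ∈ EdI (n := n) 1 :=
  Or.inr ⟨z, z + kv n k, rfl, kv_Lg hk z⟩

lemma prob_bd {k : ℕ} (hk : 2 ≤ k) (a p : unitInterval) (β : NNReal) (s : ℝ) (z : V n) :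
    prob a p β s 1 (bd k z) = lrp β s k := by
  have h1 : ¬ isNN s(z, z + kv n k) := by
    rw [Pool.Agent.W599.PC.Gr2.isNN_mk]
    intro h
    unfold NN at h
    simp [kv] at h
    omega
  have h2 : isLg 1 s(z, z + kv n k) := ⟨z, z + kv n k, rfl, kv_Lg hk z⟩
  unfold bd prob
  simp only [h1, h2, if_true, if_false]
  congr 1
  simp [len, kv]

/-- Opening a bond does not change the union of the clusters of its end points. -/
lemma touch_iff {k : ℕ} (ω : Cfg n) (x : V n) :
    (Rch (upd (bd k 0) true ω) 0 x ∨ Rch (upd (bd k 0) true ω) (0 + kv n k) x) ↔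
      (Rch (upd (bd k 0) false ω) 0 x ∨ Rch (upd (bd k 0) false ω) (0 + kv n k) x) := by
  have hm : ∀ c, upd (bd k (0 : V n)) false ω c = true → upd (bd k (0 : V n)) true ω c = true := by
    intro c hc
    by_cases h : c = bd k 0
    · subst h; rw [upd_self] at hc; exact absurd hc (by simp)
    · rw [upd_ne h] at hc ⊢; exact hc
  constructor
  · have key : ∀ u v : V n, Rch (upd (bd k 0) true ω) u v →
        (Rch (upd (bd k 0) false ω) 0 u ∨ Rch (upd (bd k 0) false ω) (0 + kv n k) u) →
        (Rch (upd (bd k 0) false ω) 0 v ∨ Rch (upd (bd k 0) false ω) (0 + kv n k) v) := by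
      intro u v huv
      obtain ⟨w⟩ := huv
      induction w with
      | nil => exact id
      | cons hadj _ ih =>
        rename_i u v' w' _
        intro hu
        refine ih ?_
        obtain ⟨h1, h2, h3, h4, h5, h6, h7⟩ := hadj
        by_cases he : (Sum.inr s(u, v') : Ix n) = bd k 0
        · unfold bd at he
          have he' : s(u, v') = s((0 : V n), 0 + kv n k) := Sum.inr_injective he
          rw [Sym2.eq_iff] at he'
          rcases he' with ⟨_, h'⟩ | ⟨_, h'⟩
          · right; rw [h']; exact Rch_refl _ _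
          · left; rw [h']; exact Rch_refl _ _
        · have hadj' : Rch (upd (bd k 0) false ω) u v' := by
            refine SimpleGraph.Adj.reachable ?_
            refine ⟨h1, h2, h3, h4, ?_, ?_, ?_⟩
            · rw [upd_ne (by unfold bd; simp)] at h5 ⊢; exact h5
            · rw [upd_ne (by unfold bd; simp)] at h6 ⊢; exact h6
            · rw [upd_ne he] at h7 ⊢; exact h7
          rcases hu with hu | hu
          · exact Or.inl (hu.trans hadj')
          · exact Or.inr (hu.trans hadj')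
    rintro (h | h)
    · exact key _ _ h (Or.inl (Rch_refl _ _))
    · exact key _ _ h (Or.inr (Rch_refl _ _))
  · rintro (h | h)
    · exact Or.inl (Rch_mono hm h)
    · exact Or.inr (Rch_mono hm h)

lemma upd_mono (k : ℕ) (ω : Cfg n) :
    ∀ c, upd (bd k (0 : V n)) false ω c = true → upd (bd k (0 : V n)) true ω c = true := by
  intro c hc
  by_cases h : c = bd k 0
  · subst h; rw [upd_self] at hc; exact absurd hc (by simp)
  · rw [upd_ne h] at hc ⊢; exact hc

lemma upd_le (k : ℕ) (ω : Cfg n) :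
    ∀ c, upd (bd k (0 : V n)) false ω c = true → ω c = true := by
  intro c hc
  by_cases h : c = bd k 0
  · subst h; rw [upd_self] at hc; exact absurd hc (by simp)
  · rw [upd_ne h] at hc; exact hc

lemma TT_mono (N k : ℕ) (ω : Cfg n) :
    TT N k (upd (bd k 0) true ω) ≤ TT N k (upd (bd k 0) false ω) := by
  unfold TT
  refine ENNReal.tsum_le_tsum fun x => ?_
  rw [iT_congr (touch_iff ω x)]
  gcongr
  unfold wt
  gcongr
  exact cN_mono (upd_mono k ω) x

lemma TT_D {N k : ℕ} (hN : 2 ≤ N) (hk : 2 ≤ k) {ω : Cfg n}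
    (hD : upd (bd k 0) false ω ∈ Dk n N k) (h0 : cN (upd (bd k 0) false ω) 0 ≠ ∞)
    (h1 : cN (upd (bd k 0) false ω) (kv n k) ≠ ∞) :
    TT N k (upd (bd k 0) true ω) + 1 ≤ TT N k (upd (bd k 0) false ω) := by
  obtain ⟨hd, ha, hb⟩ := hD
  have s0 := site_open hN ha
  have s1 := site_open hN hb
  have hadj : Rch (upd (bd k 0) true ω) 0 (kv n k) := by
    refine SimpleGraph.Adj.reachable ?_
    refine ⟨kv_ne hk, mem_univ _, mem_univ _, ?_, ?_, ?_, ?_⟩
    · have := kv_mem hk (0 : V n)
      rwa [zero_add] at this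
    · exact upd_mono k ω _ s0
    · exact upd_mono k ω _ s1
    · have : (Sum.inr s((0 : V n), kv n k) : Ix n) = bd k 0 := by unfold bd; rw [zero_add]
      rw [this, upd_self]
  have t1 : TT N k (upd (bd k 0) true ω) ≤ 1 := by
    have : TT N k (upd (bd k 0) true ω) = ∑' x, iR (upd (bd k 0) true ω) 0 x *
        wt N (upd (bd k 0) true ω) x := by
      unfold TT
      refine tsum_congr fun x => ?_
      congr 1
      by_cases h : Rch (upd (bd k 0) true ω) 0 x
      · rw [iT_one (Or.inl h), iR_one h]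
      · rw [iR_zero h, iT_zero]
        rintro (h' | h')
        · exact h h'
        · rw [zero_add] at h'; exact h (hadj.trans h')
    rw [this, sum_iR_wt]
    exact cN_wt_le _ _ _
  have t2 : TT N k (upd (bd k 0) false ω) = 1 + 1 := by
    have : TT N k (upd (bd k 0) false ω) = ∑' x, (iR (upd (bd k 0) false ω) 0 x *
        wt N (upd (bd k 0) false ω) x + iR (upd (bd k 0) false ω) (kv n k) x *
        wt N (upd (bd k 0) false ω) x) := by
      unfold TT
      refine tsum_congr fun x => ?_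
      rw [← add_mul]
      congr 1
      by_cases h : Rch (upd (bd k 0) false ω) 0 x
      · have h' : ¬ Rch (upd (bd k 0) false ω) (kv n k) x := fun h' => hd (h.trans h'.symm)
        rw [iT_one (Or.inl h), iR_one h, iR_zero h', add_zero]
      · by_cases h' : Rch (upd (bd k 0) false ω) (kv n k) x
        · rw [iT_one (Or.inr (by rwa [zero_add])), iR_one h', iR_zero h, zero_add]
        · rw [iR_zero h, iR_zero h', add_zero, iT_zero]
          rintro (h'' | h'')
          · exact h h''
          · rw [zero_add] at h''; exact h' h''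
    rw [this, ENNReal.tsum_add, sum_iR_wt, sum_iR_wt, cN_wt_eq (by omega) ha h0,
      cN_wt_eq (by omega) hb h1]
  rw [t2]
  gcongr

lemma TT_le_two (N k : ℕ) (ω : Cfg n) : TT N k ω ≤ 2 := by
  have : TT N k ω ≤ ∑' x, (iR ω 0 x * wt N ω x + iR ω (0 + kv n k) x * wt N ω x) := by
    unfold TT
    refine ENNReal.tsum_le_tsum fun x => ?_
    rw [← add_mul]
    gcongr
    by_cases h : Rch ω 0 x
    · rw [iT_one (Or.inl h), iR_one h]; exact le_self_add
    · by_cases h' : Rch ω (0 + kv n k) x
      · rw [iT_one (Or.inr h'), iR_one h']; exact le_add_self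
      · rw [iT_zero (by rintro (h'' | h''); exacts [h h'', h' h''])]; exact zero_le
  refine this.trans ?_
  rw [ENNReal.tsum_add, sum_iR_wt, sum_iR_wt]
  calc _ ≤ (1 : ℝ≥0∞) + 1 := add_le_add (cN_wt_le _ _ _) (cN_wt_le _ _ _)
    _ = 2 := by norm_num

lemma D_upd {N k : ℕ} (hN : 2 ≤ N) (hk : 2 ≤ k) {ω : Cfg n} (hD : ω ∈ Dk n N k) :
    upd (bd k 0) false ω ∈ Dk n N k := by
  have hc : ω (bd k 0) = false := by
    by_contra hc
    have hc' : ω (bd k 0) = true := by simpa using hc
    obtain ⟨hd, ha, hb⟩ := hD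
    refine hd (SimpleGraph.Adj.reachable ?_)
    refine ⟨kv_ne hk, mem_univ _, mem_univ _, ?_, site_open hN ha, site_open hN hb, ?_⟩
    · have := kv_mem hk (0 : V n)
      rwa [zero_add] at this
    · have : (Sum.inr s((0 : V n), kv n k) : Ix n) = bd k 0 := by unfold bd; rw [zero_add]
      rw [this, hc']
  rw [upd_of hc]
  exact hD

/-- Weight of a closed bond. -/
def hc (q : unitInterval) (k : ℕ) (ω : Cfg n) : ℝ≥0∞ :=
  if ω (bd k 0) = true then 0 else ENNReal.ofReal q

/-- Weight of an open bond. -/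
def ho (q : unitInterval) (k : ℕ) (ω : Cfg n) : ℝ≥0∞ :=
  if ω (bd k 0) = true then ENNReal.ofReal (1 - q) else 0

lemma measurable_hc (q : unitInterval) (k : ℕ) : Measurable (hc (n := n) q k) :=
  Measurable.ite (Pool.Agent.W424.PC.meas_coord _ true) measurable_const measurable_const

lemma measurable_ho (q : unitInterval) (k : ℕ) : Measurable (ho (n := n) q k) :=
  Measurable.ite (Pool.Agent.W424.PC.meas_coord _ true) measurable_const measurable_const

/-- almost surely all clusters are finite -/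
def Fin0 (μ : Measure (Cfg n)) : Prop := ∀ᵐ ω ∂μ, ∀ x, cN ω x ≠ ∞

lemma tg1 (a p : unitInterval) (β : NNReal) (s : ℝ) {N k : ℕ} (hN : 2 ≤ N) (hk : 2 ≤ k)
    (hfin : Fin0 (pm (prob (n := n) a p β s 1))) :
    ENNReal.ofReal (lrp β s k * (1 - lrp β s k)) * pm (prob (n := n) a p β s 1) (Dk n N k) +
      ∫⁻ ω, ho (lrp β s k) k ω * TT N k ω ∂(pm (prob (n := n) a p β s 1)) ≤
      ∫⁻ ω, hc (lrp β s k) k ω * TT N k ω ∂(pm (prob (n := n) a p β s 1)) := by
  set μ := pm (prob (n := n) a p β s 1) with hμ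
  have hq := prob_bd hk a p β s (0 : V n)
  set q := lrp β s k with hqd
  have q0 : (0 : ℝ) ≤ q := q.2.1
  have q1 : (0 : ℝ) ≤ 1 - q := by linarith [q.2.2]
  rw [hμ, lint_split (prob (n := n) a p β s 1) (bd k 0) (f := fun ω => ho q k ω * TT N k ω)
      ((measurable_ho q k).mul (measurable_TT N k)),
    lint_split (prob (n := n) a p β s 1) (bd k 0) (f := fun ω => hc q k ω * TT N k ω)
      ((measurable_hc q k).mul (measurable_TT N k)), hq]
  have e1 : ∀ ω : Cfg n, ho q k (upd (bd k 0) true ω) = ENNReal.ofReal (1 - q) := fun ω => by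
    unfold ho; rw [upd_self]; simp
  have e2 : ∀ ω : Cfg n, ho q k (upd (bd k 0) false ω) = 0 := fun ω => by
    unfold ho; rw [upd_self]; simp
  have e3 : ∀ ω : Cfg n, hc q k (upd (bd k 0) true ω) = 0 := fun ω => by
    unfold hc; rw [upd_self]; simp
  have e4 : ∀ ω : Cfg n, hc q k (upd (bd k 0) false ω) = ENNReal.ofReal q := fun ω => by
    unfold hc; rw [upd_self]; simp
  simp only [e1, e2, e3, e4, zero_mul, lintegral_zero, mul_zero, add_zero, zero_add]
  rw [← hμ]
  have m1 : Measurable (fun ω : Cfg n => TT N k (upd (bd k 0) true ω)) :=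
    (measurable_TT N k).comp (measurable_upd _ _)
  have m0 : Measurable (fun ω : Cfg n => TT N k (upd (bd k 0) false ω)) :=
    (measurable_TT N k).comp (measurable_upd _ _)
  rw [lintegral_const_mul _ m1, lintegral_const_mul _ m0]
  have key : μ (Dk n N k) + ∫⁻ ω, TT N k (upd (bd k 0) true ω) ∂μ ≤
      ∫⁻ ω, TT N k (upd (bd k 0) false ω) ∂μ := by
    have hm : MeasurableSet {ω : Cfg n | upd (bd k 0) false ω ∈ Dk n N k} :=
      (measurable_upd _ _) (meas_Dk N k)
    calc μ (Dk n N k) + ∫⁻ ω, TT N k (upd (bd k 0) true ω) ∂μ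
        ≤ μ {ω : Cfg n | upd (bd k 0) false ω ∈ Dk n N k} +
            ∫⁻ ω, TT N k (upd (bd k 0) true ω) ∂μ := by
          gcongr
          exact fun ω h => D_upd hN hk h
      _ = ∫⁻ ω, ({ω : Cfg n | upd (bd k 0) false ω ∈ Dk n N k}.indicator (fun _ => 1) ω +
            TT N k (upd (bd k 0) true ω)) ∂μ := by
          rw [lintegral_add_right _ m1, lintegral_indicator_const hm, one_mul]
      _ ≤ _ := by
          refine lintegral_mono_ae ?_
          filter_upwards [hfin] with ω hω
          by_cases h : upd (bd k 0) false ω ∈ Dk n N k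
          · rw [Set.indicator_of_mem (show ω ∈ {ω : Cfg n | upd (bd k 0) false ω ∈ Dk n N k}
              from h), add_comm]
            refine TT_D hN hk h ?_ ?_
            · exact fun h' => hω 0 (top_le_iff.1 (h' ▸ cN_mono (upd_le k ω) 0))
            · exact fun h' => hω (kv n k) (top_le_iff.1 (h' ▸ cN_mono (upd_le k ω) (kv n k)))
          · rw [Set.indicator_of_notMem (show ω ∉ {ω : Cfg n | upd (bd k 0) false ω ∈ Dk n N k}
              from h), zero_add]
            exact TT_mono N k ω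
  rw [ENNReal.ofReal_mul q0]
  calc ENNReal.ofReal q * ENNReal.ofReal (1 - q) * μ (Dk n N k) +
        ENNReal.ofReal q * (ENNReal.ofReal (1 - q) * ∫⁻ ω, TT N k (upd (bd k 0) true ω) ∂μ)
      = ENNReal.ofReal q * ENNReal.ofReal (1 - q) *
        (μ (Dk n N k) + ∫⁻ ω, TT N k (upd (bd k 0) true ω) ∂μ) := by ring
    _ ≤ ENNReal.ofReal q * ENNReal.ofReal (1 - q) *
        ∫⁻ ω, TT N k (upd (bd k 0) false ω) ∂μ := by gcongr
    _ = _ := by ring

end

end Pool.Agent.TH489.PL
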