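import Pool.Agent.TH489.PL.TG

set_option autoImplicit false

open MeasureTheory Set
open scoped ENNReal NNReal

/-!
# A two-ghost inequality for the long bonds, second part
-/

namespace Pool.Agent.TH489.PL

open Pool.Agent.W783.PC
open Pool.Agent.W424.PC (upd upd_self upd_ne upd_of measurable_upd pm_split)

noncomputable section

variable {n : ℕ}

lemma sh_bd (k : ℕ) (z : V n) : sh z (bd k (0 : V n)) = bd k z := by
  unfold sh bd
  simp only [Sum.map_inr, Sym2.map_mk, zero_add]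
  rw [add_comm (kv n k) z]

lemma tr_bd (k : ℕ) (z : V n) (ω : Cfg n) : tr z ω (bd k 0) = ω (bd k z) := by
  unfold tr
  rw [sh_bd]

/-- The cluster of the origin is `B`. -/
def IsK (ω : Cfg n) (B : Finset (V n)) : Prop := ∀ y, Rch ω 0 y ↔ y ∈ B

lemma isK_iff (ω : Cfg n) (B : Finset (V n)) :
    IsK ω B ↔ cl (EdI 1) ω univ (0 : V n) = (B : Set (V n)) := by
  unfold IsK cl
  rw [Set.ext_iff]
  exact Iff.rfl

lemma sum_iT {k : ℕ} {ω : Cfg n} {B : Finset (V n)} (hB : IsK ω B) (f : V n → ℝ≥0∞) :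
    ∑' z, f z * iT k ω z 0 = ∑ z ∈ nb k B, f z := by
  classical
  rw [tsum_eq_sum (s := nb k B)]
  · refine Finset.sum_congr rfl fun z hz => ?_
    rw [iT_one, mul_one]
    unfold nb at hz
    rw [Finset.mem_union, Finset.mem_image] at hz
    rcases hz with hz | ⟨y, hy, rfl⟩
    · exact Or.inl ((hB z).2 hz).symm
    · right
      rw [sub_add_cancel]
      exact ((hB y).2 hy).symm
  · intro z hz
    rw [iT_zero, mul_zero]
    rintro (h | h)
    · exact hz (Finset.mem_union_left _ ((hB z).1 h.symm))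
    · refine hz (Finset.mem_union_right _ (Finset.mem_image.2 ⟨z + kv n k, (hB _).1 h.symm, ?_⟩))
      rw [add_sub_cancel_right]

/-- The sum over closed bonds. -/
def CC (β : NNReal) (s : ℝ) (R : ℕ) (ω : Cfg n) : ℝ≥0∞ :=
  ∑ k ∈ Finset.Ioc R (2 * R), ∑' z, hc (lrp β s k) k (tr z ω) * iT k ω z 0

/-- The sum over open bonds. -/
def OO (β : NNReal) (s : ℝ) (R : ℕ) (ω : Cfg n) : ℝ≥0∞ :=
  ∑ k ∈ Finset.Ioc R (2 * R), ∑' z, ho (lrp β s k) k (tr z ω) * iT k ω z 0

lemma hc_tr (q : unitInterval) (k : ℕ) (z : V n) (ω : Cfg n) :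
    hc q k (tr z ω) = ENNReal.ofReal (if ω (bd k z) = true then 0 else q) := by
  unfold hc
  rw [tr_bd]
  by_cases h : ω (bd k z) = true
  · rw [if_pos h, if_pos h, ENNReal.ofReal_zero]
  · rw [if_neg h, if_neg h]

lemma ho_tr (q : unitInterval) (k : ℕ) (z : V n) (ω : Cfg n) :
    ho q k (tr z ω) = ENNReal.ofReal (if ω (bd k z) = true then 1 - q else 0) := by
  unfold ho
  rw [tr_bd]
  by_cases h : ω (bd k z) = true
  · rw [if_pos h, if_pos h]
  · rw [if_neg h, if_neg h, ENNReal.ofReal_zero]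

lemma CC_le {β : NNReal} {s : ℝ} {R : ℕ} {ω : Cfg n} {B : Finset (V n)} (hB : IsK ω B) :
    CC β s R ω ≤ OO β s R ω + ENNReal.ofReal |SS β s R B ω| := by
  have c0 : ∀ k z, (0 : ℝ) ≤ (if ω (bd k z) = true then 0 else (lrp β s k : ℝ)) := by
    intro k z
    split_ifs
    · exact le_refl _
    · exact (lrp β s k).2.1
  have o0 : ∀ k z, (0 : ℝ) ≤ (if ω (bd k z) = true then 1 - (lrp β s k : ℝ) else 0) := by
    intro k z
    split_ifs
    · linarith [(lrp β s k).2.2]
    · exact le_refl _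
  have hC : CC β s R ω = ENNReal.ofReal (∑ k ∈ Finset.Ioc R (2 * R), ∑ z ∈ nb k B,
      (if ω (bd k z) = true then 0 else (lrp β s k : ℝ))) := by
    unfold CC
    rw [ENNReal.ofReal_sum_of_nonneg (fun k _ => Finset.sum_nonneg fun z _ => c0 k z)]
    refine Finset.sum_congr rfl fun k _ => ?_
    rw [sum_iT hB, ENNReal.ofReal_sum_of_nonneg (fun z _ => c0 k z)]
    exact Finset.sum_congr rfl fun z _ => hc_tr _ _ _ _
  have hO : OO β s R ω = ENNReal.ofReal (∑ k ∈ Finset.Ioc R (2 * R), ∑ z ∈ nb k B,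
      (if ω (bd k z) = true then 1 - (lrp β s k : ℝ) else 0)) := by
    unfold OO
    rw [ENNReal.ofReal_sum_of_nonneg (fun k _ => Finset.sum_nonneg fun z _ => o0 k z)]
    refine Finset.sum_congr rfl fun k _ => ?_
    rw [sum_iT hB, ENNReal.ofReal_sum_of_nonneg (fun z _ => o0 k z)]
    exact Finset.sum_congr rfl fun z _ => ho_tr _ _ _ _
  have hs : (∑ k ∈ Finset.Ioc R (2 * R), ∑ z ∈ nb k B,
      (if ω (bd k z) = true then 0 else (lrp β s k : ℝ))) =
      (∑ k ∈ Finset.Ioc R (2 * R), ∑ z ∈ nb k B,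
      (if ω (bd k z) = true then 1 - (lrp β s k : ℝ) else 0)) + SS β s R B ω := by
    unfold SS
    rw [← Finset.sum_add_distrib]
    refine Finset.sum_congr rfl fun k _ => ?_
    rw [← Finset.sum_add_distrib]
    refine Finset.sum_congr rfl fun z _ => ?_
    split_ifs <;> ring
  rw [hC, hO, hs, ← ENNReal.ofReal_add (Finset.sum_nonneg fun k _ => Finset.sum_nonneg
    fun z _ => o0 k z) (abs_nonneg _)]
  refine ENNReal.ofReal_le_ofReal ?_
  linarith [le_abs_self (SS β s R B ω)]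

lemma exists_isK {ω : Cfg n} (h : cN ω 0 ≠ ∞) : ∃ B : Finset (V n), IsK ω B := by
  classical
  have hfin : {y : V n | Rch ω 0 y}.Finite := by
    by_contra hinf
    refine h ?_
    have hinf' : {y : V n | Rch ω 0 y}.Infinite := hinf
    refine ENNReal.eq_top_of_forall_nnreal_le fun r => ?_
    obtain ⟨m, hm⟩ := exists_nat_ge r
    obtain ⟨t, ht, hc⟩ := hinf'.exists_subset_card_eq m
    calc (r : ℝ≥0∞) ≤ m := by exact_mod_cast hm
      _ = ∑ y ∈ t, iR ω 0 y := by
          rw [Finset.sum_congr rfl (g := fun _ => (1 : ℝ≥0∞)) (fun y hy => iR_one (ht hy))]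
          simp [hc]
      _ ≤ cN ω 0 := ENNReal.sum_le_tsum t
  refine ⟨hfin.toFinset, fun y => ?_⟩
  simp

lemma meas_isK (B : Finset (V n)) : MeasurableSet {ω : Cfg n | IsK ω B} := by
  have : {ω : Cfg n | IsK ω B} = ⋂ y : V n, {ω : Cfg n | Rch ω 0 y ↔ y ∈ B} := by
    ext ω; simp [IsK]
  rw [this]
  refine MeasurableSet.iInter fun y => ?_
  by_cases h : y ∈ B
  · have : {ω : Cfg n | Rch ω 0 y ↔ y ∈ B} = {ω : Cfg n | Rch ω 0 y} := by
      ext ω; simp [h]
    rw [this]; exact meas_Rch _ _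
  · have : {ω : Cfg n | Rch ω 0 y ↔ y ∈ B} = {ω : Cfg n | Rch ω 0 y}ᶜ := by
      ext ω; simp [h]
    rw [this]; exact (meas_Rch _ _).compl

lemma measurable_SS (β : NNReal) (s : ℝ) (R : ℕ) (B : Finset (V n)) :
    Measurable (fun ω : Cfg n => SS β s R B ω) := by
  unfold SS
  refine Finset.measurable_sum _ fun k _ => Finset.measurable_sum _ fun z _ => ?_
  exact measurable_const.sub (Measurable.ite (Pool.Agent.W424.PC.meas_coord _ true)
    measurable_const measurable_const)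

lemma abs_SS_le (β : NNReal) (s : ℝ) (R : ℕ) (B : Finset (V n)) :
    ∃ M : ℝ, ∀ ω : Cfg n, |SS β s R B ω| ≤ M := by
  refine ⟨∑ k ∈ Finset.Ioc R (2 * R), ∑ z ∈ nb k B, 1, fun ω => ?_⟩
  unfold SS
  refine (Finset.abs_sum_le_sum_abs _ _).trans (Finset.sum_le_sum fun k _ => ?_)
  refine (Finset.abs_sum_le_sum_abs _ _).trans (Finset.sum_le_sum fun z _ => ?_)
  have h0 := (lrp β s k).2.1
  have h1 := (lrp β s k).2.2
  split_ifs
  · rw [abs_le]; constructor <;> linarith
  · rw [abs_le]; constructor <;> linarith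

open scoped Classical in
/-- The absolute value of `SS` of the cluster of the origin. -/
def AS (β : NNReal) (s : ℝ) (R : ℕ) (ω : Cfg n) : ℝ≥0∞ :=
  if h : ∃ B : Finset (V n), IsK ω B then ENNReal.ofReal |SS β s R h.choose ω| else 0

lemma isK_unique {ω : Cfg n} {B B' : Finset (V n)} (h : IsK ω B) (h' : IsK ω B') : B = B' := by
  ext y; rw [← h y, ← h' y]

lemma AS_eq {β : NNReal} {s : ℝ} {R : ℕ} {ω : Cfg n} {B : Finset (V n)} (h : IsK ω B) :
    AS β s R ω = ENNReal.ofReal |SS β s R B ω| := by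
  have hex : ∃ B : Finset (V n), IsK ω B := ⟨B, h⟩
  unfold AS
  rw [dif_pos hex, isK_unique hex.choose_spec h]

/-- **Two-ghost inequality.** -/
theorem two_ghost (a p : unitInterval) (β : NNReal) (s : ℝ) {N R : ℕ} (hN : 2 ≤ N) (hR : 1 ≤ R)
    (hfin : Fin0 (pm (prob (n := n) a p β s 1))) {X : ℝ}
    (hX : ∀ 𝓑 : Finset (Finset (V n)), ∑ B ∈ 𝓑, (max (B.card : ℝ) N)⁻¹ *
      ∫ ω in {ω | IsK ω B}, |SS β s R B ω| ∂(pm (prob (n := n) a p β s 1)) ≤ X) :
    ∑ k ∈ Finset.Ioc R (2 * R), (lrp β s k * (1 - lrp β s k) : ℝ) *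
      (pm (prob (n := n) a p β s 1)).real (Dk n N k) ≤ X := by
  set μ := pm (prob (n := n) a p β s 1) with hμ
  have hX0 : 0 ≤ X := by simpa using hX ∅
  have k2 : ∀ k ∈ Finset.Ioc R (2 * R), 2 ≤ k := fun k hk => by
    rw [Finset.mem_Ioc] at hk; omega
  -- the transport identities
  have hCC : ∑ k ∈ Finset.Ioc R (2 * R), ∫⁻ ω, hc (lrp β s k) k ω * TT N k ω ∂μ =
      ∫⁻ ω, wt N ω 0 * CC β s R ω ∂μ := by
    unfold CC
    simp_rw [Finset.mul_sum]
    rw [lintegral_finsetSum]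
    · refine Finset.sum_congr rfl fun k _ => ?_
      rw [mt a p β s N k _ (measurable_hc _ _)]
    · intro k _
      refine (measurable_wt N 0).mul (Measurable.tsum fun z => ?_)
      exact ((measurable_hc _ k).comp (measurable_tr z)).mul (measurable_iT k z 0)
  have hOO : ∑ k ∈ Finset.Ioc R (2 * R), ∫⁻ ω, ho (lrp β s k) k ω * TT N k ω ∂μ =
      ∫⁻ ω, wt N ω 0 * OO β s R ω ∂μ := by
    unfold OO
    simp_rw [Finset.mul_sum]
    rw [lintegral_finsetSum]
    · refine Finset.sum_congr rfl fun k _ => ?_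
      rw [mt a p β s N k _ (measurable_ho _ _)]
    · intro k _
      refine (measurable_wt N 0).mul (Measurable.tsum fun z => ?_)
      exact ((measurable_ho _ k).comp (measurable_tr z)).mul (measurable_iT k z 0)
  have hOfin : ∫⁻ ω, wt N ω 0 * OO β s R ω ∂μ ≠ ∞ := by
    rw [← hOO]
    refine ENNReal.sum_ne_top.2 fun k _ => ?_
    refine ne_top_of_le_ne_top (b := ∫⁻ _ : Cfg n, 1 * 2 ∂μ) (by simp [hμ]) ?_
    refine lintegral_mono fun ω => ?_
    refine mul_le_mul' ?_ (TT_le_two N k ω)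
    unfold ho
    split_ifs
    · refine ENNReal.ofReal_le_one.2 ?_
      linarith [(lrp β s k).2.1]
    · exact zero_le
  -- sum of `tg1`
  have hsum : ∑ k ∈ Finset.Ioc R (2 * R), ENNReal.ofReal (lrp β s k * (1 - lrp β s k)) *
      μ (Dk n N k) + ∫⁻ ω, wt N ω 0 * OO β s R ω ∂μ ≤ ∫⁻ ω, wt N ω 0 * CC β s R ω ∂μ := by
    rw [← hCC, ← hOO, ← Finset.sum_add_distrib]
    exact Finset.sum_le_sum fun k hk => tg1 a p β s hN (k2 k hk) hfin
  have hle : ∫⁻ ω, wt N ω 0 * CC β s R ω ∂μ ≤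
      ∫⁻ ω, wt N ω 0 * AS β s R ω ∂μ + ∫⁻ ω, wt N ω 0 * OO β s R ω ∂μ := by
    have mO : Measurable (fun ω : Cfg n => wt N ω 0 * OO β s R ω) := by
      unfold OO
      refine (measurable_wt N 0).mul (Finset.measurable_sum _ fun k _ => Measurable.tsum fun z => ?_)
      exact ((measurable_ho _ k).comp (measurable_tr z)).mul (measurable_iT k z 0)
    rw [← lintegral_add_right _ mO]
    refine lintegral_mono_ae ?_
    filter_upwards [hfin] with ω hω
    obtain ⟨B, hB⟩ := exists_isK (hω 0)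
    rw [AS_eq hB, ← mul_add, add_comm]
    exact mul_le_mul' le_rfl (CC_le hB)
  have h1 : ∑ k ∈ Finset.Ioc R (2 * R), ENNReal.ofReal (lrp β s k * (1 - lrp β s k)) *
      μ (Dk n N k) ≤ ∫⁻ ω, wt N ω 0 * AS β s R ω ∂μ :=
    ENNReal.le_of_add_le_add_right hOfin (hsum.trans hle)
  -- decomposition according to the cluster of the origin
  have hdec : ∫⁻ ω, wt N ω 0 * AS β s R ω ∂μ =
      ∑' B : Finset (V n), ∫⁻ ω in {ω | IsK ω B}, wt N ω 0 * AS β s R ω ∂μ := by
    rw [← lintegral_iUnion (fun B => meas_isK B)]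
    · have hun : (⋃ B : Finset (V n), {ω : Cfg n | IsK ω B}) =ᵐ[μ] univ := by
        rw [Filter.eventuallyEq_univ]
        filter_upwards [hfin] with ω hω
        obtain ⟨B, hB⟩ := exists_isK (hω 0)
        exact mem_iUnion.2 ⟨B, hB⟩
      rw [setLIntegral_congr hun, setLIntegral_univ]
    · intro B B' hne
      rw [Function.onFun, Set.disjoint_left]
      intro ω h h'
      exact hne (isK_unique h h')
  have hB : ∀ B : Finset (V n), ∫⁻ ω in {ω | IsK ω B}, wt N ω 0 * AS β s R ω ∂μ =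
      ENNReal.ofReal ((max (B.card : ℝ) N)⁻¹ * ∫ ω in {ω | IsK ω B}, |SS β s R B ω| ∂μ) := by
    intro B
    have hNpos : (0 : ℝ) < max (B.card : ℝ) N :=
      lt_of_lt_of_le (by exact_mod_cast (by omega : 0 < N)) (le_max_right _ _)
    have hint : Integrable (fun ω => |SS β s R B ω|) (μ.restrict {ω | IsK ω B}) := by
      obtain ⟨M, hM⟩ := abs_SS_le (n := n) β s R B
      refine Integrable.of_bound (C := M) (measurable_SS β s R B).abs.aestronglyMeasurable ?_
      exact Filter.Eventually.of_forall fun ω => by rw [Real.norm_eq_abs, abs_abs]; exact hM ω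
    rw [ENNReal.ofReal_mul (inv_nonneg.2 hNpos.le), ofReal_integral_eq_lintegral_ofReal hint
      (Filter.Eventually.of_forall fun ω => abs_nonneg _),
      ← lintegral_const_mul (f := fun ω => ENNReal.ofReal |SS β s R B ω|) _
        (ENNReal.measurable_ofReal.comp (measurable_SS β s R B).abs)]
    refine setLIntegral_congr_fun (meas_isK B) ?_
    intro ω hω
    show wt N ω 0 * AS β s R ω = _
    rw [AS_eq hω]
    congr 1
    unfold wt
    rw [cN_fin hω, ENNReal.ofReal_inv_of_pos hNpos]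
    congr 1
    rcases le_total (B.card : ℝ) N with h | h
    · rw [max_eq_right h, max_eq_right (by exact_mod_cast h), ENNReal.ofReal_natCast]
    · rw [max_eq_left h, max_eq_left (by exact_mod_cast h), ENNReal.ofReal_natCast]
  have h2 : ∫⁻ ω, wt N ω 0 * AS β s R ω ∂μ ≤ ENNReal.ofReal X := by
    rw [hdec, ENNReal.tsum_eq_iSup_sum]
    refine iSup_le fun 𝓑 => ?_
    rw [Finset.sum_congr rfl fun B _ => hB B, ← ENNReal.ofReal_sum_of_nonneg]
    · exact ENNReal.ofReal_le_ofReal (hX 𝓑)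
    · intro B _
      have hNpos : (0 : ℝ) < max (B.card : ℝ) N :=
        lt_of_lt_of_le (by exact_mod_cast (by omega : 0 < N)) (le_max_right _ _)
      exact mul_nonneg (inv_nonneg.2 hNpos.le) (integral_nonneg fun ω => abs_nonneg _)
  have h3 := h1.trans h2
  have q0 : ∀ k, (0 : ℝ) ≤ lrp β s k * (1 - lrp β s k) := fun k =>
    mul_nonneg (lrp β s k).2.1 (by linarith [(lrp β s k).2.2])
  rw [← ENNReal.ofReal_le_ofReal_iff hX0, ENNReal.ofReal_sum_of_nonneg
    (fun k _ => mul_nonneg (q0 k) measureReal_nonneg)]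
  refine le_trans (le_of_eq ?_) h3
  refine Finset.sum_congr rfl fun k _ => ?_
  rw [ENNReal.ofReal_mul (q0 k), ofReal_measureReal]

end

end Pool.Agent.TH489.PL
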