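import Pool.Agent.TH489.PL.TG2

set_option autoImplicit false

open MeasureTheory Set
open scoped ENNReal NNReal

/-!
# Bound for the right side of the two-ghost inequality
-/

namespace Pool.Agent.TH489.PL

open Pool.Agent.W783.PC

noncomputable section

variable {n : ℕ}

/-- A dyadic sum. -/
lemma dyadic_sum {a : ℝ} (ha0 : 0 < a) (ha1 : a < 1) {N : ℕ} (hN : 1 ≤ N) (L : ℕ) :
    ∑ i ∈ Finset.range L, ((2 : ℝ) ^ a) ^ i / max ((2 : ℝ) ^ i) N ≤
      ((2 : ℝ) ^ a / ((2 : ℝ) ^ a - 1) + 1 / (1 - (2 : ℝ) ^ (a - 1))) * (N : ℝ) ^ (a - 1) := by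
  set x : ℝ := (2 : ℝ) ^ a with hx
  set y : ℝ := (2 : ℝ) ^ (a - 1) with hy
  have hx1 : 1 < x := Real.one_lt_rpow (by norm_num) ha0
  have hx0 : 0 < x := by linarith
  have hy0 : 0 < y := Real.rpow_pos_of_pos (by norm_num) _
  have hy1 : y < 1 := Real.rpow_lt_one_of_one_lt_of_neg (by norm_num) (by linarith)
  have hNR : (0 : ℝ) < N := by exact_mod_cast hN
  set j := Nat.log 2 N with hj
  have hj1 : (2 : ℝ) ^ j ≤ N := by
    have := Nat.pow_log_le_self 2 (by omega : N ≠ 0)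
    exact_mod_cast this
  have hj2 : (N : ℝ) < 2 ^ (j + 1) := by
    have := Nat.lt_pow_succ_log_self (b := 2) (by norm_num) N
    exact_mod_cast this
  have hxi : ∀ i : ℕ, x ^ i = ((2 : ℝ) ^ i) ^ a := fun i => by
    rw [hx, ← Real.rpow_natCast, ← Real.rpow_mul (by norm_num), mul_comm, Real.rpow_mul (by norm_num),
      Real.rpow_natCast]
  have hyi : ∀ i : ℕ, y ^ i = ((2 : ℝ) ^ i) ^ (a - 1) := fun i => by
    rw [hy, ← Real.rpow_natCast, ← Real.rpow_mul (by norm_num), mul_comm, Real.rpow_mul (by norm_num),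
      Real.rpow_natCast]
  have hterm : ∀ i : ℕ, 0 ≤ x ^ i / max ((2 : ℝ) ^ i) N := fun i => by positivity
  have hsub : Finset.range L ⊆ Finset.range (j + 1) ∪ Finset.Ico (j + 1) L := by
    intro i hi
    rw [Finset.mem_range] at hi
    rw [Finset.mem_union, Finset.mem_range, Finset.mem_Ico]
    omega
  have hdis : Disjoint (Finset.range (j + 1)) (Finset.Ico (j + 1) L) := by
    rw [Finset.disjoint_left]
    intro i hi hi'
    rw [Finset.mem_range] at hi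
    rw [Finset.mem_Ico] at hi'
    omega
  calc ∑ i ∈ Finset.range L, x ^ i / max ((2 : ℝ) ^ i) N
      ≤ ∑ i ∈ Finset.range (j + 1) ∪ Finset.Ico (j + 1) L, x ^ i / max ((2 : ℝ) ^ i) N :=
        Finset.sum_le_sum_of_subset_of_nonneg hsub fun i _ _ => hterm i
    _ = ∑ i ∈ Finset.range (j + 1), x ^ i / max ((2 : ℝ) ^ i) N +
        ∑ i ∈ Finset.Ico (j + 1) L, x ^ i / max ((2 : ℝ) ^ i) N := Finset.sum_union hdis
    _ ≤ ∑ i ∈ Finset.range (j + 1), x ^ i / N + ∑ i ∈ Finset.Ico (j + 1) L, y ^ i := by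
        refine add_le_add (Finset.sum_le_sum fun i _ => ?_) (Finset.sum_le_sum fun i _ => ?_)
        · exact div_le_div_of_nonneg_left (by positivity) hNR (le_max_right _ _)
        · refine (div_le_div_of_nonneg_left (by positivity) (by positivity) (le_max_left _ _)).trans
            (le_of_eq ?_)
          rw [hxi, hyi, Real.rpow_sub_one (by positivity)]
    _ ≤ x / (x - 1) * (N : ℝ) ^ (a - 1) + 1 / (1 - y) * (N : ℝ) ^ (a - 1) := by
        refine add_le_add ?_ ?_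
        · rw [← Finset.sum_div, geom_sum_eq hx1.ne', Real.rpow_sub_one hNR.ne']
          have h1 : (x ^ (j + 1) - 1) / (x - 1) ≤ x / (x - 1) * (N : ℝ) ^ a := by
            rw [div_mul_eq_mul_div]
            refine div_le_div_of_nonneg_right ?_ (by linarith)
            have : x ^ j ≤ (N : ℝ) ^ a := by
              rw [hxi]
              exact Real.rpow_le_rpow (by positivity) hj1 ha0.le
            rw [pow_succ]
            nlinarith
          calc (x ^ (j + 1) - 1) / (x - 1) / N ≤ (x / (x - 1) * (N : ℝ) ^ a) / N :=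
                div_le_div_of_nonneg_right h1 hNR.le
            _ = _ := by ring
        · refine (geom_sum_Ico_le_of_lt_one hy0.le hy1).trans ?_
          rw [one_div, div_eq_inv_mul]
          have : y ^ (j + 1) ≤ (N : ℝ) ^ (a - 1) := by
            rw [hyi]
            exact Real.rpow_le_rpow_of_nonpos hNR hj2.le (by linarith)
          exact mul_le_mul_of_nonneg_left this (inv_nonneg.2 (by linarith))
    _ = _ := by ring

/-- The tail of the size of the cluster of the origin. -/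
def QQ (μ : Measure (Cfg n)) (N : ℕ) : ℝ := μ.real {ω | (N : ℝ≥0∞) ≤ cN ω 0}

lemma isK_ne {ω : Cfg n} {B : Finset (V n)} (h : IsK ω B) : B.Nonempty :=
  ⟨0, (h 0).1 (Rch_refl _ _)⟩

/-- Clusters with sizes in a dyadic block. -/
lemma block_bound (htilt : S_tilt) (a p : unitInterval) (β : NNReal) (s : ℝ) {R : ℕ} (hR : 1 ≤ R)
    {θ A : ℝ} (hA : 1 ≤ A)
    (hQ : ∀ N : ℕ, 1 ≤ N → QQ (pm (prob (n := n) a p β s 1)) N ≤ A * (N : ℝ) ^ (-θ))
    (i : ℕ) (𝓑 : Finset (Finset (V n))) (h𝓑 : ∀ B ∈ 𝓑, 2 ^ i ≤ B.card ∧ B.card ≤ 2 ^ (i + 1)) :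
    ∑ B ∈ 𝓑, ∫ ω in {ω | IsK ω B}, |SS β s R B ω| ∂(pm (prob (n := n) a p β s 1)) ≤
      8 * Real.sqrt A * (((2 : ℝ) ^ (-(θ / 2))) ^ i +
        Real.sqrt (sg β s R) * ((2 : ℝ) ^ ((1 - θ) / 2)) ^ i) := by
  set μ := pm (prob (n := n) a p β s 1) with hμ
  set σ2 := sg β s R with hσ2
  have hσ0 : 0 ≤ σ2 := Finset.sum_nonneg fun k _ => (lrp β s k).2.1
  set P : ℝ := A * ((2 : ℝ) ^ i) ^ (-θ) with hP
  set W : ℝ := 15 * (1 + 2 ^ (i + 1) * σ2) with hW
  have hP0 : 0 < P := by positivity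
  have hW0 : 0 < W := by positivity
  set l : ℝ := Real.sqrt (W / P) with hl
  have hl0 : 0 < l := Real.sqrt_pos.2 (div_pos hW0 hP0)
  have hint : ∀ B : Finset (V n), Integrable (fun ω => SS β s R B ω ^ 2)
      (μ.restrict {ω | IsK ω B}) := by
    intro B
    obtain ⟨M, hM⟩ := abs_SS_le (n := n) β s R B
    refine Integrable.of_bound (C := M ^ 2) ((measurable_SS β s R B).pow_const 2).aestronglyMeasurable
      ?_
    refine Filter.Eventually.of_forall fun ω => ?_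
    rw [Real.norm_eq_abs, abs_pow]
    exact pow_le_pow_left₀ (abs_nonneg _) (hM ω) 2
  have hint1 : ∀ B : Finset (V n), Integrable (fun ω => |SS β s R B ω|)
      (μ.restrict {ω | IsK ω B}) := by
    intro B
    obtain ⟨M, hM⟩ := abs_SS_le (n := n) β s R B
    refine Integrable.of_bound (C := M) (measurable_SS β s R B).abs.aestronglyMeasurable ?_
    exact Filter.Eventually.of_forall fun ω => by rw [Real.norm_eq_abs, abs_abs]; exact hM ω
  have hsumP : ∑ B ∈ 𝓑, μ.real {ω | IsK ω B} ≤ P := by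
    rw [← measureReal_biUnion_finset]
    · refine le_trans (measureReal_mono (h₂ := measure_ne_top _ _) ?_)
        ((hQ (2 ^ i) (Nat.one_le_two_pow)).trans (le_of_eq ?_))
      · intro ω hω
        rw [mem_iUnion₂] at hω
        obtain ⟨B, hB, hK⟩ := hω
        show ((2 ^ i : ℕ) : ℝ≥0∞) ≤ cN ω 0
        rw [cN_fin hK]
        exact_mod_cast (h𝓑 B hB).1
      · rw [hP]; push_cast; rfl
    · intro B _ B' _ hne
      rw [Function.onFun, Set.disjoint_left]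
      intro ω h h'
      exact hne (isK_unique h h')
    · exact fun B _ => meas_isK B
  have hsumW : ∑ B ∈ 𝓑, ∫ ω in {ω | IsK ω B}, SS β s R B ω ^ 2 ∂μ ≤ W := by
    have h := htilt n a p β s R (2 ^ (i + 1)) hR 𝓑 (fun B hB => (h𝓑 B hB).2)
    have e : ∀ B : Finset (V n), {ω : Cfg n | IsK ω B} =
        {ω | cl (EdI 1) ω univ (0 : V n) = (B : Set (V n))} := fun B => by
      ext ω; exact isK_iff ω B
    simp only [e]
    refine h.trans (le_of_eq ?_)
    rw [hW, hσ2]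
    push_cast
    ring
  have hB : ∀ B ∈ 𝓑, ∫ ω in {ω | IsK ω B}, |SS β s R B ω| ∂μ ≤
      l / 2 * μ.real {ω | IsK ω B} + (2 * l)⁻¹ * ∫ ω in {ω | IsK ω B}, SS β s R B ω ^ 2 ∂μ := by
    intro B _
    calc ∫ ω in {ω | IsK ω B}, |SS β s R B ω| ∂μ
        ≤ ∫ ω in {ω | IsK ω B}, (l / 2 + (2 * l)⁻¹ * SS β s R B ω ^ 2) ∂μ := by
          refine integral_mono (hint1 B) ((integrable_const _).add ((hint B).const_mul _)) ?_
          intro ω
          show |SS β s R B ω| ≤ l / 2 + (2 * l)⁻¹ * SS β s R B ω ^ 2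
          have h1 : 0 ≤ (|SS β s R B ω| - l) ^ 2 := sq_nonneg _
          have h2 : SS β s R B ω ^ 2 = |SS β s R B ω| ^ 2 := (sq_abs _).symm
          rw [h2]
          have h3 : l / 2 + (2 * l)⁻¹ * |SS β s R B ω| ^ 2 - |SS β s R B ω| =
              (2 * l)⁻¹ * (|SS β s R B ω| - l) ^ 2 := by
            field_simp
            ring
          have h4 : 0 ≤ (2 * l)⁻¹ * (|SS β s R B ω| - l) ^ 2 := by positivity
          linarith
      _ = _ := by
          rw [integral_add (integrable_const _) ((hint B).const_mul _), integral_const,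
            integral_const_mul]
          simp only [measureReal_restrict_apply MeasurableSet.univ, univ_inter, smul_eq_mul]
          ring
  have hsum : ∑ B ∈ 𝓑, ∫ ω in {ω | IsK ω B}, |SS β s R B ω| ∂μ ≤ Real.sqrt (P * W) := by
    calc ∑ B ∈ 𝓑, ∫ ω in {ω | IsK ω B}, |SS β s R B ω| ∂μ
        ≤ ∑ B ∈ 𝓑, (l / 2 * μ.real {ω | IsK ω B} +
          (2 * l)⁻¹ * ∫ ω in {ω | IsK ω B}, SS β s R B ω ^ 2 ∂μ) := Finset.sum_le_sum hB
      _ = l / 2 * ∑ B ∈ 𝓑, μ.real {ω | IsK ω B} +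
          (2 * l)⁻¹ * ∑ B ∈ 𝓑, ∫ ω in {ω | IsK ω B}, SS β s R B ω ^ 2 ∂μ := by
          rw [Finset.sum_add_distrib, Finset.mul_sum, Finset.mul_sum]
      _ ≤ l / 2 * P + (2 * l)⁻¹ * W := by gcongr
      _ = Real.sqrt (P * W) := by
          have h1 : l ^ 2 = W / P := Real.sq_sqrt (div_pos hW0 hP0).le
          have h2 : W = l ^ 2 * P := by rw [h1]; field_simp
          have h3 : P * W = (l * P) ^ 2 := by rw [h2]; ring
          rw [h3, Real.sqrt_sq (by positivity), h2]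
          field_simp
          ring
  refine hsum.trans ?_
  have h2i : (0 : ℝ) < 2 ^ i := by positivity
  have hPs : Real.sqrt P = Real.sqrt A * ((2 : ℝ) ^ (-(θ / 2))) ^ i := by
    rw [hP, Real.sqrt_mul (by linarith)]
    congr 1
    rw [Real.sqrt_eq_rpow, ← Real.rpow_natCast, ← Real.rpow_natCast, ← Real.rpow_mul (by norm_num),
      ← Real.rpow_mul (by norm_num), ← Real.rpow_mul (by norm_num)]
    congr 1
    ring
  have hWs : Real.sqrt W ≤ 8 * (1 + Real.sqrt σ2 * Real.sqrt (2 ^ i)) := by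
    rw [Real.sqrt_le_left (by positivity)]
    have h1 : (Real.sqrt σ2) ^ 2 = σ2 := Real.sq_sqrt hσ0
    have h2 : (Real.sqrt ((2 : ℝ) ^ i)) ^ 2 = 2 ^ i := Real.sq_sqrt h2i.le
    have h3 : 0 ≤ Real.sqrt σ2 * Real.sqrt ((2 : ℝ) ^ i) := by positivity
    have h4 : (Real.sqrt σ2 * Real.sqrt ((2 : ℝ) ^ i)) ^ 2 = σ2 * 2 ^ i := by
      rw [mul_pow, h1, h2]
    rw [hW]
    have h5 : (2 : ℝ) ^ (i + 1) = 2 * 2 ^ i := by ring
    rw [h5]
    have h6 : 0 ≤ σ2 * 2 ^ i := by positivity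
    nlinarith
  have h2s : Real.sqrt ((2 : ℝ) ^ i) * ((2 : ℝ) ^ (-(θ / 2))) ^ i = ((2 : ℝ) ^ ((1 - θ) / 2)) ^ i := by
    rw [Real.sqrt_eq_rpow, ← Real.rpow_natCast, ← Real.rpow_natCast, ← Real.rpow_natCast,
      ← Real.rpow_mul (by norm_num), ← Real.rpow_mul (by norm_num), ← Real.rpow_mul (by norm_num),
      ← Real.rpow_add (by norm_num)]
    congr 1
    ring
  calc Real.sqrt (P * W) = Real.sqrt P * Real.sqrt W := Real.sqrt_mul hP0.le _
    _ ≤ (Real.sqrt A * ((2 : ℝ) ^ (-(θ / 2))) ^ i) * (8 * (1 + Real.sqrt σ2 * Real.sqrt (2 ^ i))) := by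
        rw [hPs]
        gcongr
    _ = 8 * Real.sqrt A * (((2 : ℝ) ^ (-(θ / 2))) ^ i +
        Real.sqrt σ2 * (Real.sqrt (2 ^ i) * ((2 : ℝ) ^ (-(θ / 2))) ^ i)) := by ring
    _ = _ := by rw [h2s]

/-- The constant. -/
def cX (θ : ℝ) : ℝ := 8 * (1 / (1 - (2 : ℝ) ^ (-(θ / 2))) +
  ((2 : ℝ) ^ ((1 - θ) / 2) / ((2 : ℝ) ^ ((1 - θ) / 2) - 1) +
    1 / (1 - (2 : ℝ) ^ ((1 - θ) / 2 - 1))))

lemma cX_pos {θ : ℝ} (h0 : 0 < θ) (h1 : θ < 1) : 0 < cX θ := by
  have e1 : (2 : ℝ) ^ (-(θ / 2)) < 1 :=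
    Real.rpow_lt_one_of_one_lt_of_neg (by norm_num) (by linarith)
  have e2 : 1 < (2 : ℝ) ^ ((1 - θ) / 2) := Real.one_lt_rpow (by norm_num) (by linarith)
  have e3 : (2 : ℝ) ^ ((1 - θ) / 2 - 1) < 1 :=
    Real.rpow_lt_one_of_one_lt_of_neg (by norm_num) (by linarith)
  unfold cX
  have h1 : 0 < 1 / (1 - (2 : ℝ) ^ (-(θ / 2))) := div_pos one_pos (by linarith)
  have h2 : 0 < (2 : ℝ) ^ ((1 - θ) / 2) / ((2 : ℝ) ^ ((1 - θ) / 2) - 1) :=
    div_pos (by linarith) (by linarith)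
  have h3 : 0 < 1 / (1 - (2 : ℝ) ^ ((1 - θ) / 2 - 1)) := div_pos one_pos (by linarith)
  linarith

theorem X_bound (htilt : S_tilt) (a p : unitInterval) (β : NNReal) (s : ℝ) {R : ℕ} (hR : 1 ≤ R)
    {θ A : ℝ} (hθ0 : 0 < θ) (hθ1 : θ < 1) (hA : 1 ≤ A)
    (hQ : ∀ N : ℕ, 1 ≤ N → QQ (pm (prob (n := n) a p β s 1)) N ≤ A * (N : ℝ) ^ (-θ))
    {N : ℕ} (hN : 1 ≤ N) (𝓑 : Finset (Finset (V n))) :
    ∑ B ∈ 𝓑, (max (B.card : ℝ) N)⁻¹ *
      ∫ ω in {ω | IsK ω B}, |SS β s R B ω| ∂(pm (prob (n := n) a p β s 1)) ≤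
    cX θ * Real.sqrt A * (1 / N + Real.sqrt (sg β s R) * (N : ℝ) ^ (-((1 + θ) / 2))) := by
  classical
  set μ := pm (prob (n := n) a p β s 1) with hμ
  set F : Finset (V n) → ℝ := fun B => ∫ ω in {ω | IsK ω B}, |SS β s R B ω| ∂μ with hF
  have hF0 : ∀ B, 0 ≤ F B := fun B => integral_nonneg fun ω => abs_nonneg _
  have hNR : (0 : ℝ) < N := by exact_mod_cast hN
  have hFe : F ∅ = 0 := by
    have : {ω : Cfg n | IsK ω ∅} = ∅ := by
      ext ω
      simp only [mem_ofPred_eq, mem_empty_iff_false, iff_false]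
      intro h
      exact Finset.not_nonempty_empty (isK_ne h)
    show ∫ ω in {ω : Cfg n | IsK ω ∅}, |SS β s R ∅ ω| ∂μ = 0
    rw [this]
    simp
  set 𝓑' := 𝓑.filter (fun B => B ≠ ∅) with h𝓑'
  obtain ⟨L, hL⟩ : ∃ L : ℕ, ∀ B ∈ 𝓑', Nat.log 2 B.card < L := by
    refine ⟨𝓑'.sup (fun B => Nat.log 2 B.card) + 1, fun B hB => ?_⟩
    exact Nat.lt_succ_of_le (Finset.le_sup (f := fun B : Finset (V n) => Nat.log 2 B.card) hB)
  have h1 : ∑ B ∈ 𝓑, (max (B.card : ℝ) N)⁻¹ * F B = ∑ B ∈ 𝓑', (max (B.card : ℝ) N)⁻¹ * F B := by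
    rw [h𝓑', Finset.sum_filter_of_ne]
    intro B _ hne h
    apply hne
    rw [h, hFe, mul_zero]
  have h2 : ∑ B ∈ 𝓑', (max (B.card : ℝ) N)⁻¹ * F B =
      ∑ i ∈ Finset.range L, ∑ B ∈ 𝓑' with Nat.log 2 B.card = i, (max (B.card : ℝ) N)⁻¹ * F B := by
    rw [Finset.sum_fiberwise_of_maps_to]
    intro B hB
    exact Finset.mem_range.2 (hL B hB)
  have h3 : ∀ i ∈ Finset.range L,
      ∑ B ∈ 𝓑' with Nat.log 2 B.card = i, (max (B.card : ℝ) N)⁻¹ * F B ≤
      (max ((2 : ℝ) ^ i) N)⁻¹ * (8 * Real.sqrt A * (((2 : ℝ) ^ (-(θ / 2))) ^ i +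
        Real.sqrt (sg β s R) * ((2 : ℝ) ^ ((1 - θ) / 2)) ^ i)) := by
    intro i _
    have hc : ∀ B ∈ 𝓑'.filter (fun B => Nat.log 2 B.card = i),
        2 ^ i ≤ B.card ∧ B.card ≤ 2 ^ (i + 1) := by
      intro B hB
      rw [Finset.mem_filter, h𝓑', Finset.mem_filter] at hB
      obtain ⟨⟨_, hne⟩, hlog⟩ := hB
      have hpos : B.card ≠ 0 := by
        rw [Ne, Finset.card_eq_zero]; exact hne
      rw [← hlog]
      exact ⟨Nat.pow_log_le_self 2 hpos, (Nat.lt_pow_succ_log_self (by norm_num) _).le⟩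
    calc ∑ B ∈ 𝓑' with Nat.log 2 B.card = i, (max (B.card : ℝ) N)⁻¹ * F B
        ≤ ∑ B ∈ 𝓑' with Nat.log 2 B.card = i, (max ((2 : ℝ) ^ i) N)⁻¹ * F B := by
          refine Finset.sum_le_sum fun B hB => ?_
          refine mul_le_mul_of_nonneg_right ?_ (hF0 B)
          refine inv_anti₀ (by positivity) (max_le_max ?_ le_rfl)
          exact_mod_cast (hc B hB).1
      _ = (max ((2 : ℝ) ^ i) N)⁻¹ * ∑ B ∈ 𝓑' with Nat.log 2 B.card = i, F B := by
          rw [Finset.mul_sum]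
      _ ≤ _ := by
          refine mul_le_mul_of_nonneg_left ?_ (by positivity)
          exact block_bound htilt a p β s hR hA hQ i _ hc
  rw [h1, h2]
  refine (Finset.sum_le_sum h3).trans ?_
  have hz1 : (2 : ℝ) ^ (-(θ / 2)) < 1 :=
    Real.rpow_lt_one_of_one_lt_of_neg (by norm_num) (by linarith)
  have hz0 : 0 < (2 : ℝ) ^ (-(θ / 2)) := Real.rpow_pos_of_pos (by norm_num) _
  have s1 : ∑ i ∈ Finset.range L, (max ((2 : ℝ) ^ i) N)⁻¹ * ((2 : ℝ) ^ (-(θ / 2))) ^ i ≤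
      1 / (1 - (2 : ℝ) ^ (-(θ / 2))) * (1 / N) := by
    calc ∑ i ∈ Finset.range L, (max ((2 : ℝ) ^ i) N)⁻¹ * ((2 : ℝ) ^ (-(θ / 2))) ^ i
        ≤ ∑ i ∈ Finset.range L, (1 / N) * ((2 : ℝ) ^ (-(θ / 2))) ^ i := by
          refine Finset.sum_le_sum fun i _ => ?_
          refine mul_le_mul_of_nonneg_right ?_ (by positivity)
          rw [one_div]
          exact inv_anti₀ hNR (le_max_right _ _)
      _ = (1 / N) * ∑ i ∈ Finset.range L, ((2 : ℝ) ^ (-(θ / 2))) ^ i := by rw [Finset.mul_sum]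
      _ ≤ (1 / N) * (1 / (1 - (2 : ℝ) ^ (-(θ / 2)))) := by
          refine mul_le_mul_of_nonneg_left ?_ (by positivity)
          have := geom_sum_Ico_le_of_lt_one (m := 0) (n := L) hz0.le hz1
          rwa [pow_zero, ← Finset.range_eq_Ico] at this
      _ = _ := by ring
  have s2 := dyadic_sum (a := (1 - θ) / 2) (by linarith) (by linarith) hN L
  have hexp : (1 - θ) / 2 - 1 = -((1 + θ) / 2) := by ring
  have hA0 : 0 ≤ Real.sqrt A := Real.sqrt_nonneg _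
  have hσ0 : 0 ≤ Real.sqrt (sg β s R) := Real.sqrt_nonneg _
  have hy1 : (2 : ℝ) ^ ((1 - θ) / 2 - 1) < 1 :=
    Real.rpow_lt_one_of_one_lt_of_neg (by norm_num) (by linarith)
  have hx1 : 1 < (2 : ℝ) ^ ((1 - θ) / 2) := Real.one_lt_rpow (by norm_num) (by linarith)
  set c1 : ℝ := 1 / (1 - (2 : ℝ) ^ (-(θ / 2))) with hc1
  set c2 : ℝ := (2 : ℝ) ^ ((1 - θ) / 2) / ((2 : ℝ) ^ ((1 - θ) / 2) - 1) +
    1 / (1 - (2 : ℝ) ^ ((1 - θ) / 2 - 1)) with hc2
  have hc10 : 0 ≤ c1 := by rw [hc1]; exact (div_pos one_pos (by linarith)).le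
  have hc20 : 0 ≤ c2 := by
    rw [hc2]
    exact add_nonneg (div_nonneg (by linarith) (by linarith)) (div_nonneg zero_le_one (by linarith))
  have hNp : 0 ≤ (N : ℝ) ^ (-((1 + θ) / 2)) := by positivity
  rw [hexp] at s2
  calc ∑ i ∈ Finset.range L, (max ((2 : ℝ) ^ i) N)⁻¹ * (8 * Real.sqrt A *
        (((2 : ℝ) ^ (-(θ / 2))) ^ i + Real.sqrt (sg β s R) * ((2 : ℝ) ^ ((1 - θ) / 2)) ^ i))
      = 8 * Real.sqrt A * (∑ i ∈ Finset.range L, (max ((2 : ℝ) ^ i) N)⁻¹ *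
          ((2 : ℝ) ^ (-(θ / 2))) ^ i + Real.sqrt (sg β s R) *
          ∑ i ∈ Finset.range L, ((2 : ℝ) ^ ((1 - θ) / 2)) ^ i / max ((2 : ℝ) ^ i) N) := by
        rw [Finset.mul_sum, ← Finset.sum_add_distrib, Finset.mul_sum]
        refine Finset.sum_congr rfl fun i _ => ?_
        ring
    _ ≤ 8 * Real.sqrt A * (c1 * (1 / N) + Real.sqrt (sg β s R) *
          (c2 * (N : ℝ) ^ (-((1 + θ) / 2)))) := by
        gcongr
    _ ≤ 8 * Real.sqrt A * ((c1 + c2) * (1 / N) + Real.sqrt (sg β s R) *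
          ((c1 + c2) * (N : ℝ) ^ (-((1 + θ) / 2)))) := by
        gcongr
        · linarith
        · linarith
    _ = _ := by
        unfold cX
        rw [← hc1, ← hc2]
        ring

end

end Pool.Agent.TH489.PL
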