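import Pool.Agent.TH489.PL.XB
import Pool.Agent.TH914.PL1910

set_option autoImplicit false

open MeasureTheory Set
open scoped ENNReal NNReal

/-!
# Bound for the right side of the two-ghost inequality, higher moments
-/

namespace Pool.Agent.TH489.PL

open Pool.Agent.W783.PC
open Pool.Agent.TH914.PLT (AB cs FB SS_eq expo int_exp meas_cs abs_cs)

noncomputable section

variable {n : ℕ}

lemma AB_eq (B : Finset (V n)) : AB (EdI 1) B = {ω : Cfg n | IsK ω B} := by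
  ext ω; exact (isK_iff ω B).symm

/-- Moments of `SS` on small clusters. -/
theorem tilt_q (a p : unitInterval) (β : NNReal) (s : ℝ) {R m : ℕ} (hR : 1 ≤ R) (q : ℕ)
    (𝓑 : Finset (Finset (V n))) (hB : ∀ B ∈ 𝓑, B.card ≤ m) :
    ∑ B ∈ 𝓑, ∫ ω in {ω | IsK ω B}, |SS β s R B ω| ^ q ∂(pm (prob (n := n) a p β s 1)) ≤
      15 * q.factorial * (Real.sqrt (1 + m * sg β s R)) ^ q := by
  classical
  have hsg : 0 ≤ sg β s R := Finset.sum_nonneg fun k _ => (lrp β s k).2.1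
  set M : ℝ := 1 + m * sg β s R with hM
  have hM1 : 1 ≤ M := by
    rw [hM]
    have : 0 ≤ (m : ℝ) * sg β s R := by positivity
    linarith
  set t : ℝ := (Real.sqrt M)⁻¹ with ht
  have hsq : 1 ≤ Real.sqrt M := Real.one_le_sqrt.mpr hM1
  have ht0 : 0 < t := by rw [ht]; positivity
  have ht1 : t ≤ 1 := by rw [ht]; exact inv_le_one_of_one_le₀ hsq
  have ht2 : t ^ 2 * M = 1 := by
    rw [ht, inv_pow, Real.sq_sqrt (by linarith)]
    exact inv_mul_cancel₀ (by linarith)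
  have ht3 : Real.sqrt M * t = 1 := by
    rw [ht]; exact mul_inv_cancel₀ (by linarith)
  have habs : |t| ≤ 1 := by rw [abs_of_pos ht0]; exact ht1
  have habs' : |-t| ≤ 1 := by rw [abs_neg]; exact habs
  have e1 := expo a p β s hR 𝓑 hB t habs
  have e2 := expo a p β s hR 𝓑 hB (-t) habs'
  simp only [AB_eq] at e1 e2
  set r : Ix n → unitInterval := prob a p β s 1 with hr
  set D : ℝ := q.factorial * (Real.sqrt M) ^ q with hD
  have hD0 : 0 ≤ D := by positivity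
  have hpt : ∀ B ∈ 𝓑, ∫ ω in {ω | IsK ω B}, |SS β s R B ω| ^ q ∂(pm r) ≤
      D * ((∫ ω in {ω | IsK ω B}, Real.exp (t * cs r (FB R B) ω) ∂(pm r)) +
        ∫ ω in {ω | IsK ω B}, Real.exp (-t * cs r (FB R B) ω) ∂(pm r)) := by
    intro B _
    rw [← integral_add (int_exp r _ t).integrableOn (int_exp r _ (-t)).integrableOn,
      ← integral_const_mul]
    refine setIntegral_mono_on ?_ ?_ (meas_isK _) ?_
    · have h0 : Integrable (fun ω => |SS β s R B ω| ^ q) (pm r) := by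
        obtain ⟨K, hK⟩ := abs_SS_le (n := n) β s R B
        refine Integrable.of_bound (C := K ^ q)
          ((measurable_SS β s R B).abs.pow_const q).aestronglyMeasurable ?_
        refine Filter.Eventually.of_forall fun ω => ?_
        rw [Real.norm_eq_abs, abs_pow, abs_abs]
        exact pow_le_pow_left₀ (abs_nonneg _) (hK ω) q
      exact h0.integrableOn
    · exact (((int_exp r _ t).add (int_exp r _ (-t))).const_mul D).integrableOn
    · intro ω _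
      rw [SS_eq a p β s hR B ω, ← hr]
      set x : ℝ := cs r (FB R B) ω with hx
      have h3 : |t * x| ^ q / q.factorial ≤ Real.exp |t * x| :=
        Real.pow_div_factorial_le_exp _ (abs_nonneg _) q
      have h4 : Real.exp |t * x| ≤ Real.exp (t * x) + Real.exp (-t * x) := by
        rcases abs_cases (t * x) with ⟨h, _⟩ | ⟨h, _⟩
        · rw [h]; linarith [Real.exp_pos (-t * x)]
        · rw [h]
          have : -(t * x) = -t * x := by ring
          rw [this]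
          linarith [Real.exp_pos (t * x)]
      have hf : (0 : ℝ) < q.factorial := by exact_mod_cast Nat.factorial_pos q
      have h5 : |x| ^ q = (Real.sqrt M) ^ q * |t * x| ^ q := by
        rw [abs_mul, abs_of_pos ht0, mul_pow, ← mul_assoc, ← mul_pow, ht3, one_pow, one_mul]
      rw [h5]
      calc (Real.sqrt M) ^ q * |t * x| ^ q
          = D * (|t * x| ^ q / q.factorial) := by rw [hD]; field_simp
        _ ≤ D * (Real.exp (t * x) + Real.exp (-t * x)) :=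
            mul_le_mul_of_nonneg_left (h3.trans h4) hD0
  have h6 : 2 * t ^ 2 * (m * sg β s R) ≤ 2 := by
    have : t ^ 2 * (m * sg β s R) ≤ t ^ 2 * M := by
      apply mul_le_mul_of_nonneg_left _ (sq_nonneg t)
      rw [hM]; linarith
    nlinarith
  have h7 : Real.exp 2 ≤ 7.5 := by
    have h8 : Real.exp 2 = Real.exp 1 * Real.exp 1 := by rw [← Real.exp_add]; norm_num
    rw [h8]
    have h9 := Real.exp_one_lt_d9
    have h10 := Real.exp_pos 1
    nlinarith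
  have e1' := e1.trans (Real.exp_le_exp.mpr h6)
  have h6' : 2 * (-t) ^ 2 * (m * sg β s R) ≤ 2 := by rw [neg_sq]; exact h6
  have e2' := e2.trans (Real.exp_le_exp.mpr h6')
  calc ∑ B ∈ 𝓑, ∫ ω in {ω | IsK ω B}, |SS β s R B ω| ^ q ∂(pm r)
      ≤ ∑ B ∈ 𝓑, D * ((∫ ω in {ω | IsK ω B}, Real.exp (t * cs r (FB R B) ω) ∂(pm r)) +
        ∫ ω in {ω | IsK ω B}, Real.exp (-t * cs r (FB R B) ω) ∂(pm r)) := Finset.sum_le_sum hpt
    _ = D * (∑ B ∈ 𝓑, (∫ ω in {ω | IsK ω B}, Real.exp (t * cs r (FB R B) ω) ∂(pm r)) +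
        ∑ B ∈ 𝓑, ∫ ω in {ω | IsK ω B}, Real.exp (-t * cs r (FB R B) ω) ∂(pm r)) := by
        rw [← Finset.mul_sum, Finset.sum_add_distrib]
    _ ≤ D * (7.5 + 7.5) := by
        refine mul_le_mul_of_nonneg_left ?_ hD0
        linarith
    _ = _ := by rw [hD]; ring

/-- The constant. -/
def cq (q : ℕ) : ℝ := 4 * (15 * q.factorial : ℝ) ^ (1 / (q : ℝ))

lemma cq_pos (q : ℕ) : 0 < cq q := by
  unfold cq
  have : (0 : ℝ) < q.factorial := by exact_mod_cast Nat.factorial_pos q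
  positivity

/-- Clusters with sizes in a dyadic block. -/
lemma block_bound_q (a p : unitInterval) (β : NNReal) (s : ℝ) {R : ℕ} (hR : 1 ≤ R)
    {θ A : ℝ} (hA : 1 ≤ A) {q : ℕ} (hq : 1 ≤ q)
    (hQ : ∀ N : ℕ, 1 ≤ N → QQ (pm (prob (n := n) a p β s 1)) N ≤ A * (N : ℝ) ^ (-θ))
    (i : ℕ) (𝓑 : Finset (Finset (V n))) (h𝓑 : ∀ B ∈ 𝓑, 2 ^ i ≤ B.card ∧ B.card ≤ 2 ^ (i + 1)) :
    ∑ B ∈ 𝓑, ∫ ω in {ω | IsK ω B}, |SS β s R B ω| ∂(pm (prob (n := n) a p β s 1)) ≤
      cq q * A ^ (1 - 1 / (q : ℝ)) * (((2 : ℝ) ^ (-(θ * (1 - 1 / (q : ℝ))))) ^ i +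
        Real.sqrt (sg β s R) * ((2 : ℝ) ^ (1 / 2 - θ * (1 - 1 / (q : ℝ)))) ^ i) := by
  set μ := pm (prob (n := n) a p β s 1) with hμ
  set η : ℝ := 1 - 1 / (q : ℝ) with hη
  have hq0 : (0 : ℝ) < q := by exact_mod_cast hq
  have hfac : (0 : ℝ) < q.factorial := by exact_mod_cast Nat.factorial_pos q
  set σ2 := sg β s R with hσ2
  have hσ0 : 0 ≤ σ2 := Finset.sum_nonneg fun k _ => (lrp β s k).2.1
  set P : ℝ := A * ((2 : ℝ) ^ i) ^ (-θ) with hP
  set D : ℝ := Real.sqrt (1 + 2 ^ (i + 1) * σ2) with hD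
  have hD0 : 0 < D := Real.sqrt_pos.2 (by positivity)
  set W : ℝ := 15 * q.factorial * D ^ q with hW
  have hP0 : 0 < P := by positivity
  have hW0 : 0 < W := by positivity
  set l : ℝ := (W / P) ^ (1 / (q : ℝ)) with hl
  have hWP : 0 < W / P := div_pos hW0 hP0
  have hl0 : 0 < l := Real.rpow_pos_of_pos hWP _
  have hlq : l ^ q = W / P := by
    rw [hl, ← Real.rpow_natCast, ← Real.rpow_mul hWP.le, one_div_mul_cancel hq0.ne', Real.rpow_one]
  have hint : ∀ B : Finset (V n), Integrable (fun ω => |SS β s R B ω| ^ q)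
      (μ.restrict {ω | IsK ω B}) := by
    intro B
    obtain ⟨M, hM⟩ := abs_SS_le (n := n) β s R B
    refine Integrable.of_bound (C := M ^ q)
      ((measurable_SS β s R B).abs.pow_const q).aestronglyMeasurable ?_
    refine Filter.Eventually.of_forall fun ω => ?_
    rw [Real.norm_eq_abs, abs_pow, abs_abs]
    exact pow_le_pow_left₀ (abs_nonneg _) (hM ω) q
  have hint1 : ∀ B : Finset (V n), Integrable (fun ω => |SS β s R B ω|)
      (μ.restrict {ω | IsK ω B}) := by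
    intro B
    obtain ⟨M, hM⟩ := abs_SS_le (n := n) β s R B
    refine Integrable.of_bound (C := M) (measurable_SS β s R B).abs.aestronglyMeasurable ?_
    exact Filter.Eventually.of_forall fun ω => by rw [Real.norm_eq_abs, abs_abs]; exact hM ω
  have hsumP : ∑ B ∈ 𝓑, μ.real {ω | IsK ω B} ≤ P := by
    rw [← measureReal_biUnion_finset]
    · refine le_trans (measureReal_mono (h₂ := measure_ne_top _ _) ?_)
        ((hQ (2 ^ i) (Nat.one_le_two_pow)).trans (le_of_eq ?_))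
      · intro ω hω
        rw [mem_iUnion₂] at hω
        obtain ⟨B, hB, hK⟩ := hω
        show ((2 ^ i : ℕ) : ℝ≥0∞) ≤ cN ω 0
        rw [cN_fin hK]
        exact_mod_cast (h𝓑 B hB).1
      · rw [hP]; push_cast; rfl
    · intro B _ B' _ hne
      rw [Function.onFun, Set.disjoint_left]
      intro ω h h'
      exact hne (isK_unique h h')
    · exact fun B _ => meas_isK B
  have hsumW : ∑ B ∈ 𝓑, ∫ ω in {ω | IsK ω B}, |SS β s R B ω| ^ q ∂μ ≤ W := by
    have h := tilt_q (n := n) a p β s hR q (m := 2 ^ (i + 1)) 𝓑 (fun B hB => (h𝓑 B hB).2)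
    refine h.trans (le_of_eq ?_)
    rw [hW, hD, hσ2]
    push_cast
    rfl
  have hB : ∀ B ∈ 𝓑, ∫ ω in {ω | IsK ω B}, |SS β s R B ω| ∂μ ≤
      l * μ.real {ω | IsK ω B} + (l / l ^ q) * ∫ ω in {ω | IsK ω B}, |SS β s R B ω| ^ q ∂μ := by
    intro B _
    calc ∫ ω in {ω | IsK ω B}, |SS β s R B ω| ∂μ
        ≤ ∫ ω in {ω | IsK ω B}, (l + (l / l ^ q) * |SS β s R B ω| ^ q) ∂μ := by
          refine integral_mono (hint1 B) ((integrable_const _).add ((hint B).const_mul _)) ?_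
          intro ω
          show |SS β s R B ω| ≤ l + (l / l ^ q) * |SS β s R B ω| ^ q
          set x : ℝ := |SS β s R B ω| / l with hx
          have hx0 : 0 ≤ x := div_nonneg (abs_nonneg _) hl0.le
          have h1 : x ≤ 1 + x ^ q := by
            rcases le_total x 1 with h | h
            · linarith [pow_nonneg hx0 q]
            · have := le_self_pow₀ h (by omega : q ≠ 0)
              linarith
          have h2 : |SS β s R B ω| = l * x := by rw [hx]; field_simp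
          rw [h2]
          have h3 : l + l / l ^ q * (l * x) ^ q = l * (1 + x ^ q) := by
            rw [mul_pow]
            field_simp
          rw [h3]
          exact mul_le_mul_of_nonneg_left h1 hl0.le
      _ = _ := by
          rw [integral_add (integrable_const _) ((hint B).const_mul _), integral_const,
            integral_const_mul]
          simp only [measureReal_restrict_apply MeasurableSet.univ, univ_inter, smul_eq_mul]
          ring
  have hsum : ∑ B ∈ 𝓑, ∫ ω in {ω | IsK ω B}, |SS β s R B ω| ∂μ ≤ 2 * (l * P) := by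
    calc ∑ B ∈ 𝓑, ∫ ω in {ω | IsK ω B}, |SS β s R B ω| ∂μ
        ≤ ∑ B ∈ 𝓑, (l * μ.real {ω | IsK ω B} +
          (l / l ^ q) * ∫ ω in {ω | IsK ω B}, |SS β s R B ω| ^ q ∂μ) := Finset.sum_le_sum hB
      _ = l * ∑ B ∈ 𝓑, μ.real {ω | IsK ω B} +
          (l / l ^ q) * ∑ B ∈ 𝓑, ∫ ω in {ω | IsK ω B}, |SS β s R B ω| ^ q ∂μ := by
          rw [Finset.sum_add_distrib, Finset.mul_sum, Finset.mul_sum]
      _ ≤ l * P + (l / l ^ q) * W := by gcongr
      _ = 2 * (l * P) := by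
          rw [hlq]
          field_simp
          ring
  refine hsum.trans ?_
  have h2i : (0 : ℝ) < 2 ^ i := by positivity
  have hlP : l * P = (15 * q.factorial : ℝ) ^ (1 / (q : ℝ)) * D * P ^ η := by
    rw [hl, Real.div_rpow hW0.le hP0.le, hW, Real.mul_rpow (by positivity) (by positivity)]
    have h1 : (D ^ q) ^ (1 / (q : ℝ)) = D := by
      rw [← Real.rpow_natCast, ← Real.rpow_mul hD0.le, mul_one_div_cancel hq0.ne', Real.rpow_one]
    rw [h1, hη, Real.rpow_sub hP0, Real.rpow_one]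
    ring
  have hPη : P ^ η = A ^ η * ((2 : ℝ) ^ (-(θ * η))) ^ i := by
    rw [hP, Real.mul_rpow (by linarith) (by positivity)]
    congr 1
    rw [← Real.rpow_natCast, ← Real.rpow_natCast, ← Real.rpow_mul (by norm_num),
      ← Real.rpow_mul (by norm_num), ← Real.rpow_mul (by norm_num)]
    congr 1
    ring
  have hDs : D ≤ 2 * (1 + Real.sqrt σ2 * Real.sqrt (2 ^ i)) := by
    rw [hD, Real.sqrt_le_left (by positivity)]
    have h1 : (Real.sqrt σ2) ^ 2 = σ2 := Real.sq_sqrt hσ0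
    have h2 : (Real.sqrt ((2 : ℝ) ^ i)) ^ 2 = 2 ^ i := Real.sq_sqrt h2i.le
    have h3 : 0 ≤ Real.sqrt σ2 * Real.sqrt ((2 : ℝ) ^ i) := by positivity
    have h4 : (Real.sqrt σ2 * Real.sqrt ((2 : ℝ) ^ i)) ^ 2 = σ2 * 2 ^ i := by
      rw [mul_pow, h1, h2]
    have h5 : (2 : ℝ) ^ (i + 1) = 2 * 2 ^ i := by ring
    rw [h5]
    have h6 : 0 ≤ σ2 * 2 ^ i := by positivity
    nlinarith
  have h2s : Real.sqrt ((2 : ℝ) ^ i) * ((2 : ℝ) ^ (-(θ * η))) ^ i = ((2 : ℝ) ^ (1 / 2 - θ * η)) ^ i := by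
    rw [Real.sqrt_eq_rpow, ← Real.rpow_natCast, ← Real.rpow_natCast, ← Real.rpow_natCast,
      ← Real.rpow_mul (by norm_num), ← Real.rpow_mul (by norm_num), ← Real.rpow_mul (by norm_num),
      ← Real.rpow_add (by norm_num)]
    congr 1
    ring
  rw [hlP, hPη]
  have hAη : 0 < A ^ η := Real.rpow_pos_of_pos (by linarith) _
  calc 2 * ((15 * q.factorial : ℝ) ^ (1 / (q : ℝ)) * D * (A ^ η * ((2 : ℝ) ^ (-(θ * η))) ^ i))
      ≤ 2 * ((15 * q.factorial : ℝ) ^ (1 / (q : ℝ)) *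
        (2 * (1 + Real.sqrt σ2 * Real.sqrt (2 ^ i))) * (A ^ η * ((2 : ℝ) ^ (-(θ * η))) ^ i)) := by
        gcongr
    _ = cq q * A ^ η * (((2 : ℝ) ^ (-(θ * η))) ^ i +
        Real.sqrt σ2 * (Real.sqrt (2 ^ i) * ((2 : ℝ) ^ (-(θ * η))) ^ i)) := by
        unfold cq; ring
    _ = _ := by rw [h2s]

/-- The constant. -/
def cXq (q : ℕ) (θ : ℝ) : ℝ := cq q * (1 / (1 - (2 : ℝ) ^ (-(θ * (1 - 1 / (q : ℝ))))) +
  ((2 : ℝ) ^ (1 / 2 - θ * (1 - 1 / (q : ℝ))) / ((2 : ℝ) ^ (1 / 2 - θ * (1 - 1 / (q : ℝ))) - 1) +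
    1 / (1 - (2 : ℝ) ^ (1 / 2 - θ * (1 - 1 / (q : ℝ)) - 1))))

lemma eta_pos {q : ℕ} (hq : 2 ≤ q) : 0 < 1 - 1 / (q : ℝ) ∧ 1 - 1 / (q : ℝ) < 1 := by
  have hq0 : (2 : ℝ) ≤ q := by exact_mod_cast hq
  constructor
  · rw [sub_pos, div_lt_one (by linarith)]; linarith
  · have : 0 < 1 / (q : ℝ) := by positivity
    linarith

lemma cXq_pos {q : ℕ} (hq : 2 ≤ q) {θ : ℝ} (h0 : 0 < θ) (h1 : θ < 1 / 2) : 0 < cXq q θ := by
  obtain ⟨hη0, hη1⟩ := eta_pos hq
  set η := 1 - 1 / (q : ℝ) with hη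
  have hθη : θ * η < 1 / 2 := by nlinarith
  have hθη0 : 0 < θ * η := mul_pos h0 hη0
  have e1 : (2 : ℝ) ^ (-(θ * η)) < 1 :=
    Real.rpow_lt_one_of_one_lt_of_neg (by norm_num) (by linarith)
  have e2 : 1 < (2 : ℝ) ^ (1 / 2 - θ * η) := Real.one_lt_rpow (by norm_num) (by linarith)
  have e3 : (2 : ℝ) ^ (1 / 2 - θ * η - 1) < 1 :=
    Real.rpow_lt_one_of_one_lt_of_neg (by norm_num) (by linarith)
  have hc := cq_pos q
  have h1 : 0 < 1 / (1 - (2 : ℝ) ^ (-(θ * η))) := div_pos one_pos (by linarith)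
  have h2 : 0 < (2 : ℝ) ^ (1 / 2 - θ * η) / ((2 : ℝ) ^ (1 / 2 - θ * η) - 1) :=
    div_pos (by linarith) (by linarith)
  have h3 : 0 < 1 / (1 - (2 : ℝ) ^ (1 / 2 - θ * η - 1)) := div_pos one_pos (by linarith)
  unfold cXq
  rw [← hη]
  positivity

theorem X_bound_q (a p : unitInterval) (β : NNReal) (s : ℝ) {R : ℕ} (hR : 1 ≤ R) {q : ℕ}
    (hq : 2 ≤ q) {θ A : ℝ} (hθ0 : 0 < θ) (hθ1 : θ < 1 / 2) (hA : 1 ≤ A)
    (hQ : ∀ N : ℕ, 1 ≤ N → QQ (pm (prob (n := n) a p β s 1)) N ≤ A * (N : ℝ) ^ (-θ))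
    {N : ℕ} (hN : 1 ≤ N) (𝓑 : Finset (Finset (V n))) :
    ∑ B ∈ 𝓑, (max (B.card : ℝ) N)⁻¹ *
      ∫ ω in {ω | IsK ω B}, |SS β s R B ω| ∂(pm (prob (n := n) a p β s 1)) ≤
    cXq q θ * A ^ (1 - 1 / (q : ℝ)) *
      (1 / N + Real.sqrt (sg β s R) * (N : ℝ) ^ (-(1 / 2 + θ * (1 - 1 / (q : ℝ))))) := by
  classical
  obtain ⟨hη0, hη1⟩ := eta_pos hq
  have hcq := cq_pos q
  set μ := pm (prob (n := n) a p β s 1) with hμ
  set F : Finset (V n) → ℝ := fun B => ∫ ω in {ω | IsK ω B}, |SS β s R B ω| ∂μ with hF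
  have hF0 : ∀ B, 0 ≤ F B := fun B => integral_nonneg fun ω => abs_nonneg _
  have hNR : (0 : ℝ) < N := by exact_mod_cast hN
  have hFe : F ∅ = 0 := by
    have : {ω : Cfg n | IsK ω ∅} = ∅ := by
      ext ω
      simp only [mem_ofPred_eq, mem_empty_iff_false, iff_false]
      intro h
      exact Finset.not_nonempty_empty (isK_ne h)
    show ∫ ω in {ω : Cfg n | IsK ω ∅}, |SS β s R ∅ ω| ∂μ = 0
    rw [this]
    simp
  set 𝓑' := 𝓑.filter (fun B => B ≠ ∅) with h𝓑'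
  obtain ⟨L, hL⟩ : ∃ L : ℕ, ∀ B ∈ 𝓑', Nat.log 2 B.card < L := by
    refine ⟨𝓑'.sup (fun B => Nat.log 2 B.card) + 1, fun B hB => ?_⟩
    exact Nat.lt_succ_of_le (Finset.le_sup (f := fun B : Finset (V n) => Nat.log 2 B.card) hB)
  have h1 : ∑ B ∈ 𝓑, (max (B.card : ℝ) N)⁻¹ * F B = ∑ B ∈ 𝓑', (max (B.card : ℝ) N)⁻¹ * F B := by
    rw [h𝓑', Finset.sum_filter_of_ne]
    intro B _ hne h
    apply hne
    rw [h, hFe, mul_zero]
  have h2 : ∑ B ∈ 𝓑', (max (B.card : ℝ) N)⁻¹ * F B =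
      ∑ i ∈ Finset.range L, ∑ B ∈ 𝓑' with Nat.log 2 B.card = i, (max (B.card : ℝ) N)⁻¹ * F B := by
    rw [Finset.sum_fiberwise_of_maps_to]
    intro B hB
    exact Finset.mem_range.2 (hL B hB)
  set η : ℝ := 1 - 1 / (q : ℝ) with hη
  have h3 : ∀ i ∈ Finset.range L,
      ∑ B ∈ 𝓑' with Nat.log 2 B.card = i, (max (B.card : ℝ) N)⁻¹ * F B ≤
      (max ((2 : ℝ) ^ i) N)⁻¹ * (cq q * A ^ η * (((2 : ℝ) ^ (-(θ * η))) ^ i +
        Real.sqrt (sg β s R) * ((2 : ℝ) ^ (1 / 2 - θ * η)) ^ i)) := by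
    intro i _
    have hc : ∀ B ∈ 𝓑'.filter (fun B => Nat.log 2 B.card = i),
        2 ^ i ≤ B.card ∧ B.card ≤ 2 ^ (i + 1) := by
      intro B hB
      rw [Finset.mem_filter, h𝓑', Finset.mem_filter] at hB
      obtain ⟨⟨_, hne⟩, hlog⟩ := hB
      have hpos : B.card ≠ 0 := by
        rw [Ne, Finset.card_eq_zero]; exact hne
      rw [← hlog]
      exact ⟨Nat.pow_log_le_self 2 hpos, (Nat.lt_pow_succ_log_self (by norm_num) _).le⟩
    calc ∑ B ∈ 𝓑' with Nat.log 2 B.card = i, (max (B.card : ℝ) N)⁻¹ * F B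
        ≤ ∑ B ∈ 𝓑' with Nat.log 2 B.card = i, (max ((2 : ℝ) ^ i) N)⁻¹ * F B := by
          refine Finset.sum_le_sum fun B hB => ?_
          refine mul_le_mul_of_nonneg_right ?_ (hF0 B)
          refine inv_anti₀ (by positivity) (max_le_max ?_ le_rfl)
          exact_mod_cast (hc B hB).1
      _ = (max ((2 : ℝ) ^ i) N)⁻¹ * ∑ B ∈ 𝓑' with Nat.log 2 B.card = i, F B := by
          rw [Finset.mul_sum]
      _ ≤ _ := by
          refine mul_le_mul_of_nonneg_left ?_ (by positivity)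
          exact block_bound_q a p β s hR hA (by omega) hQ i _ hc
  rw [h1, h2]
  refine (Finset.sum_le_sum h3).trans ?_
  have hθη : θ * η < 1 / 2 := by nlinarith
  have hθη0 : 0 < θ * η := mul_pos hθ0 hη0
  have hz1 : (2 : ℝ) ^ (-(θ * η)) < 1 :=
    Real.rpow_lt_one_of_one_lt_of_neg (by norm_num) (by linarith)
  have hz0 : 0 < (2 : ℝ) ^ (-(θ * η)) := Real.rpow_pos_of_pos (by norm_num) _
  have s1 : ∑ i ∈ Finset.range L, (max ((2 : ℝ) ^ i) N)⁻¹ * ((2 : ℝ) ^ (-(θ * η))) ^ i ≤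
      1 / (1 - (2 : ℝ) ^ (-(θ * η))) * (1 / N) := by
    calc ∑ i ∈ Finset.range L, (max ((2 : ℝ) ^ i) N)⁻¹ * ((2 : ℝ) ^ (-(θ * η))) ^ i
        ≤ ∑ i ∈ Finset.range L, (1 / N) * ((2 : ℝ) ^ (-(θ * η))) ^ i := by
          refine Finset.sum_le_sum fun i _ => ?_
          refine mul_le_mul_of_nonneg_right ?_ (by positivity)
          rw [one_div]
          exact inv_anti₀ hNR (le_max_right _ _)
      _ = (1 / N) * ∑ i ∈ Finset.range L, ((2 : ℝ) ^ (-(θ * η))) ^ i := by rw [Finset.mul_sum]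
      _ ≤ (1 / N) * (1 / (1 - (2 : ℝ) ^ (-(θ * η)))) := by
          refine mul_le_mul_of_nonneg_left ?_ (by positivity)
          have := geom_sum_Ico_le_of_lt_one (m := 0) (n := L) hz0.le hz1
          rwa [pow_zero, ← Finset.range_eq_Ico] at this
      _ = _ := by ring
  have s2 := dyadic_sum (a := 1 / 2 - θ * η) (by linarith) (by linarith) hN L
  have hexp : 1 / 2 - θ * η - 1 = -(1 / 2 + θ * η) := by ring
  have hA0 : 0 ≤ A ^ η := Real.rpow_nonneg (by linarith) _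
  have hσ0 : 0 ≤ Real.sqrt (sg β s R) := Real.sqrt_nonneg _
  have hy1 : (2 : ℝ) ^ (1 / 2 - θ * η - 1) < 1 :=
    Real.rpow_lt_one_of_one_lt_of_neg (by norm_num) (by linarith)
  have hx1 : 1 < (2 : ℝ) ^ (1 / 2 - θ * η) := Real.one_lt_rpow (by norm_num) (by linarith)
  set c1 : ℝ := 1 / (1 - (2 : ℝ) ^ (-(θ * η))) with hc1
  set c2 : ℝ := (2 : ℝ) ^ (1 / 2 - θ * η) / ((2 : ℝ) ^ (1 / 2 - θ * η) - 1) +
    1 / (1 - (2 : ℝ) ^ (1 / 2 - θ * η - 1)) with hc2
  have hc10 : 0 ≤ c1 := by rw [hc1]; exact (div_pos one_pos (by linarith)).le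
  have hc20 : 0 ≤ c2 := by
    rw [hc2]
    exact add_nonneg (div_nonneg (by linarith) (by linarith)) (div_nonneg zero_le_one (by linarith))
  have hNp : 0 ≤ (N : ℝ) ^ (-(1 / 2 + θ * η)) := by positivity
  rw [hexp] at s2
  calc ∑ i ∈ Finset.range L, (max ((2 : ℝ) ^ i) N)⁻¹ * (cq q * A ^ η *
        (((2 : ℝ) ^ (-(θ * η))) ^ i + Real.sqrt (sg β s R) * ((2 : ℝ) ^ (1 / 2 - θ * η)) ^ i))
      = cq q * A ^ η * (∑ i ∈ Finset.range L, (max ((2 : ℝ) ^ i) N)⁻¹ *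
          ((2 : ℝ) ^ (-(θ * η))) ^ i + Real.sqrt (sg β s R) *
          ∑ i ∈ Finset.range L, ((2 : ℝ) ^ (1 / 2 - θ * η)) ^ i / max ((2 : ℝ) ^ i) N) := by
        rw [Finset.mul_sum, ← Finset.sum_add_distrib, Finset.mul_sum]
        refine Finset.sum_congr rfl fun i _ => ?_
        ring
    _ ≤ cq q * A ^ η * (c1 * (1 / N) + Real.sqrt (sg β s R) *
          (c2 * (N : ℝ) ^ (-(1 / 2 + θ * η)))) := by
        gcongr
    _ ≤ cq q * A ^ η * ((c1 + c2) * (1 / N) + Real.sqrt (sg β s R) *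
          ((c1 + c2) * (N : ℝ) ^ (-(1 / 2 + θ * η)))) := by
        gcongr
        · linarith
        · linarith
    _ = _ := by
        unfold cXq
        rw [← hη, ← hc1, ← hc2]
        ring

end

end Pool.Agent.TH489.PL
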